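import Mathlib

/-! Elementary estimates. -/

set_option autoImplicit false

namespace Q157.LG

structure Bas (L V V0 G s : ℝ) : Prop where
  hL : 16 / s ≤ L ^ 2
  hL1 : 4 ≤ L
  hs : 0 < s
  hs1 : s ≤ 1
  hV : 1 / L ≤ V
  hV0 : 1 / L ^ 2 ≤ V0
  hG1 : 1 ≤ G
  hG2 : G ≤ L ^ 2

theorem Bas.V_pos {L V V0 G s : ℝ} (h : Bas L V V0 G s) : 0 < V :=
  lt_of_lt_of_le (by have := h.hL1; positivity) h.hV

theorem Bas.V0_pos {L V V0 G s : ℝ} (h : Bas L V V0 G s) : 0 < V0 :=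
  lt_of_lt_of_le (by have := h.hL1; positivity) h.hV0

theorem Bas.inv2 {L V V0 G s : ℝ} (h : Bas L V V0 G s) : 1 / L ^ 2 ≤ s / 16 := by
  have hs := h.hs
  have hL1 := h.hL1
  have hL := h.hL
  rw [div_le_iff₀ hs] at hL
  rw [div_le_div_iff₀ (by positivity) (by norm_num)]
  linarith

theorem Bas.b2 {L V V0 G s : ℝ} (h : Bas L V V0 G s) : 1 / L ^ 4 ≤ s / 16 * V ^ 2 := by
  have hL1 := h.hL1
  have h1 : 1 / L ^ 4 = (1 / L ^ 2) * (1 / L) ^ 2 := by
    field_simp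
  rw [h1]
  have h2 : (1 / L) ^ 2 ≤ V ^ 2 := pow_le_pow_left₀ (by positivity) h.hV 2
  exact mul_le_mul h.inv2 h2 (by positivity) (by have := h.hs; positivity)

theorem Bas.b1 {L V V0 G s : ℝ} (h : Bas L V V0 G s) : 1 / L ^ 4 ≤ s / 16 * V := by
  have hL1 := h.hL1
  have h1 : 1 / L ^ 4 = (1 / L ^ 2) * (1 / L * (1 / L)) := by
    field_simp
  rw [h1]
  have h2 : 1 / L * (1 / L) ≤ V := by
    have h3 : 1 / L ≤ 1 := by
      rw [div_le_one (by linarith)]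
      linarith
    have h4 : 0 ≤ 1 / L := by positivity
    have := h.hV
    nlinarith
  exact mul_le_mul h.inv2 h2 (by positivity) (by have := h.hs; positivity)

theorem Bas.b3 {L V V0 G s : ℝ} (h : Bas L V V0 G s) : 1 / L ^ 5 ≤ V * (V0 / G) := by
  have hL1 := h.hL1
  have hG1 := h.hG1
  have h1 : 1 / L ^ 5 = (1 / L) * ((1 / L ^ 2) / L ^ 2) := by
    field_simp
  rw [h1]
  have h2 : (1 / L ^ 2) / L ^ 2 ≤ V0 / G := by
    apply div_le_div₀ h.V0_pos.le h.hV0 (by linarith) h.hG2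
  exact mul_le_mul h.hV h2 (by positivity) h.V_pos.le

theorem Bas.b5 {L V V0 G s : ℝ} (h : Bas L V V0 G s) :
    1 / L ^ 12 ≤ s / 16 * (V * (V0 / G)) := by
  have hL1 := h.hL1
  have h1 : 1 / L ^ 12 = (1 / L ^ 2) * (1 / L ^ 5 * (1 / L ^ 5)) := by
    field_simp
  rw [h1]
  have h2 : 1 / L ^ 5 * (1 / L ^ 5) ≤ V * (V0 / G) := by
    have h3 : 1 / L ^ 5 ≤ 1 := by
      rw [div_le_one (by positivity)]
      exact one_le_pow₀ (by linarith)
    have h4 : 0 ≤ 1 / L ^ 5 := by positivity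
    have := h.b3
    nlinarith
  exact mul_le_mul h.inv2 h2 (by positivity) (by have := h.hs; positivity)

theorem Bas.b4 {L V V0 G s : ℝ} (h : Bas L V V0 G s) :
    1 / L ^ 12 ≤ s / 16 * (V * (V0 / G)) ^ 2 := by
  have hL1 := h.hL1
  have h1 : 1 / L ^ 12 = (1 / L ^ 2) * (1 / L ^ 5) ^ 2 := by
    field_simp
  rw [h1]
  have h2 : (1 / L ^ 5) ^ 2 ≤ (V * (V0 / G)) ^ 2 := pow_le_pow_left₀ (by positivity) h.b3 2
  exact mul_le_mul h.inv2 h2 (by positivity) (by have := h.hs; positivity)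

theorem alg2 {X L V V0 G t h s : ℝ} (B : Bas L V V0 G s) (hX : 0 ≤ X)
    (ht : |t - V| ≤ 1 / L ^ 4) (hh : |h - V0| ≤ s / 8 * V0) :
    X * (t * (h * 1) * (1 / G * 1)) + X / L ^ 12 ≤ X * (V * (V0 / G)) * (1 + s) := by
  have hs := B.hs
  have hs1 := B.hs1
  have hG1 := B.hG1
  have hV := B.V_pos
  have hV0 := B.V0_pos
  have hG0 : 0 < G := by linarith
  have b1 := B.b1
  have b5 := B.b5
  rw [abs_le] at ht hh
  have h1 : t ≤ V * (1 + s / 16) := by linarith [ht.2]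
  have h2 : h ≤ V0 * (1 + s / 8) := by linarith [hh.2]
  have h3 : 0 ≤ h := by nlinarith [hh.1]
  have h4 : t * h ≤ V * (1 + s / 16) * (V0 * (1 + s / 8)) := by
    apply mul_le_mul h1 h2 h3 (by positivity)
  have h5 : t * (h * 1) * (1 / G * 1) ≤ V * (V0 / G) * ((1 + s / 16) * (1 + s / 8)) := by
    calc t * (h * 1) * (1 / G * 1) = (t * h) / G := by ring
      _ ≤ (V * (1 + s / 16) * (V0 * (1 + s / 8))) / G := by gcongr
      _ = _ := by ring
  have h6 : X / L ^ 12 = X * (1 / L ^ 12) := by ring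
  rw [h6, ← mul_add, mul_assoc X (V * (V0 / G)) (1 + s)]
  apply mul_le_mul_of_nonneg_left _ hX
  have hk : 0 < V * (V0 / G) := by positivity
  have h7 : (1 + s / 16) * (1 + s / 8) + s / 16 ≤ 1 + s := by nlinarith
  calc t * (h * 1) * (1 / G * 1) + 1 / L ^ 12 ≤
      V * (V0 / G) * ((1 + s / 16) * (1 + s / 8)) + s / 16 * (V * (V0 / G)) := add_le_add h5 b5
    _ = V * (V0 / G) * ((1 + s / 16) * (1 + s / 8) + s / 16) := by ring
    _ ≤ _ := mul_le_mul_of_nonneg_left h7 hk.le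

theorem alg1 {X L V V0 G tL tU h d s : ℝ} (B : Bas L V V0 G s) (hX : 0 ≤ X)
    (htL : |tL - V| ≤ 1 / L ^ 4) (htU : |tU - V| ≤ 1 / L ^ 4) (hh : |h - V0| ≤ s / 8 * V0)
    (hd : |d| ≤ s / 8 * V0) :
    X * (V * (V0 / G)) * (1 - s) ≤ (X * (tL * (h * 1) * (1 / G * 1)) - X / L ^ 12) -
      (X * (tU * (d * 1) * (1 / G * 1)) + X / L ^ 12) := by
  have hs := B.hs
  have hs1 := B.hs1
  have hG1 := B.hG1
  have hV := B.V_pos
  have hV0 := B.V0_pos
  have hG0 : 0 < G := by linarith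
  have b1 := B.b1
  have b5 := B.b5
  rw [abs_le] at htL htU hh hd
  have h1 : V * (1 - s / 16) ≤ tL := by linarith [htL.1]
  have h2 : V0 * (1 - s / 8) ≤ h := by linarith [hh.1]
  have h1' : 0 ≤ V * (1 - s / 16) := by
    apply mul_nonneg hV.le; linarith
  have h2' : 0 ≤ V0 * (1 - s / 8) := by
    apply mul_nonneg hV0.le; linarith
  have h4 : V * (1 - s / 16) * (V0 * (1 - s / 8)) ≤ tL * h :=
    mul_le_mul h1 h2 h2' (h1'.trans h1)
  have h5 : V * (V0 / G) * ((1 - s / 16) * (1 - s / 8)) ≤ tL * (h * 1) * (1 / G * 1) := by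
    calc V * (V0 / G) * ((1 - s / 16) * (1 - s / 8)) =
        (V * (1 - s / 16) * (V0 * (1 - s / 8))) / G := by ring
      _ ≤ (tL * h) / G := by gcongr
      _ = _ := by ring
  have h6 : tU ≤ V * (1 + s / 16) := by linarith [htU.2]
  have h6' : 0 ≤ tU := by
    have : V * (1 - s / 16) ≤ tU := by linarith [htU.1]
    exact h1'.trans this
  have h7 : tU * d ≤ V * (1 + s / 16) * (s / 8 * V0) := by
    calc tU * d ≤ tU * (s / 8 * V0) := mul_le_mul_of_nonneg_left hd.2 h6'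
      _ ≤ _ := mul_le_mul_of_nonneg_right h6 (by positivity)
  have h8 : tU * (d * 1) * (1 / G * 1) ≤ V * (V0 / G) * ((1 + s / 16) * (s / 8)) := by
    calc tU * (d * 1) * (1 / G * 1) = (tU * d) / G := by ring
      _ ≤ (V * (1 + s / 16) * (s / 8 * V0)) / G := by gcongr
      _ = _ := by ring
  have hk : 0 < V * (V0 / G) := by positivity
  have h9 : 1 - s ≤ (1 - s / 16) * (1 - s / 8) - s / 16 - ((1 + s / 16) * (s / 8) + s / 16) := by
    nlinarith
  have h10 : V * (V0 / G) * (1 - s) ≤ (tL * (h * 1) * (1 / G * 1) - 1 / L ^ 12) -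
      (tU * (d * 1) * (1 / G * 1) + 1 / L ^ 12) := by
    calc V * (V0 / G) * (1 - s) ≤ V * (V0 / G) *
          ((1 - s / 16) * (1 - s / 8) - s / 16 - ((1 + s / 16) * (s / 8) + s / 16)) :=
          mul_le_mul_of_nonneg_left h9 hk.le
      _ ≤ _ := by nlinarith
  calc X * (V * (V0 / G)) * (1 - s) = X * (V * (V0 / G) * (1 - s)) := by ring
    _ ≤ X * ((tL * (h * 1) * (1 / G * 1) - 1 / L ^ 12) -
      (tU * (d * 1) * (1 / G * 1) + 1 / L ^ 12)) := mul_le_mul_of_nonneg_left h10 hX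
    _ = _ := by ring

theorem alg3 {X L V V0 G t h s Q F : ℝ} (B : Bas L V V0 G s) (hX : 0 ≤ X) (hF : 0 ≤ F)
    (ht : |t - Q| ≤ 1 / L ^ 4) (hQ : Q ≤ V ^ 2 * F) (hh : |h - V0| ≤ s / 8 * V0) :
    X * (t * (h * h) * (1 / G * (1 / G))) + X / L ^ 12 ≤
      X * (V * (V0 / G)) ^ 2 * ((1 + s) * F + s) := by
  have hs := B.hs
  have hs1 := B.hs1
  have hG1 := B.hG1
  have hV := B.V_pos
  have hV0 := B.V0_pos
  have hG0 : 0 < G := by linarith
  have b2 := B.b2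
  have b4 := B.b4
  rw [abs_le] at ht hh
  have h1 : t ≤ V ^ 2 * (F + s / 16) := by linarith [ht.2]
  have h2 : h ≤ V0 * (1 + s / 8) := by linarith [hh.2]
  have h3 : 0 ≤ h := by nlinarith [hh.1]
  have h2' : h * h ≤ V0 ^ 2 * (1 + s / 8) ^ 2 := by
    calc h * h ≤ (V0 * (1 + s / 8)) * (V0 * (1 + s / 8)) := mul_le_mul h2 h2 h3 (by positivity)
      _ = _ := by ring
  have h4 : t * (h * h) ≤ V ^ 2 * (F + s / 16) * (V0 ^ 2 * (1 + s / 8) ^ 2) :=
    mul_le_mul h1 h2' (mul_nonneg h3 h3) (by positivity)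
  have h5 : t * (h * h) * (1 / G * (1 / G)) ≤ (V * (V0 / G)) ^ 2 * ((F + s / 16) * (1 + s / 8) ^ 2) := by
    calc t * (h * h) * (1 / G * (1 / G)) = (t * (h * h)) / G ^ 2 := by
          field_simp
      _ ≤ (V ^ 2 * (F + s / 16) * (V0 ^ 2 * (1 + s / 8) ^ 2)) / G ^ 2 := by gcongr
      _ = _ := by
          field_simp
  have h6 : X / L ^ 12 = X * (1 / L ^ 12) := by ring
  rw [h6, ← mul_add, mul_assoc X ((V * (V0 / G)) ^ 2) ((1 + s) * F + s)]
  apply mul_le_mul_of_nonneg_left _ hX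
  have hk : 0 < V * (V0 / G) := by positivity
  have h7 : (F + s / 16) * (1 + s / 8) ^ 2 + s / 16 ≤ (1 + s) * F + s := by
    have h8 : (1 + s / 8) ^ 2 ≤ 1 + s := by nlinarith
    have h9 : F * (1 + s / 8) ^ 2 ≤ F * (1 + s) := mul_le_mul_of_nonneg_left h8 hF
    have h10 : s / 16 * (1 + s / 8) ^ 2 ≤ s / 16 * (1 + s) :=
      mul_le_mul_of_nonneg_left h8 (by positivity)
    nlinarith
  calc t * (h * h) * (1 / G * (1 / G)) + 1 / L ^ 12 ≤
      (V * (V0 / G)) ^ 2 * ((F + s / 16) * (1 + s / 8) ^ 2) + s / 16 * (V * (V0 / G)) ^ 2 :=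
      add_le_add h5 b4
    _ = (V * (V0 / G)) ^ 2 * ((F + s / 16) * (1 + s / 8) ^ 2 + s / 16) := by ring
    _ ≤ _ := mul_le_mul_of_nonneg_left h7 (by positivity)

theorem up1 {x y e T d : ℝ} (hx : x = 0 ∨ x = 1) (hT : 0 ≤ T) (hT1 : x = 1 → 1 ≤ T) (hy : 0 ≤ y)
    (hye : y ≤ e) (hd : 0 ≤ d) : x * y * d ≤ T * (e * 1) * (d * 1) := by
  have he : 0 ≤ e := hy.trans hye
  rcases hx with h | h
  · rw [h]
    have : 0 ≤ T * (e * 1) * (d * 1) := by positivity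
    linarith
  · have h1 := hT1 h
    rw [h, one_mul, mul_one, mul_one]
    apply mul_le_mul_of_nonneg_right _ hd
    nlinarith

theorem lo1 {x y e el TL TU d : ℝ} (hx : x = 0 ∨ x = 1) (hTL : TL ≤ 1) (hTL0 : x = 0 → TL ≤ 0)
    (hTU : 0 ≤ TU) (hTU1 : x = 1 → 1 ≤ TU) (hy : 0 ≤ y) (hye : y ≤ e) (hel : e - y ≤ el)
    (hd : 0 ≤ d) : TL * (e * 1) * (d * 1) - TU * (el * 1) * (d * 1) ≤ x * y * d := by
  have he : 0 ≤ e := hy.trans hye
  have hel0 : 0 ≤ el := by linarith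
  rcases hx with h | h
  · have h1 := hTL0 h
    rw [h]
    have h2 : 0 ≤ TU * (el * 1) * (d * 1) := by positivity
    have h3 : TL * (e * 1) * (d * 1) ≤ 0 := by
      apply mul_nonpos_of_nonpos_of_nonneg _ (by linarith)
      apply mul_nonpos_of_nonpos_of_nonneg h1
      linarith
    linarith
  · have h1 := hTU1 h
    rw [h]
    have h2 : TL * e ≤ e := by nlinarith
    have h3 : el ≤ TU * el := by nlinarith
    calc TL * (e * 1) * (d * 1) - TU * (el * 1) * (d * 1) = (TL * e - TU * el) * d := by ring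
      _ ≤ y * d := by
          apply mul_le_mul_of_nonneg_right _ hd
          linarith
      _ = _ := by ring

theorem up2 {x x' y y' e e' T d d' : ℝ} (hx : x = 0 ∨ x = 1) (hx' : x' = 0 ∨ x' = 1) (hT : 0 ≤ T)
    (hT1 : x = 1 → x' = 1 → 1 ≤ T) (hy : 0 ≤ y) (hye : y ≤ e) (hy' : 0 ≤ y') (hye' : y' ≤ e')
    (hd : 0 ≤ d) (hd' : 0 ≤ d') :
    x * y * d * (x' * y' * d') ≤ T * (e * e') * (d * d') := by
  have he : 0 ≤ e := hy.trans hye
  have he' : 0 ≤ e' := hy'.trans hye'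
  have h0 : 0 ≤ T * (e * e') * (d * d') := by positivity
  rcases hx with h | h
  · rw [h]
    linarith
  rcases hx' with h' | h'
  · rw [h']
    linarith
  have h1 := hT1 h h'
  rw [h, h']
  have h2 : y * y' ≤ e * e' := mul_le_mul hye hye' hy' he
  have h3 : e * e' ≤ T * (e * e') := by
    have : 0 ≤ e * e' := by positivity
    nlinarith
  calc 1 * y * d * (1 * y' * d') = (y * y') * (d * d') := by ring
    _ ≤ (T * (e * e')) * (d * d') := by
        apply mul_le_mul_of_nonneg_right (h2.trans h3)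
        positivity
    _ = _ := by ring

end Q157.LG
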