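import Pool.Agent.Q157.LG.Var
import Pool.Agent.TH899.UG.Final

/-! The majorant, unconditionally. -/

set_option autoImplicit false

namespace Q157.LG

open Finset Filter Topology
open Pool.Agent.W25.UN Pool.Agent.W25.UB
open Pool.Agent.TH899.UG (R2LAt St_VLNF hR2LF hVLNF)
open Pool.Agent.H410R2 (BD)
open Pool.Agent.H442R2
open Pool.Agent.H442R2.KF (Wt)

theorem hBPSL : St_BPSL := bpsl hEXM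

theorem hRCBG : St_RCBG := rcbG BX.RC BX.GS

theorem hsumW : ∃ X₀ : ℕ, ∀ X : ℕ, X₀ ≤ X →
    Summable (fun n : ℤ => Wt X n) ∧ |∑' n : ℤ, Wt X n - X| ≤ 1 / (X : ℝ) ^ 4 :=
  sumW hEXM Pool.Agent.W505.UBGAU.main

theorem hbeta : ∃ ε₀ : ℝ, 0 < ε₀ ∧ ε₀ ≤ 1 / 100 ∧ ∀ s : ℝ, 0 < s → s ≤ 1 →
    ∃ C1 : ℝ, 1 ≤ C1 ∧ ∀ D U : ℕ, 4 ≤ D → 1 ≤ U → ∀ᶠ N : ℕ in atTop,
      ∃ (β : ℤ → ℝ) (κ Y : ℝ) (P : Finset ℕ),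
      (∀ m, 0 ≤ β m ∧ β m ≤ Y) ∧ (∀ p : ℕ, p.Prime → 2 * N < p ^ 2 → β p = 1) ∧
      (∀ p ∈ P, p.Prime ∧ D < p) ∧ 1 / (Real.log N) ^ 5 ≤ κ ∧
      κ * (BD D * Real.log N) * ((1 / 4 + ε₀ / 8) * (1 - s)) ≤ 1 ∧
      ∀ a w : ℤ, a ≠ 0 → |a| ≤ U → (∀ p : ℕ, p.Prime → D < p → ¬ (p : ℤ) ∣ a) →
        4 * |(w : ℝ)| ≤ 3 * |(a : ℝ)| * ((2 * N : ℕ) : ℝ) →
        ((2 * N : ℕ) : ℝ) * κ * (1 - s) ≤ ∑' n : ℤ, Wt (2 * N) n * β (a * n + w) ∧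
        ∑' n : ℤ, Wt (2 * N) n * β (a * n + w) ^ 2 ≤ C1 * (((4 * N : ℕ) : ℝ) * κ * (1 + s)) ∧
        ∀ w' : ℤ, w ≠ w' → 4 * |(w' : ℝ)| ≤ 3 * |(a : ℝ)| * ((2 * N : ℕ) : ℝ) →
          |((a * (w - w') : ℤ) : ℝ)| ≤ (Real.log N) ^ 2 →
          ∑' n : ℤ, Wt (2 * N) n * (β (a * n + w) * β (a * n + w')) ≤
            ((2 * N : ℕ) : ℝ) * κ ^ 2 * ((1 + s) * ∏ p ∈ P, fc (w - w') p + s) := by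
  obtain ⟨ε₀, η, h1, h2, h3, h4, h5⟩ := hR2LF
  refine ⟨ε₀, h1, h2, fun s hs hs1 => ?_⟩
  exact beta hEXM Pool.Agent.W505.UBGAU.main hFT3 (Pool.Agent.W308.UB.main hEXM) hBPSL
    (Pool.Agent.W505.UBFLC.main Pool.Agent.W308.PL.FLW Pool.Agent.W655.PL.VLB)
    Pool.Agent.W356.UBSel.main Pool.Agent.W287.UB.main hSUM hRCBG hVLNF ε₀ η h1 h2 h3 h4 h5
    s hs hs1

end Q157.LG
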