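import Pool.Agent.Q157.LG.Pnt
import Pool.Agent.W25.UN.Stm2

/-! Primes among the values of a linear form on an interval. -/

set_option autoImplicit false

namespace Q157.LG

open Finset Filter Topology
open Pool.Agent.H410R2 (BD)

/-- the product of the primes up to `D` -/
def Wd (D : ℕ) : ℕ := ∏ p ∈ (Icc 1 D).filter Nat.Prime, p

theorem Wd_pos (D : ℕ) : 0 < Wd D := prod_pos fun p hp => (mem_filter.1 hp).2.pos

theorem dvd_Wd (D p : ℕ) (hp : p.Prime) : p ∣ Wd D ↔ p ≤ D := by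
  unfold Wd
  constructor
  · intro h
    obtain ⟨q, hq, hpq⟩ := (Prime.dvd_finsetProd_iff hp.prime _).1 h
    rw [mem_filter, mem_Icc] at hq
    rw [(Nat.prime_dvd_prime_iff_eq hp hq.2).1 hpq]
    exact hq.1.2
  · intro h
    exact dvd_prod_of_mem (fun p => p) (mem_filter.2 ⟨mem_Icc.2 ⟨hp.one_lt.le, h⟩, hp⟩)

theorem tot_eq (D α : ℕ) (hα : 1 ≤ α) (hαD : α ≤ D) :
    (((α * Wd D).totient : ℕ) : ℝ) = ((α * Wd D : ℕ) : ℝ) * BD D := by
  have h1 : (α * Wd D).primeFactors = (Icc 1 D).filter Nat.Prime := by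
    ext p
    rw [Nat.mem_primeFactors, mem_filter, mem_Icc]
    constructor
    · rintro ⟨hp, hd, -⟩
      refine ⟨⟨hp.one_lt.le, ?_⟩, hp⟩
      rcases (Nat.Prime.dvd_mul hp).1 hd with h | h
      · exact (Nat.le_of_dvd (by omega) h).trans hαD
      · exact (dvd_Wd D p hp).1 h
    · rintro ⟨⟨-, h⟩, hp⟩
      exact ⟨hp, Dvd.dvd.mul_left ((dvd_Wd D p hp).2 h) _,
        (Nat.mul_pos (by omega) (Wd_pos D)).ne'⟩
  have h2 := Nat.totient_eq_mul_prod_factors (α * Wd D)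
  rw [h1] at h2
  have h3 : (((α * Wd D).totient : ℚ) : ℝ) = (((α * Wd D : ℕ) : ℚ) *
      ∏ p ∈ (Icc 1 D).filter Nat.Prime, (1 - (p : ℚ)⁻¹) : ℚ) := by
    exact_mod_cast congrArg (fun q : ℚ => (q : ℝ)) h2
  rw [Rat.cast_natCast] at h3
  rw [h3]
  unfold BD
  push_cast
  congr 1
  apply prod_congr rfl
  intro p _
  rw [one_div]

theorem BD_le_one (D : ℕ) : BD D ≤ 1 := by
  unfold BD
  apply prod_le_one
  · intro p hp
    have h1 : (2 : ℝ) ≤ p := by exact_mod_cast (mem_filter.1 hp).2.two_le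
    have h2 : 1 / (p : ℝ) ≤ 1 := by
      rw [div_le_one (by linarith)]
      linarith
    linarith
  · intro p hp
    have h2 : 0 ≤ 1 / (p : ℝ) := by positivity
    linarith

/-- `p` is a prime larger than the square root of `2 N` -/
def big (N : ℕ) (m : ℤ) : Prop := ∃ p : ℕ, p.Prime ∧ 2 * N < p ^ 2 ∧ (p : ℤ) = m

open Classical in
theorem cnt (u : ℕ) (hu : 1 ≤ u) (s c : ℝ) (hs : 0 < s) (hs1 : s < 1) (hc : 0 < c) :
    ∀ᶠ N : ℕ in atTop, ∀ (γ n₁ n₂ : ℤ), IsCoprime (u : ℤ) γ → 1 ≤ u * n₁ + γ →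
      u * n₂ + γ ≤ 4 * u * N → c * N ≤ (n₂ : ℝ) - n₁ →
      (1 - s) * ((u : ℝ) / u.totient * ((n₂ : ℝ) - n₁) / Real.log N) ≤
        (((Ico n₁ n₂).filter (fun n => big N (u * n + γ))).card : ℝ) := by
  have : NeZero u := ⟨by omega⟩
  have hu0 : (0 : ℝ) < u := by exact_mod_cast hu
  have hφ : 0 < u.totient := Nat.totient_pos.2 (by omega)
  have hφ0 : (0 : ℝ) < u.totient := by exact_mod_cast hφ
  have hT : Tendsto (fun N : ℕ => 4 * u * N) atTop atTop := by
    apply tendsto_atTop_mono (fun N => ?_) tendsto_id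
    show N ≤ 4 * u * N
    nlinarith
  have hP := hT.eventually (primes_int u (s * c / (16 * u.totient)) (by positivity))
  have hlog : Tendsto (fun N : ℕ => Real.log (N : ℝ)) atTop atTop :=
    Real.tendsto_log_atTop.comp tendsto_natCast_atTop_atTop
  have hsq : Tendsto (fun N : ℕ => Real.sqrt (N : ℝ)) atTop atTop :=
    Real.tendsto_sqrt_atTop.comp tendsto_natCast_atTop_atTop
  filter_upwards [hP, hlog.eventually_ge_atTop (4 * Real.log (4 * u) / s),
    hlog.eventually_ge_atTop 1, hsq.eventually_ge_atTop (8 / (s * c * u)), eventually_ge_atTop 1]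
    with N hN hl1 hl2 hsq1 hN1 γ n₁ n₂ hcop h1 h2 hcN
  have hNr : (1 : ℝ) ≤ N := by exact_mod_cast hN1
  have hM0 : 0 < (n₂ : ℝ) - n₁ := lt_of_lt_of_le (by positivity) hcN
  have hn12 : n₁ < n₂ := by
    have : (n₁ : ℝ) < n₂ := by linarith
    exact_mod_cast this
  set M : ℝ := (n₂ : ℝ) - n₁ with hM
  -- the end points
  obtain ⟨x₁, hx₁⟩ : ∃ x₁ : ℕ, (x₁ : ℤ) = u * n₁ + γ - 1 :=
    ⟨(u * n₁ + γ - 1).toNat, Int.toNat_of_nonneg (by omega)⟩
  obtain ⟨x₂, hx₂⟩ : ∃ x₂ : ℕ, (x₂ : ℤ) = u * n₂ + γ - 1 :=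
    ⟨(u * n₂ + γ - 1).toNat, Int.toNat_of_nonneg (by nlinarith)⟩
  have hx12 : (x₂ : ℝ) - x₁ = u * M := by
    have h3 : (x₂ : ℤ) - x₁ = u * (n₂ - n₁) := by rw [hx₁, hx₂]; ring
    have h4 : (((x₂ : ℤ) - x₁ : ℤ) : ℝ) = ((u * (n₂ - n₁) : ℤ) : ℝ) := by rw [h3]
    push_cast at h4
    exact h4
  have hx2X : x₂ ≤ 4 * u * N := by
    have h3 : (x₂ : ℤ) ≤ 4 * u * N := by rw [hx₂]; omega
    exact_mod_cast h3
  set r : ℕ := Nat.sqrt (2 * N) with hr
  have hrle : (r : ℝ) ≤ s / 4 * (u * M) := by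
    have h3 : (r : ℝ) ≤ 2 * Real.sqrt N := by
      have h4 : ((r * r : ℕ) : ℝ) ≤ ((2 * N : ℕ) : ℝ) := by exact_mod_cast Nat.sqrt_le (2 * N)
      push_cast at h4
      have h5 : Real.sqrt N * Real.sqrt N = N := Real.mul_self_sqrt (Nat.cast_nonneg N)
      have h6 : 0 ≤ Real.sqrt N := Real.sqrt_nonneg _
      by_contra hcon
      push Not at hcon
      nlinarith
    have h5 : Real.sqrt N * Real.sqrt N = N := Real.mul_self_sqrt (Nat.cast_nonneg N)
    have h6 : 0 ≤ Real.sqrt N := Real.sqrt_nonneg _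
    rw [div_le_iff₀ (by positivity)] at hsq1
    have h7 : 8 * Real.sqrt N ≤ s * c * u * N := by
      calc 8 * Real.sqrt N ≤ (Real.sqrt N * (s * c * u)) * Real.sqrt N :=
            mul_le_mul_of_nonneg_right hsq1 h6
        _ = s * c * u * (Real.sqrt N * Real.sqrt N) := by ring
        _ = s * c * u * N := by rw [h5]
    have h8 : s * u * (c * N) ≤ s * u * M := by gcongr
    nlinarith
  have hx1' : max x₁ r ≤ x₂ := by
    rw [max_le_iff]
    have h3 : (x₁ : ℝ) ≤ x₂ := by nlinarith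
    have h4 : (r : ℝ) ≤ x₂ := by
      have h5 : (0 : ℝ) ≤ x₁ := Nat.cast_nonneg _
      have h6 : s / 4 * (u * M) ≤ u * M := by
        have : 0 < u * M := by positivity
        nlinarith
      linarith
    exact ⟨by exact_mod_cast h3, by exact_mod_cast h4⟩
  have hunit : IsUnit ((γ : ℤ) : ZMod u) := (ZMod.coe_int_isUnit_iff_isCoprime γ u).2 hcop
  have hmain := hN _ hunit (max x₁ r) x₂ hx1' hx2X
  -- the injection
  have hcard : ((Ioc (max x₁ r) x₂).filter (fun p : ℕ => p.Prime ∧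
      (p : ZMod u) = ((γ : ℤ) : ZMod u))).card ≤
      ((Ico n₁ n₂).filter (fun n => big N (u * n + γ))).card := by
    have key : ∀ p ∈ (Ioc (max x₁ r) x₂).filter (fun p : ℕ => p.Prime ∧
        (p : ZMod u) = ((γ : ℤ) : ZMod u)), (u : ℤ) * (((p : ℤ) - γ) / u) = p - γ := by
      intro p hp
      obtain ⟨-, -, h3⟩ := mem_filter.1 hp
      have h4 : ((p : ℤ) : ZMod u) = ((γ : ℤ) : ZMod u) := by
        rw [Int.cast_natCast]; exact h3
      rw [ZMod.intCast_eq_intCast_iff_dvd_sub] at h4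
      have h5 : (u : ℤ) ∣ (p : ℤ) - γ := by
        rw [← dvd_neg, neg_sub]; exact h4
      exact Int.mul_ediv_cancel' h5
    apply card_le_card_of_injOn (fun p : ℕ => ((p : ℤ) - γ) / u)
    · intro p hp
      have hk := key p hp
      obtain ⟨h3, h4, -⟩ := mem_filter.1 (mem_coe.1 hp)
      rw [mem_Ioc, max_lt_iff] at h3
      obtain ⟨⟨h5, h6⟩, h7⟩ := h3
      rw [mem_coe, mem_filter, mem_Ico]
      have hui : (0 : ℤ) < u := by exact_mod_cast hu
      have h5' : (x₁ : ℤ) < p := by exact_mod_cast h5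
      have h7' : (p : ℤ) ≤ x₂ := by exact_mod_cast h7
      refine ⟨⟨?_, ?_⟩, p, h4, ?_, ?_⟩
      · have : (u : ℤ) * n₁ ≤ u * (((p : ℤ) - γ) / u) := by rw [hk]; omega
        exact le_of_mul_le_mul_left this hui
      · have : (u : ℤ) * (((p : ℤ) - γ) / u) < u * n₂ := by rw [hk]; omega
        exact lt_of_mul_lt_mul_left this hui.le
      · have h8 : 2 * N < (r + 1) * (r + 1) := Nat.lt_succ_sqrt (2 * N)
        have h9 : (r + 1) * (r + 1) ≤ p * p := Nat.mul_le_mul h6 h6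
        rw [pow_two]
        omega
      · rw [hk]; ring
    · intro p hp q hq hpq
      have h3 := key p hp
      have h4 := key q hq
      simp only at hpq
      rw [hpq] at h3
      have : (p : ℤ) = q := by linarith
      exact_mod_cast this
  have hcard' : (((Ioc (max x₁ r) x₂).filter (fun p : ℕ => p.Prime ∧
      (p : ZMod u) = ((γ : ℤ) : ZMod u))).card : ℝ) ≤
      (((Ico n₁ n₂).filter (fun n => big N (u * n + γ))).card : ℝ) := by exact_mod_cast hcard
  set K : ℝ := (((Ico n₁ n₂).filter (fun n => big N (u * n + γ))).card : ℝ) with hK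
  have hXr : ((4 * u * N : ℕ) : ℝ) = 4 * u * N := by push_cast; ring
  have hX1 : (1 : ℝ) ≤ 4 * u * N := by
    have : (1 : ℝ) ≤ u := by exact_mod_cast hu
    nlinarith
  have hlogX : Real.log ((4 * u * N : ℕ) : ℝ) ≤ (1 + s / 4) * Real.log N := by
    rw [hXr, Real.log_mul (by positivity) (by positivity)]
    rw [div_le_iff₀ hs] at hl1
    linarith
  have hlogX0 : 0 ≤ Real.log ((4 * u * N : ℕ) : ℝ) := Real.log_nonneg (by rw [hXr]; exact hX1)
  have h3 : Real.log ((4 * u * N : ℕ) : ℝ) * (((Ioc (max x₁ r) x₂).filter (fun p : ℕ => p.Prime ∧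
      (p : ZMod u) = ((γ : ℤ) : ZMod u))).card : ℝ) ≤ (1 + s / 4) * Real.log N * K :=
    mul_le_mul hlogX hcard' (Nat.cast_nonneg _) (hlogX0.trans hlogX)
  have h4 : (x₂ : ℝ) - (max x₁ r : ℕ) ≥ u * M - s / 4 * (u * M) := by
    have h5 : ((max x₁ r : ℕ) : ℝ) ≤ x₁ + r := by
      rw [Nat.cast_max]
      exact max_le (by linarith [(Nat.cast_nonneg r : (0 : ℝ) ≤ r)])
        (by linarith [(Nat.cast_nonneg x₁ : (0 : ℝ) ≤ x₁)])
    linarith
  have h5 : s * c / (16 * u.totient) * ((4 * u * N : ℕ) : ℝ) ≤ s / 4 * (u * M / u.totient) := by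
    rw [hXr]
    have h6 : s * c / (16 * (u.totient : ℝ)) * (4 * u * N) = s / 4 * (u * (c * N) / u.totient) := by
      field_simp
      ring
    rw [h6]
    gcongr
  have h6 : (1 - s / 4) * (u * M / u.totient) ≤ ((x₂ : ℝ) - (max x₁ r : ℕ)) / u.totient := by
    have : (1 - s / 4) * (u * M / u.totient) = (u * M - s / 4 * (u * M)) / u.totient := by ring
    rw [this]
    gcongr
  have h7 : (1 - s / 2) * (u * M / u.totient) ≤ (1 + s / 4) * Real.log N * K := by
    linarith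
  have hQ : 0 < u * M / u.totient := by positivity
  have hl0 : 0 < Real.log N := by linarith
  have h8 : (1 - s) * (1 + s / 4) ≤ 1 - s / 2 := by nlinarith
  have h9 : (1 + s / 4) * ((1 - s) * (u * M / u.totient)) ≤ (1 + s / 4) * (Real.log N * K) := by
    have h10 : (1 - s) * (1 + s / 4) * (u * M / u.totient) ≤ (1 - s / 2) * (u * M / u.totient) :=
      mul_le_mul_of_nonneg_right h8 hQ.le
    linarith
  have h10 : (1 - s) * (u * M / u.totient) ≤ Real.log N * K :=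
    le_of_mul_le_mul_left h9 (by positivity)
  have h11 : (1 - s) * ((u : ℝ) / u.totient * M / Real.log N) =
      ((1 - s) * (u * M / u.totient)) / Real.log N := by ring
  rw [h11, div_le_iff₀ hl0]
  linarith

end Q157.LG
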