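import Pool.Agent.Erdos456.Sieve

/-! Upper bound for the number of Goldbach representations. -/

set_option autoImplicit false

namespace Q157.LG

open Finset Pool.Agent.Erdos456 Pool.Agent.Erdos456.SieveAux

theorem gold_le_sifted {m N R M a : ℕ} (hM : 2 ∣ M) (hNm : N ≤ m) (ha : 0 < a)
    (hmod : ∀ p : ℕ, p.Prime → p ≤ R → p ∣ a + 1) :
    (((Icc 1 N).filter (fun n => n.Prime ∧ (m - n).Prime)).card : ℝ)
      ≤ 2 * R + 1 + (sv 1 0 a m N R M hM).siftedSum := by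
  classical
  rw [siftedSum_eq hM one_pos ha]
  have h1 : (Icc 1 N).filter (fun n => n.Prime ∧ (m - n).Prime)
      ⊆ (Icc 1 R ∪ (Icc (m - R) m)) ∪
        (Icc 1 N).filter (fun n => Nat.Coprime (PR R M) (ff 1 0 a m n)) := by
    intro n hn
    rw [mem_filter, mem_Icc] at hn
    rw [mem_union, mem_union, mem_Icc, mem_Icc, mem_filter, mem_Icc]
    obtain ⟨⟨hn1, hn2⟩, hp1, hp2⟩ := hn
    by_cases hnR : n ≤ R
    · left; left; exact ⟨hn1, hnR⟩
    · by_cases hmR : m - n ≤ R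
      · left; right; omega
      right
      refine ⟨⟨hn1, hn2⟩, ?_⟩
      rw [Nat.coprime_iff_gcd_eq_one]
      by_contra h
      obtain ⟨p, hp, hpd⟩ := Nat.exists_prime_and_dvd h
      have h2 : p ∣ PR R M := hpd.trans (Nat.gcd_dvd_left _ _)
      have h3 : p ∣ ff 1 0 a m n := hpd.trans (Nat.gcd_dvd_right _ _)
      have hpR := ((prime_dvd_PR hp).1 h2).1
      unfold ff at h3
      rcases (Nat.Prime.dvd_mul hp).1 h3 with h4 | h4
      · rw [one_mul, add_zero] at h4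
        have h5 := (Nat.prime_dvd_prime_iff_eq hp hp1).1 h4
        omega
      · have h6 : a * n + m = (a + 1) * n + (m - n) := by
          have : n ≤ m := hn2.trans hNm
          zify [this]
          ring
        rw [h6] at h4
        have h7 : p ∣ (a + 1) * n := (hmod p hp hpR).mul_right n
        have h8 : p ∣ m - n := (Nat.dvd_add_right h7).1 h4
        have h5 := (Nat.prime_dvd_prime_iff_eq hp hp2).1 h8
        omega
  have h2 := Finset.card_le_card h1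
  have h3 := h2.trans ((Finset.card_union_le _ _).trans
    (Nat.add_le_add_right (Finset.card_union_le _ _) _))
  rw [Nat.card_Icc, Nat.card_Icc] at h3
  have h4 : (((Icc 1 N).filter (fun n => n.Prime ∧ (m - n).Prime)).card : ℕ) ≤
      2 * R + 1 + ((Icc 1 N).filter (fun n => Nat.Coprime (PR R M) (ff 1 0 a m n))).card := by
    omega
  exact_mod_cast h4

theorem gold_up : ∃ C : ℝ, 0 < C ∧ ∀ m : ℕ, 2 ≤ m →
    (((Finset.Icc 1 m).filter (fun n => n.Prime ∧ (m - n).Prime)).card : ℝ) ≤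
      C * ((m : ℝ) / (Nat.totient m : ℝ)) ^ 2 * m / (Real.log m) ^ 2 := by
  refine ⟨4 * 8512, by norm_num, ?_⟩
  intro m hN
  set N := m with hNm
  have hNR : (2 : ℝ) ≤ N := by exact_mod_cast hN
  have hN0 : (0 : ℝ) < N := by linarith
  have hlog : 0 < Real.log N := Real.log_pos (by linarith)
  set X := ⌊(N : ℝ) ^ ((1 : ℝ) / 16)⌋₊ with hX
  have hX1 : 1 ≤ X := by
    rw [hX, Nat.one_le_floor_iff]
    exact Real.one_le_rpow (by linarith) (by norm_num)
  have hXle : (X : ℝ) ≤ (N : ℝ) ^ ((1 : ℝ) / 16) := Nat.floor_le (by positivity)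
  have hXlt : (N : ℝ) ^ ((1 : ℝ) / 16) < X + 1 := Nat.lt_floor_add_one _
  have hlogX : Real.log N / 16 ≤ Real.log (X + 1) := by
    have h1 := Real.log_le_log (by positivity) hXlt.le
    rw [Real.log_rpow hN0] at h1
    linarith
  set R := X ^ 2 with hR
  have hR1 : 1 ≤ R := Nat.one_le_pow _ _ hX1
  -- the auxiliary prime
  obtain ⟨a, hagt, hap, hamod⟩ : ∃ a : ℕ, N < a ∧ a.Prime ∧ primorial R ∣ a + 1 := by
    have hq : NeZero (primorial R) := ⟨(primorial_pos R).ne'⟩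
    obtain ⟨p, hp1, hp2, hp3⟩ := Nat.forall_exists_prime_gt_and_eq_mod
      (q := primorial R) (a := -1) (isUnit_one.neg) N
    refine ⟨p, hp1, hp2, ?_⟩
    rw [← ZMod.natCast_eq_zero_iff]
    push_cast
    rw [hp3]
    ring
  have hmod : ∀ p : ℕ, p.Prime → p ≤ R → p ∣ a + 1 := by
    intro p hp hpR
    refine dvd_trans ?_ hamod
    exact hp.dvd_primorial_iff.2 hpR
  set D := DD 1 0 a N with hD
  have hDv : D = a * N := by
    rw [hD]
    unfold DD
    simp
  have hD0 : 0 < D := by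
    rw [hDv]
    exact Nat.mul_pos hap.pos (by omega)
  set M := 2 * D with hM
  have hM2 : 2 ∣ M := dvd_mul_right _ _
  have hDM : D ∣ M := dvd_mul_left _ _
  have hM0 : M ≠ 0 := by omega
  set s := sv 1 0 a N N R M hM2 with hs
  -- main Selberg bound
  have hsel := selberg_bound (s := s) R hR1 (A := R) (B := (R : ℝ) ^ 2) (by positivity) (by positivity)
    (by
      intro d hd hdR
      refine (g_div_nu_le hM2 (Nat.dvd_of_mem_divisors hd)).trans ?_
      exact_mod_cast hdR)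
    (by
      intro d hd hdR
      refine (rem_le hM2 one_pos hap.pos hDM (Nat.dvd_of_mem_divisors hd)).trans ?_
      exact_mod_cast hdR)
  have hcard := gold_le_sifted (m := N) (N := N) (R := R) (a := a) hM2 le_rfl hap.pos hmod
  -- lower bound for J
  have hJ1 := JJ_lower (a₁ := 1) (b₁ := 0) (a₂ := a) (b₂ := N) (N := N) (X := X) hM2
  have hU := U_lower X M hM0
  have hUs := U_sq X M
  have hJpos : 0 < JJ s R := JJ_pos R hR1
  have htot : (0 : ℝ) < Nat.totient D := by exact_mod_cast Nat.totient_pos.2 hD0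
  have htotM : (0 : ℝ) < Nat.totient M := by exact_mod_cast Nat.totient_pos.2 (Nat.pos_of_ne_zero hM0)
  have hDr : (0 : ℝ) < D := by exact_mod_cast hD0
  set G := (D : ℝ) / (Nat.totient D : ℝ) with hG
  have hG1 : 1 ≤ G := by
    rw [hG, one_le_div htot]
    exact_mod_cast Nat.totient_le D
  have hMG : (M : ℝ) / (Nat.totient M : ℝ) ≤ 2 * G := by
    rw [hG, hM, ← mul_div_assoc]
    push_cast
    apply div_le_div_of_nonneg_left (by positivity) htot
    have : Nat.totient D ≤ Nat.totient (2 * D) :=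
      Nat.le_of_dvd (Nat.totient_pos.2 (by omega)) (Nat.totient_dvd_of_dvd (dvd_mul_left _ _))
    exact_mod_cast this
  have hU0 : 0 ≤ U X M := Finset.sum_nonneg fun _ _ => by positivity
  have hU2 : Real.log N ≤ 64 * G * U X M := by
    have h1 : Real.log (X + 1) ≤ 2 * (2 * G) * U X M := by
      refine hU.trans ?_
      gcongr
    linarith
  have hJ2 : (Real.log N) ^ 2 ≤ 8192 * G ^ 2 * JJ s R := by
    calc (Real.log N) ^ 2 ≤ (64 * G * U X M) ^ 2 := by gcongr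
      _ = 4096 * G ^ 2 * (U X M) ^ 2 := by ring
      _ ≤ 4096 * G ^ 2 * (2 * JJ s R) := by
          gcongr
          refine hUs.trans ?_
          linarith
      _ = _ := by ring
  have hmain : s.totalMass / JJ s R ≤ 8192 * G ^ 2 * N / (Real.log N) ^ 2 := by
    show (N : ℝ) / JJ s R ≤ _
    rw [div_le_div_iff₀ hJpos (by positivity)]
    calc (N : ℝ) * (Real.log N) ^ 2 ≤ N * (8192 * G ^ 2 * JJ s R) := by gcongr
      _ = _ := by ring
  -- error terms
  have hlog8 : (Real.log N) ^ 2 ≤ 64 * (N : ℝ) ^ ((1 : ℝ) / 4) := by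
    have h1 : Real.log N ≤ (N : ℝ) ^ ((1 : ℝ) / 8) / (1 / 8) :=
      Real.log_le_rpow_div hN0.le (by norm_num)
    calc (Real.log N) ^ 2 ≤ ((N : ℝ) ^ ((1 : ℝ) / 8) / (1 / 8)) ^ 2 := by gcongr
      _ = 64 * ((N : ℝ) ^ ((1 : ℝ) / 8)) ^ 2 := by ring
      _ = 64 * (N : ℝ) ^ ((1 : ℝ) / 4) := by
          rw [← Real.rpow_natCast, ← Real.rpow_mul hN0.le]; norm_num
  have hX12 : (X : ℝ) ^ 12 ≤ (N : ℝ) ^ ((3 : ℝ) / 4) := by
    calc (X : ℝ) ^ 12 ≤ ((N : ℝ) ^ ((1 : ℝ) / 16)) ^ 12 := by gcongr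
      _ = (N : ℝ) ^ ((3 : ℝ) / 4) := by
          rw [← Real.rpow_natCast, ← Real.rpow_mul hN0.le]; norm_num
  have hX1r : (1 : ℝ) ≤ X := by exact_mod_cast hX1
  have herr : (N : ℝ) ^ ((3 : ℝ) / 4) ≤ 64 * G ^ 2 * N / (Real.log N) ^ 2 := by
    rw [le_div_iff₀ (by positivity)]
    calc (N : ℝ) ^ ((3 : ℝ) / 4) * (Real.log N) ^ 2
        ≤ (N : ℝ) ^ ((3 : ℝ) / 4) * (64 * (N : ℝ) ^ ((1 : ℝ) / 4)) := by gcongr
      _ = 64 * ((N : ℝ) ^ ((3 : ℝ) / 4) * (N : ℝ) ^ ((1 : ℝ) / 4)) := by ring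
      _ = 64 * N := by
          rw [← Real.rpow_add hN0]; norm_num
      _ ≤ 64 * G ^ 2 * N := by
          have : 1 ≤ G ^ 2 := one_le_pow₀ hG1
          nlinarith
  have hRr : (R : ℝ) = (X : ℝ) ^ 2 := by rw [hR]; push_cast; ring
  have he1 : (R : ℝ) ≤ (N : ℝ) ^ ((3 : ℝ) / 4) := by
    rw [hRr]
    refine le_trans ?_ hX12
    exact pow_le_pow_right₀ hX1r (by norm_num)
  have he0 : (1 : ℝ) ≤ (N : ℝ) ^ ((3 : ℝ) / 4) := Real.one_le_rpow (by linarith) (by norm_num)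
  have he2 : (R : ℝ) ^ 2 * ((R : ℝ) * R) ^ 2 ≤ (N : ℝ) ^ ((3 : ℝ) / 4) := by
    rw [hRr]
    calc ((X : ℝ) ^ 2) ^ 2 * ((X : ℝ) ^ 2 * (X : ℝ) ^ 2) ^ 2 = (X : ℝ) ^ 12 := by ring
      _ ≤ _ := hX12
  -- the factor of the auxiliary prime
  have hGm : G ≤ 2 * ((N : ℝ) / (Nat.totient N : ℝ)) := by
    have hcop : Nat.Coprime a N := (Nat.Prime.coprime_iff_not_dvd hap).2 fun h => by
      have := Nat.le_of_dvd (by omega) h
      omega
    rw [hG, hDv, Nat.totient_mul hcop, Nat.totient_prime hap]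
    have ha2 : (2 : ℝ) ≤ a := by exact_mod_cast hap.two_le
    have hφ : (0 : ℝ) < Nat.totient N := by exact_mod_cast Nat.totient_pos.2 (by omega)
    push_cast [Nat.cast_sub hap.one_lt.le]
    rw [mul_div_mul_comm]
    gcongr
    rw [div_le_iff₀ (by linarith)]
    linarith
  have hGsq : G ^ 2 ≤ 4 * ((N : ℝ) / (Nat.totient N : ℝ)) ^ 2 := by
    calc G ^ 2 ≤ (2 * ((N : ℝ) / (Nat.totient N : ℝ))) ^ 2 := by gcongr
      _ = _ := by ring
  calc _ ≤ 2 * (R : ℝ) + 1 + s.siftedSum := hcard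
    _ ≤ 3 * (N : ℝ) ^ ((3 : ℝ) / 4) +
        (8192 * G ^ 2 * N / (Real.log N) ^ 2 + (N : ℝ) ^ ((3 : ℝ) / 4)) := by
        linarith
    _ ≤ 8512 * G ^ 2 * N / (Real.log N) ^ 2 := by
        have e : 8512 * G ^ 2 * N / (Real.log N) ^ 2 =
          5 * (64 * G ^ 2 * N / (Real.log N) ^ 2) + 8192 * G ^ 2 * N / (Real.log N) ^ 2 := by ring
        rw [e]
        have : 0 ≤ 64 * G ^ 2 * N / (Real.log N) ^ 2 := by positivity
        linarith
    _ ≤ 8512 * (4 * ((N : ℝ) / (Nat.totient N : ℝ)) ^ 2) * N / (Real.log N) ^ 2 := by gcongr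
    _ = _ := by ring

end Q157.LG
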