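import Pool.Agent.Q157.LG.Win
import Pool.Agent.Q157.LG.GoldUp

/-! Double counting over windows. -/

set_option autoImplicit false

namespace Q157.LG

open Finset Filter

/-- the number of primes `p ≤ x` for which `p + h` is prime -/
def pairs (h x : ℕ) : ℕ := ((Icc 1 x).filter (fun p => p.Prime ∧ (p + h).Prime)).card

/-- the number of primes `p ≤ m` for which `m - p` is prime -/
def r2 (m : ℕ) : ℕ := ((Icc 1 m).filter (fun p => p.Prime ∧ (m - p).Prime)).card

theorem dense (I : Finset ℕ) (g F : ℕ → ℝ) (K₁ K₂ δ Y L : ℝ) (hK₁ : 0 < K₁) (hK₂ : 0 < K₂)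
    (hδ : 0 < δ) (hY : 0 < Y) (hL : 0 < L) (hg : ∀ m ∈ I, 1 ≤ g m)
    (hF : ∀ m ∈ I, F m ≤ K₁ * g m ^ 2 * Y) (hg4 : ∑ m ∈ I, g m ^ 4 ≤ K₂ * L)
    (hsum : δ * Y * L ≤ ∑ m ∈ I, F m) :
    δ ^ 2 / (4 * K₁ ^ 2 * K₂) * L ≤
      ((I.filter (fun m => δ / (2 * K₂) * (g m * Y) ≤ F m)).card : ℝ) := by
  classical
  set J := I.filter (fun m => δ / (2 * K₂) * (g m * Y) ≤ F m) with hJ
  have h1 : ∑ m ∈ I.filter (fun m => ¬ δ / (2 * K₂) * (g m * Y) ≤ F m), F m ≤ δ / 2 * Y * L := by
    have h2 : ∀ m ∈ I.filter (fun m => ¬ δ / (2 * K₂) * (g m * Y) ≤ F m),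
        F m ≤ δ / (2 * K₂) * Y * g m ^ 4 := by
      intro m hm
      rw [mem_filter] at hm
      have h3 := hg m hm.1
      have h4 : g m ≤ g m ^ 4 := le_self_pow₀ h3 (by norm_num)
      have h5 := (not_le.1 hm.2).le
      calc F m ≤ δ / (2 * K₂) * (g m * Y) := h5
        _ = δ / (2 * K₂) * Y * g m := by ring
        _ ≤ _ := by gcongr
    refine (sum_le_sum h2).trans ?_
    rw [← mul_sum]
    have h3 : ∑ m ∈ I.filter (fun m => ¬ δ / (2 * K₂) * (g m * Y) ≤ F m), g m ^ 4 ≤ K₂ * L := by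
      refine le_trans ?_ hg4
      apply sum_le_sum_of_subset_of_nonneg (filter_subset _ _)
      intro m hm _
      have := hg m hm
      positivity
    calc δ / (2 * K₂) * Y * _ ≤ δ / (2 * K₂) * Y * (K₂ * L) := by gcongr
      _ = _ := by field_simp
  have h2 : δ / 2 * Y * L ≤ ∑ m ∈ J, F m := by
    have h3 := sum_filter_add_sum_filter_not I (fun m => δ / (2 * K₂) * (g m * Y) ≤ F m) F
    have h4 : δ / 2 * Y * L + δ / 2 * Y * L = δ * Y * L := by ring
    linarith
  have h3 : ∑ m ∈ J, F m ≤ K₁ * Y * ∑ m ∈ J, g m ^ 2 := by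
    rw [mul_sum]
    apply sum_le_sum
    intro m hm
    have := hF m (mem_filter.1 hm).1
    linarith
  have h4 : δ / 2 * L ≤ K₁ * ∑ m ∈ J, g m ^ 2 := by
    have h5 : (δ / 2 * L) * Y ≤ (K₁ * ∑ m ∈ J, g m ^ 2) * Y := by
      linarith
    exact le_of_mul_le_mul_right h5 hY
  have h5 : (∑ m ∈ J, g m ^ 2) ^ 2 ≤ (J.card : ℝ) * (K₂ * L) := by
    have h6 := sum_mul_sq_le_sq_mul_sq J (fun _ => (1 : ℝ)) (fun m => g m ^ 2)
    simp only [one_mul, one_pow, sum_const, nsmul_eq_mul, mul_one] at h6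
    refine h6.trans ?_
    gcongr
    calc ∑ m ∈ J, (g m ^ 2) ^ 2 = ∑ m ∈ J, g m ^ 4 := by
          apply sum_congr rfl; intro m _; ring
      _ ≤ ∑ m ∈ I, g m ^ 4 := by
          apply sum_le_sum_of_subset_of_nonneg (filter_subset _ _)
          intro m hm _
          have := hg m hm
          positivity
      _ ≤ K₂ * L := hg4
  have h6 : (δ / 2 * L) ^ 2 ≤ K₁ ^ 2 * ((J.card : ℝ) * (K₂ * L)) := by
    calc (δ / 2 * L) ^ 2 ≤ (K₁ * ∑ m ∈ J, g m ^ 2) ^ 2 := by
          apply pow_le_pow_left₀ (by positivity) h4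
      _ = K₁ ^ 2 * (∑ m ∈ J, g m ^ 2) ^ 2 := by ring
      _ ≤ _ := by gcongr
  rw [div_mul_eq_mul_div, div_le_iff₀ (by positivity)]
  have h7 : (δ ^ 2 * L) * L ≤ ((J.card : ℝ) * (4 * K₁ ^ 2 * K₂)) * L := by
    nlinarith
  exact le_of_mul_le_mul_right h7 hL

theorem diff_count (u β β' x y : ℤ) (R D X : ℕ) (hu : u ≠ 0) (hD : β' - β = D) (hDR : R < D)
    (hval : ∀ n : ℤ, x ≤ n → n ≤ y → u * n + β + R ≤ X) (S : Finset ℤ) (hS : S ⊆ Icc x y)
    (h1 : ∀ n ∈ S, ∃ s : ℕ, s ≤ R ∧ ∃ p : ℕ, p.Prime ∧ (p : ℤ) = u * n + β + s)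
    (h2 : ∀ n ∈ S, ∃ s : ℕ, s ≤ R ∧ ∃ p : ℕ, p.Prime ∧ (p : ℤ) = u * n + β' + s) :
    S.card ≤ (R + 1) * ∑ h ∈ Icc (D - R) (D + R), pairs h X := by
  classical
  set F : ℕ → ℕ → Finset ℤ := fun s t => S.filter (fun n =>
    ((u * n + β + s).toNat).Prime ∧ ((u * n + β' + t).toNat).Prime) with hF
  have hcov : S ⊆ (range (R + 1)).biUnion fun s => (range (R + 1)).biUnion fun t => F s t := by
    intro n hn
    obtain ⟨s, hs, p, hp, hpe⟩ := h1 n hn
    obtain ⟨t, ht, q, hq, hqe⟩ := h2 n hn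
    simp only [mem_biUnion, mem_range, hF, mem_filter]
    refine ⟨s, by omega, t, by omega, hn, ?_, ?_⟩
    · rw [← hpe]; simpa using hp
    · rw [← hqe]; simpa using hq
  have hF1 : ∀ s ∈ range (R + 1), ∀ t ∈ range (R + 1), (F s t).card ≤ pairs (D + t - s) X := by
    intro s hs t ht
    rw [mem_range] at hs ht
    unfold pairs
    apply card_le_card_of_injOn (fun n => (u * n + β + s).toNat)
    · intro n hn
      rw [mem_coe, hF] at hn
      simp only [mem_filter] at hn
      obtain ⟨hnS, hp, hq⟩ := hn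
      have hnI := mem_Icc.1 (hS hnS)
      show (u * n + β + s).toNat ∈ _
      rw [mem_coe, mem_filter, mem_Icc]
      have h3 := hval n hnI.1 hnI.2
      refine ⟨⟨hp.one_lt.le, ?_⟩, hp, ?_⟩
      · have h4 := hp.pos
        omega
      · have h4 := hp.pos
        have h5 : (u * n + β + s).toNat + (D + t - s) = (u * n + β' + t).toNat := by
          have h6 : u * n + β' + t = (u * n + β + s) + ((D + t - s : ℕ) : ℤ) := by
            have h7 : ((D + t - s : ℕ) : ℤ) = D + t - s := by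
              rw [Nat.cast_sub (by omega)]
              push_cast
              ring
            rw [h7, ← hD]
            ring
          omega
        rw [h5]
        exact hq
    · intro n hn m hm hnm
      rw [mem_coe, hF] at hn hm
      simp only [mem_filter] at hn hm
      simp only at hnm
      have h4 := hn.2.1.pos
      have h5 := hm.2.1.pos
      have h6 : u * n = u * m := by omega
      exact mul_left_cancel₀ hu h6
  calc S.card ≤ ∑ s ∈ range (R + 1), ∑ t ∈ range (R + 1), (F s t).card := by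
        refine (card_le_card hcov).trans (card_biUnion_le.trans (sum_le_sum fun s _ => ?_))
        exact card_biUnion_le
    _ ≤ ∑ s ∈ range (R + 1), ∑ t ∈ range (R + 1), pairs (D + t - s) X :=
        sum_le_sum fun s hs => sum_le_sum fun t ht => hF1 s hs t ht
    _ ≤ ∑ _s ∈ range (R + 1), ∑ h ∈ Icc (D - R) (D + R), pairs h X := by
        apply sum_le_sum
        intro s hs
        rw [mem_range] at hs
        have hinj : Set.InjOn (fun t => D + t - s) (range (R + 1) : Finset ℕ) := by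
          intro t ht t' ht' h
          simp only at h
          omega
        rw [← sum_image (f := fun h => pairs h X) hinj]
        apply sum_le_sum_of_subset
        intro h hh
        rw [mem_image] at hh
        obtain ⟨t, ht, rfl⟩ := hh
        rw [mem_range] at ht
        rw [mem_Icc]
        omega
    _ = _ := by rw [sum_const, card_range, smul_eq_mul]

theorem sum_count (α β : ℤ) (R E : ℕ) (hE : α + β = E) (S : Finset ℤ)
    (h1 : ∀ n ∈ S, ∃ s : ℕ, s ≤ R ∧ ∃ p : ℕ, p.Prime ∧ (p : ℤ) = 1 * n + β + s)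
    (h2 : ∀ n ∈ S, ∃ s : ℕ, s ≤ R ∧ ∃ p : ℕ, p.Prime ∧ (p : ℤ) = -1 * n + α + s) :
    S.card ≤ (R + 1) * ∑ m ∈ Icc E (E + 2 * R), r2 m := by
  classical
  set F : ℕ → ℕ → Finset ℤ := fun s t => S.filter (fun n =>
    ((1 * n + β + s).toNat).Prime ∧ ((-1 * n + α + t).toNat).Prime) with hF
  have hcov : S ⊆ (range (R + 1)).biUnion fun s => (range (R + 1)).biUnion fun t => F s t := by
    intro n hn
    obtain ⟨s, hs, p, hp, hpe⟩ := h1 n hn
    obtain ⟨t, ht, q, hq, hqe⟩ := h2 n hn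
    simp only [mem_biUnion, mem_range, hF, mem_filter]
    refine ⟨s, by omega, t, by omega, hn, ?_, ?_⟩
    · rw [← hpe]; simpa using hp
    · rw [← hqe]; simpa using hq
  have hF1 : ∀ s ∈ range (R + 1), ∀ t ∈ range (R + 1), (F s t).card ≤ r2 (E + t + s) := by
    intro s hs t ht
    rw [mem_range] at hs ht
    unfold r2
    apply card_le_card_of_injOn (fun n => (1 * n + β + s).toNat)
    · intro n hn
      rw [mem_coe, hF] at hn
      simp only [mem_filter] at hn
      obtain ⟨hnS, hp, hq⟩ := hn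
      show (1 * n + β + s).toNat ∈ _
      rw [mem_coe, mem_filter, mem_Icc]
      have h4 := hp.pos
      have h5 := hq.pos
      have h6 : (1 * n + β + s).toNat + (-1 * n + α + t).toNat = E + t + s := by omega
      refine ⟨⟨hp.one_lt.le, by omega⟩, hp, ?_⟩
      have h7 : E + t + s - (1 * n + β + s).toNat = (-1 * n + α + t).toNat := by omega
      rw [h7]
      exact hq
    · intro n hn m hm hnm
      rw [mem_coe, hF] at hn hm
      simp only [mem_filter] at hn hm
      simp only at hnm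
      have h4 := hn.2.1.pos
      have h5 := hm.2.1.pos
      omega
  calc S.card ≤ ∑ s ∈ range (R + 1), ∑ t ∈ range (R + 1), (F s t).card := by
        refine (card_le_card hcov).trans (card_biUnion_le.trans (sum_le_sum fun s _ => ?_))
        exact card_biUnion_le
    _ ≤ ∑ s ∈ range (R + 1), ∑ t ∈ range (R + 1), r2 (E + t + s) :=
        sum_le_sum fun s hs => sum_le_sum fun t ht => hF1 s hs t ht
    _ ≤ ∑ _s ∈ range (R + 1), ∑ m ∈ Icc E (E + 2 * R), r2 m := by
        apply sum_le_sum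
        intro s hs
        rw [mem_range] at hs
        have hinj : Set.InjOn (fun t => E + t + s) (range (R + 1) : Finset ℕ) := by
          intro t ht t' ht' h
          simp only at h
          omega
        rw [← sum_image (f := fun h => r2 h) hinj]
        apply sum_le_sum_of_subset
        intro h hh
        rw [mem_image] at hh
        obtain ⟨t, ht, rfl⟩ := hh
        rw [mem_range] at ht
        rw [mem_Icc]
        omega
    _ = _ := by rw [sum_const, card_range, smul_eq_mul]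

theorem pairs_up : ∃ C : ℝ, 0 < C ∧ ∀ h X : ℕ, 1 ≤ h → 2 ≤ X →
    (pairs h X : ℝ) ≤ C * ((h : ℝ) / (Nat.totient h : ℝ)) ^ 2 * (X / (Real.log X) ^ 2) := by
  obtain ⟨C, hC, h⟩ := Pool.Agent.Erdos456.sieve_two
  refine ⟨C, hC, fun d X hd hX => ?_⟩
  have h1 := h 1 0 1 d X one_pos one_pos (by simp) (by simp) (by omega) hX
  unfold pairs
  have e1 : (Icc 1 X).filter (fun p => p.Prime ∧ (p + d).Prime) =
      (Icc 1 X).filter (fun n => (1 * n + 0).Prime ∧ (1 * n + d).Prime) := by
    apply filter_congr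
    intro n _
    rw [one_mul, add_zero]
  have e2 : (1 * 1 * (((1 * d : ℕ) : ℤ) - ((1 * 0 : ℕ) : ℤ)).natAbs : ℕ) = d := by
    simp
  rw [e2] at h1
  rw [e1]
  refine h1.trans (le_of_eq ?_)
  ring

end Q157.LG
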