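import Mathlib

/-!
# The average of the singular series over pairs of shifts
-/

set_option autoImplicit false

namespace Q157.LG

open Finset

theorem dvd_prod_iff (T : Finset ℕ) (hT : ∀ p ∈ T, p.Prime) (d : ℤ) :
    ((∏ p ∈ T, p : ℕ) : ℤ) ∣ d ↔ ∀ p ∈ T, (p : ℤ) ∣ d := by
  constructor
  · intro h p hp
    exact dvd_trans (by exact_mod_cast dvd_prod_of_mem (fun p => p) hp) h
  · intro h
    rw [← Int.dvd_natAbs, Int.natCast_dvd_natCast]
    apply Finset.prod_primes_dvd _ (fun p hp => (hT p hp).prime)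
    intro p hp
    have := h p hp
    rwa [← Int.dvd_natAbs, Int.natCast_dvd_natCast] at this

open Classical in
/-- expansion of the product -/
theorem prod_expand (P : Finset ℕ) (hP : ∀ p ∈ P, p.Prime) (g : ℕ → ℝ) (d : ℤ) :
    ∏ p ∈ P, (if (p : ℤ) ∣ d then 1 + g p else 1) =
      ∑ T ∈ P.powerset, (if ((∏ p ∈ T, p : ℕ) : ℤ) ∣ d then ∏ p ∈ T, g p else 0) := by
  have h1 : ∀ p ∈ P, (if (p : ℤ) ∣ d then 1 + g p else 1) = 1 + (if (p : ℤ) ∣ d then g p else 0) := by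
    intro p _
    split_ifs <;> ring
  rw [prod_congr rfl h1, Finset.prod_one_add]
  apply sum_congr rfl
  intro T hT
  have hTP : ∀ p ∈ T, p.Prime := fun p hp => hP p (mem_powerset.1 hT hp)
  by_cases h : ∀ p ∈ T, (p : ℤ) ∣ d
  · rw [if_pos ((dvd_prod_iff T hTP d).2 h)]
    exact prod_congr rfl fun p hp => if_pos (h p hp)
  · rw [if_neg (fun h' => h ((dvd_prod_iff T hTP d).1 h'))]
    push Not at h
    obtain ⟨p, hp, hpd⟩ := h
    exact prod_eq_zero hp (if_neg hpd)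

open Classical in
/-- pairs of different numbers in a class -/
theorem card_pairs (H e : ℕ) (he : 1 ≤ e) :
    ((((range H ×ˢ range H).filter (fun x : ℕ × ℕ => x.1 ≠ x.2 ∧ (e : ℤ) ∣ (x.1 : ℤ) - x.2)).card : ℕ) : ℝ) ≤
      2 * (H : ℝ) ^ 2 / e := by
  have h1 : (range H ×ˢ range H).filter (fun x : ℕ × ℕ => x.1 ≠ x.2 ∧ (e : ℤ) ∣ (x.1 : ℤ) - x.2) ⊆
      ((range H ×ˢ Icc 1 (H / e)).image (fun x : ℕ × ℕ => (x.1, x.1 + e * x.2))) ∪
      ((range H ×ˢ Icc 1 (H / e)).image (fun x : ℕ × ℕ => (x.1 + e * x.2, x.1))) := by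
    rintro ⟨i, j⟩ hx
    obtain ⟨hx1, hne, hd⟩ := mem_filter.1 hx
    have hi := mem_range.1 (mem_product.1 hx1).1
    have hj := mem_range.1 (mem_product.1 hx1).2
    simp only at hne hd hi hj
    obtain ⟨c, hc⟩ := hd
    rw [mem_union]
    have he' : (1 : ℤ) ≤ e := by exact_mod_cast he
    rcases lt_or_gt_of_ne hne with h | h
    · left
      have hc0 : c < 0 := by
        by_contra h0
        push Not at h0
        have : 0 ≤ (e : ℤ) * c := by positivity
        omega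
      obtain ⟨m, hm⟩ : ∃ m : ℕ, (m : ℤ) = -c := ⟨(-c).toNat, Int.toNat_of_nonneg (by omega)⟩
      have h2 : j = i + e * m := by
        have : (j : ℤ) = i + e * m := by rw [hm]; linarith
        exact_mod_cast this
      rw [mem_image]
      refine ⟨(i, m), ?_, by rw [h2]⟩
      rw [mem_product, mem_range, mem_Icc]
      refine ⟨hi, by show 1 ≤ m; omega, ?_⟩
      show m ≤ H / e
      rw [Nat.le_div_iff_mul_le he, mul_comm]
      omega
    · right
      have hc0 : 0 < c := by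
        by_contra h0
        push Not at h0
        have : (e : ℤ) * c ≤ 0 := by nlinarith
        omega
      obtain ⟨m, hm⟩ : ∃ m : ℕ, (m : ℤ) = c := ⟨c.toNat, Int.toNat_of_nonneg (by omega)⟩
      have h2 : i = j + e * m := by
        have : (i : ℤ) = j + e * m := by rw [hm]; linarith
        exact_mod_cast this
      rw [mem_image]
      refine ⟨(j, m), ?_, by rw [h2]⟩
      rw [mem_product, mem_range, mem_Icc]
      refine ⟨hj, by show 1 ≤ m; omega, ?_⟩
      show m ≤ H / e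
      rw [Nat.le_div_iff_mul_le he, mul_comm]
      omega
  have h2 : ((range H ×ˢ range H).filter (fun x : ℕ × ℕ => x.1 ≠ x.2 ∧
      (e : ℤ) ∣ (x.1 : ℤ) - x.2)).card ≤ H * (H / e) + H * (H / e) := by
    refine (card_le_card h1).trans ((card_union_le _ _).trans (Nat.add_le_add ?_ ?_)) <;>
    · refine card_image_le.trans ?_
      rw [card_product, card_range, Nat.card_Icc]
      simp
  have h3 : ((H / e : ℕ) : ℝ) ≤ (H : ℝ) / e := Nat.cast_div_le
  have h4 : (((range H ×ˢ range H).filter (fun x : ℕ × ℕ => x.1 ≠ x.2 ∧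
      (e : ℤ) ∣ (x.1 : ℤ) - x.2)).card : ℝ) ≤ H * ((H / e : ℕ) : ℝ) + H * ((H / e : ℕ) : ℝ) := by
    exact_mod_cast h2
  refine h4.trans ?_
  have h5 : (H : ℝ) * ((H / e : ℕ) : ℝ) ≤ H * ((H : ℝ) / e) :=
    mul_le_mul_of_nonneg_left h3 (Nat.cast_nonneg _)
  calc (H : ℝ) * ((H / e : ℕ) : ℝ) + H * ((H / e : ℕ) : ℝ) ≤ H * ((H : ℝ) / e) + H * ((H : ℝ) / e) := by
        linarith
    _ = 2 * (H : ℝ) ^ 2 / e := by ring

open Classical in
/-- the average of the singular series -/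
theorem sum_pairs (P : Finset ℕ) (hP : ∀ p ∈ P, p.Prime) (g : ℕ → ℝ) (hg : ∀ p ∈ P, 0 ≤ g p) (H : ℕ) :
    ∑ x ∈ (range H ×ˢ range H).filter (fun x : ℕ × ℕ => x.1 ≠ x.2),
      ∏ p ∈ P, (if (p : ℤ) ∣ (x.1 : ℤ) - x.2 then 1 + g p else 1) ≤
      (H : ℝ) ^ 2 * (1 + 2 * (∏ p ∈ P, (1 + g p / p) - 1)) := by
  simp_rw [prod_expand P hP g]
  rw [sum_comm]
  have hterm : ∀ T ∈ P.powerset, ∑ x ∈ (range H ×ˢ range H).filter (fun x : ℕ × ℕ => x.1 ≠ x.2),
      (if ((∏ p ∈ T, p : ℕ) : ℤ) ∣ (x.1 : ℤ) - x.2 then ∏ p ∈ T, g p else 0) ≤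
      (if T = ∅ then (H : ℝ) ^ 2 else 2 * (H : ℝ) ^ 2 * ∏ p ∈ T, (g p / p)) := by
    intro T hT
    have hTP := mem_powerset.1 hT
    have hgT : 0 ≤ ∏ p ∈ T, g p := prod_nonneg fun p hp => hg p (hTP hp)
    rw [← sum_filter, sum_const, nsmul_eq_mul, filter_filter]
    split_ifs with h0
    · subst h0
      have h0 : ∏ p ∈ (∅ : Finset ℕ), g p = 1 := prod_empty
      rw [h0, mul_one]
      have h1 : (((range H ×ˢ range H).filter (fun x : ℕ × ℕ => x.1 ≠ x.2 ∧
          ((∏ p ∈ (∅ : Finset ℕ), p : ℕ) : ℤ) ∣ (x.1 : ℤ) - x.2)).card : ℕ) ≤ H * H := by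
        refine (card_filter_le _ _).trans ?_
        rw [card_product, card_range]
      rw [pow_two]
      exact_mod_cast h1
    · have he : 1 ≤ ∏ p ∈ T, p := prod_pos fun p hp => (hP p (hTP hp)).pos
      have h1 := card_pairs H (∏ p ∈ T, p) he
      have h2 := mul_le_mul_of_nonneg_right h1 hgT
      refine h2.trans (le_of_eq ?_)
      rw [prod_div_distrib]
      push_cast
      ring
  refine (sum_le_sum hterm).trans ?_
  rw [← add_sum_erase _ _ (empty_mem_powerset P), if_pos rfl]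
  have h1 : ∑ T ∈ P.powerset.erase ∅, (if T = ∅ then (H : ℝ) ^ 2 else 2 * (H : ℝ) ^ 2 *
      ∏ p ∈ T, (g p / p)) = 2 * (H : ℝ) ^ 2 * ∑ T ∈ P.powerset.erase ∅, ∏ p ∈ T, (g p / p) := by
    rw [mul_sum]
    apply sum_congr rfl
    intro T hT
    rw [if_neg (ne_of_mem_erase hT)]
  have h2 : ∑ T ∈ P.powerset.erase ∅, ∏ p ∈ T, (g p / p) = ∏ p ∈ P, (1 + g p / p) - 1 := by
    rw [Finset.prod_one_add, ← add_sum_erase _ _ (empty_mem_powerset P), prod_empty]
    ring
  rw [h1, h2]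
  exact le_of_eq (by ring)

/-- tail of the product -/
theorem prod_tail (P : Finset ℕ) (w : ℕ) (hw : 1 ≤ w) (hP : ∀ p ∈ P, w < p) :
    ∏ p ∈ P, (1 + 1 / ((p : ℝ) - 1) / p) ≤ 1 + 2 / w := by
  have hwr : (1 : ℝ) ≤ w := by exact_mod_cast hw
  have h1 : ∏ p ∈ P, (1 + 1 / ((p : ℝ) - 1) / p) ≤ Real.exp (∑ p ∈ P, 1 / ((p : ℝ) - 1) / p) := by
    rw [Real.exp_sum]
    apply prod_le_prod
    · intro p hp
      have h2 : (w : ℝ) + 1 ≤ p := by exact_mod_cast hP p hp
      have h3 : 0 < (p : ℝ) - 1 := by linarith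
      have h4 : 0 < (p : ℝ) := by linarith
      positivity
    · intro p _
      have := Real.add_one_le_exp (1 / ((p : ℝ) - 1) / p)
      linarith
  have htel : ∀ n : ℕ, ∑ p ∈ Ioc w (w + n), 1 / ((p : ℝ) - 1) / p = 1 / w - 1 / ((w + n : ℕ) : ℝ) := by
    intro n
    induction n with
    | zero => simp
    | succ n ih =>
      have e1 : Ioc w (w + (n + 1)) = insert (w + n + 1) (Ioc w (w + n)) := by
        ext x
        simp only [mem_Ioc, mem_insert]
        omega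
      rw [e1, sum_insert (by simp), ih]
      have h5 : (0 : ℝ) < (w : ℝ) + n := by positivity
      have e2 : ((w + n + 1 : ℕ) : ℝ) - 1 = w + n := by push_cast; ring
      rw [e2]
      push_cast
      have h6 : (0 : ℝ) < (w : ℝ) + n + 1 := by positivity
      have e3 : (w : ℝ) + (n + 1) = w + n + 1 := by ring
      rw [e3]
      field_simp
      ring
  have h2 : ∑ p ∈ P, 1 / ((p : ℝ) - 1) / p ≤ 1 / w := by
    obtain ⟨n, hn⟩ : ∃ n, P ⊆ Ioc w (w + n) := by
      refine ⟨P.sup id, fun p hp => ?_⟩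
      rw [mem_Ioc]
      refine ⟨hP p hp, ?_⟩
      have : p ≤ P.sup id := le_sup (f := id) hp
      omega
    calc ∑ p ∈ P, 1 / ((p : ℝ) - 1) / p ≤ ∑ p ∈ Ioc w (w + n), 1 / ((p : ℝ) - 1) / p := by
          apply sum_le_sum_of_subset_of_nonneg hn
          intro p hp _
          have h3 : (w : ℝ) + 1 ≤ p := by exact_mod_cast (mem_Ioc.1 hp).1
          have h4 : 0 < (p : ℝ) - 1 := by linarith
          have h5 : 0 < (p : ℝ) := by linarith
          positivity
      _ = 1 / w - 1 / ((w + n : ℕ) : ℝ) := htel n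
      _ ≤ 1 / w := by
          have : (0 : ℝ) ≤ 1 / ((w + n : ℕ) : ℝ) := by positivity
          linarith
  refine h1.trans ((Real.exp_le_exp.2 h2).trans ?_)
  have h3 : (0 : ℝ) ≤ 1 / w := by positivity
  have h4 : (1 : ℝ) / w ≤ 1 := by
    rw [div_le_one (by linarith)]
    exact hwr
  have h5 := Real.exp_bound_div_one_sub_of_interval h3
  have h6 := Real.abs_exp_sub_one_le (x := 1 / (w : ℝ)) (by rw [abs_of_nonneg h3]; exact h4)
  rw [abs_of_nonneg h3] at h6
  have h7 := le_abs_self (Real.exp (1 / (w : ℝ)) - 1)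
  have h8 : (2 : ℝ) / w = 2 * (1 / w) := by ring
  rw [h8]
  linarith

end Q157.LG
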