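import Pool.Agent.Q157.LG.Var
import Pool.Agent.Q157.LG.Sing

/-! The variance of the majorant of the primes in a window. -/

set_option autoImplicit false

namespace Q157.LG

open Finset Filter Topology
open Pool.Agent.H442R2.KF (Wt)

theorem Wt_nonneg (X : ℕ) (n : ℤ) : 0 ≤ Wt X n := (Real.exp_pos _).le

theorem fc_shift (W : ℕ) (γ : ℤ) (i j : ℕ) (p : ℕ) (hp : p.Prime) (hW : ¬ (p : ℤ) ∣ (W : ℤ)) :
    fc ((γ + W * i) - (γ + W * j)) p =
      if (p : ℤ) ∣ (i : ℤ) - j then 1 + 1 / ((p : ℝ) - 1) else 1 := by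
  unfold fc
  have e : (γ + W * i) - (γ + W * j) = (W : ℤ) * ((i : ℤ) - j) := by ring
  rw [e]
  have h : (p : ℤ) ∣ (W : ℤ) * ((i : ℤ) - j) ↔ (p : ℤ) ∣ (i : ℤ) - j := by
    constructor
    · intro h
      exact ((Nat.prime_iff_prime_int.1 hp).dvd_or_dvd h).resolve_left hW
    · intro h
      exact Dvd.dvd.mul_left h _
  simp only [h]

theorem vari (N D W H : ℕ) (u γ : ℤ) (β : ℤ → ℝ) (κ Y C1 s : ℝ) (P : Finset ℕ)
    (hβ : ∀ m, 0 ≤ β m ∧ β m ≤ Y) (hP : ∀ p ∈ P, p.Prime ∧ D < p) (hD : 1 ≤ D)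
    (hDs : 4 ≤ s * D) (hWp : ∀ p ∈ P, ¬ (p : ℤ) ∣ (W : ℤ)) (hs : 0 < s)
    (hs1 : s ≤ 1) (hκ : 0 < κ) (hsW : Summable (fun n : ℤ => Wt (2 * N) n))
    (hW1 : ∑' n : ℤ, Wt (2 * N) n ≤ ((2 * N : ℕ) : ℝ) * (1 + s))
    (h1 : ∀ j < H, ((2 * N : ℕ) : ℝ) * κ * (1 - s) ≤
      ∑' n : ℤ, Wt (2 * N) n * β (u * n + (γ + W * (j : ℕ))))
    (hdg : ∀ j < H, ∑' n : ℤ, Wt (2 * N) n * β (u * n + (γ + W * (j : ℕ))) ^ 2 ≤
      C1 * (((4 * N : ℕ) : ℝ) * κ * (1 + s)))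
    (hpr : ∀ i < H, ∀ j < H, i ≠ j → ∑' n : ℤ, Wt (2 * N) n *
      (β (u * n + (γ + W * (i : ℕ))) * β (u * n + (γ + W * (j : ℕ)))) ≤
      ((2 * N : ℕ) : ℝ) * κ ^ 2 *
        ((1 + s) * ∏ p ∈ P, fc ((γ + W * (i : ℕ)) - (γ + W * (j : ℕ))) p + s))
    (hμ : 4 * C1 ≤ s * (H * κ)) (hC1 : 0 ≤ C1) :
    ∑' n : ℤ, Wt (2 * N) n * (∑ j ∈ range H, β (u * n + (γ + W * (j : ℕ))) - H * κ) ^ 2 ≤
      ((2 * N : ℕ) : ℝ) * (H * κ) ^ 2 * (8 * s) := by
  classical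
  set μ : ℝ := H * κ with hμd
  set T : ℝ := ((2 * N : ℕ) : ℝ) with hT
  have hT0 : 0 ≤ T := Nat.cast_nonneg _
  have hμ0 : 0 ≤ μ := by positivity
  have hY0 : 0 ≤ Y := (hβ 0).1.trans (hβ 0).2
  have hsb : ∀ (f : ℤ → ℝ) (Y' : ℝ), (∀ n, 0 ≤ f n ∧ f n ≤ Y') →
      Summable (fun n : ℤ => Wt (2 * N) n * f n) := by
    intro f Y' hf
    exact Summable.of_nonneg_of_le (fun n => mul_nonneg (Wt_nonneg _ n) (hf n).1)
      (fun n => mul_le_mul_of_nonneg_left (hf n).2 (Wt_nonneg _ n)) (hsW.mul_right Y')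
  have hs1' : ∀ j : ℕ, Summable (fun n : ℤ => Wt (2 * N) n * β (u * n + (γ + W * (j : ℕ)))) :=
    fun j => hsb _ Y fun n => hβ _
  have hs2 : ∀ x : ℕ × ℕ, Summable (fun n : ℤ => Wt (2 * N) n *
      (β (u * n + (γ + W * (x.1 : ℕ))) * β (u * n + (γ + W * (x.2 : ℕ))))) :=
    fun x => hsb _ (Y * Y) fun n => ⟨mul_nonneg (hβ _).1 (hβ _).1,
      mul_le_mul (hβ _).2 (hβ _).2 (hβ _).1 hY0⟩
  have hexp : ∀ n : ℤ, Wt (2 * N) n * (∑ j ∈ range H, β (u * n + (γ + W * (j : ℕ))) - μ) ^ 2 =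
      (∑ x ∈ range H ×ˢ range H, Wt (2 * N) n *
        (β (u * n + (γ + W * (x.1 : ℕ))) * β (u * n + (γ + W * (x.2 : ℕ))))) -
      2 * μ * (∑ j ∈ range H, Wt (2 * N) n * β (u * n + (γ + W * (j : ℕ)))) +
      μ ^ 2 * Wt (2 * N) n := by
    intro n
    rw [← mul_sum, ← mul_sum, Finset.sum_product]
    simp only
    rw [← Finset.sum_mul_sum]
    ring
  have hS1 : Summable (fun n : ℤ => ∑ x ∈ range H ×ˢ range H, Wt (2 * N) n *
      (β (u * n + (γ + W * (x.1 : ℕ))) * β (u * n + (γ + W * (x.2 : ℕ))))) :=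
    summable_sum fun x _ => hs2 x
  have hS2 : Summable (fun n : ℤ => ∑ j ∈ range H, Wt (2 * N) n *
      β (u * n + (γ + W * (j : ℕ)))) := summable_sum fun j _ => hs1' j
  rw [tsum_congr hexp, (hS1.sub (hS2.mul_left (2 * μ))).tsum_add (hsW.mul_left (μ ^ 2)),
    hS1.tsum_sub (hS2.mul_left (2 * μ)), tsum_mul_left, tsum_mul_left,
    Summable.tsum_finsetSum (fun x _ => hs2 x), Summable.tsum_finsetSum (fun j _ => hs1' j)]
  -- the pairs
  have hsplit := Finset.sum_filter_add_sum_filter_not (range H ×ˢ range H)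
    (fun x : ℕ × ℕ => x.1 ≠ x.2) (fun x => ∑' n : ℤ, Wt (2 * N) n *
      (β (u * n + (γ + W * (x.1 : ℕ))) * β (u * n + (γ + W * (x.2 : ℕ)))))
  have hoff : ∑ x ∈ (range H ×ˢ range H).filter (fun x : ℕ × ℕ => x.1 ≠ x.2),
      ∑' n : ℤ, Wt (2 * N) n *
        (β (u * n + (γ + W * (x.1 : ℕ))) * β (u * n + (γ + W * (x.2 : ℕ)))) ≤
      T * μ ^ 2 * ((1 + s) ^ 2 + s) := by
    have h3 : ∀ x ∈ (range H ×ˢ range H).filter (fun x : ℕ × ℕ => x.1 ≠ x.2),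
        ∑' n : ℤ, Wt (2 * N) n *
          (β (u * n + (γ + W * (x.1 : ℕ))) * β (u * n + (γ + W * (x.2 : ℕ)))) ≤
        T * κ ^ 2 * ((1 + s) * (∏ p ∈ P, (if (p : ℤ) ∣ (x.1 : ℤ) - x.2 then
          1 + 1 / ((p : ℝ) - 1) else 1)) + s) := by
      intro x hx
      obtain ⟨hx1, hne⟩ := mem_filter.1 hx
      have hi := mem_range.1 (mem_product.1 hx1).1
      have hj := mem_range.1 (mem_product.1 hx1).2
      refine (hpr x.1 hi x.2 hj hne).trans (le_of_eq ?_)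
      congr 3
      apply prod_congr rfl
      intro p hp
      exact fc_shift W γ x.1 x.2 p (hP p hp).1 (hWp p hp)
    refine (sum_le_sum h3).trans ?_
    rw [← mul_sum, sum_add_distrib, ← mul_sum, sum_const, nsmul_eq_mul]
    have h4 := sum_pairs P (fun p hp => (hP p hp).1) (fun p => 1 / ((p : ℝ) - 1)) (fun p hp => by
      have : (2 : ℝ) ≤ p := by exact_mod_cast (hP p hp).1.two_le
      apply div_nonneg zero_le_one
      linarith) H
    have h5 := prod_tail P D hD (fun p hp => (hP p hp).2)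
    have hD0 : (0 : ℝ) < D := by exact_mod_cast hD
    have h6 : (2 : ℝ) / D ≤ s / 2 := by
      rw [div_le_div_iff₀ hD0 (by norm_num)]
      linarith
    have h7 : ((((range H ×ˢ range H).filter (fun x : ℕ × ℕ => x.1 ≠ x.2)).card : ℕ) : ℝ) ≤
        (H : ℝ) ^ 2 := by
      have h8 := card_filter_le (range H ×ˢ range H) (fun x : ℕ × ℕ => x.1 ≠ x.2)
      rw [card_product, card_range] at h8
      rw [pow_two]
      exact_mod_cast h8
    have h9 : ∑ x ∈ (range H ×ˢ range H).filter (fun x : ℕ × ℕ => x.1 ≠ x.2),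
        ∏ p ∈ P, (if (p : ℤ) ∣ (x.1 : ℤ) - x.2 then 1 + 1 / ((p : ℝ) - 1) else 1) ≤
        (H : ℝ) ^ 2 * (1 + s) := by
      refine h4.trans ?_
      apply mul_le_mul_of_nonneg_left _ (by positivity)
      linarith
    calc T * κ ^ 2 * ((1 + s) * (∑ x ∈ (range H ×ˢ range H).filter (fun x : ℕ × ℕ => x.1 ≠ x.2),
        ∏ p ∈ P, (if (p : ℤ) ∣ (x.1 : ℤ) - x.2 then 1 + 1 / ((p : ℝ) - 1) else 1)) +
        (((range H ×ˢ range H).filter (fun x : ℕ × ℕ => x.1 ≠ x.2)).card : ℝ) * s)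
        ≤ T * κ ^ 2 * ((1 + s) * ((H : ℝ) ^ 2 * (1 + s)) + (H : ℝ) ^ 2 * s) := by
          gcongr
      _ = _ := by rw [hμd]; ring
  have hdiag : ∑ x ∈ (range H ×ˢ range H).filter (fun x : ℕ × ℕ => ¬ x.1 ≠ x.2),
      ∑' n : ℤ, Wt (2 * N) n *
        (β (u * n + (γ + W * (x.1 : ℕ))) * β (u * n + (γ + W * (x.2 : ℕ)))) ≤
      T * μ ^ 2 * s := by
    have h3 : ∀ x ∈ (range H ×ˢ range H).filter (fun x : ℕ × ℕ => ¬ x.1 ≠ x.2),
        ∑' n : ℤ, Wt (2 * N) n *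
          (β (u * n + (γ + W * (x.1 : ℕ))) * β (u * n + (γ + W * (x.2 : ℕ)))) ≤
        C1 * (((4 * N : ℕ) : ℝ) * κ * (1 + s)) := by
      intro x hx
      obtain ⟨hx1, hne⟩ := mem_filter.1 hx
      rw [not_not] at hne
      have hi := mem_range.1 (mem_product.1 hx1).1
      rw [← hne]
      simp only [← pow_two]
      exact hdg x.1 hi
    refine (sum_le_sum h3).trans ?_
    rw [sum_const, nsmul_eq_mul]
    have h7 : ((range H ×ˢ range H).filter (fun x : ℕ × ℕ => ¬ x.1 ≠ x.2)).card ≤ H := by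
      have h8 : (range H ×ˢ range H).filter (fun x : ℕ × ℕ => ¬ x.1 ≠ x.2) ⊆
          (range H).image (fun i => (i, i)) := by
        intro x hx
        obtain ⟨hx1, hne⟩ := mem_filter.1 hx
        rw [not_not] at hne
        rw [mem_image]
        exact ⟨x.1, (mem_product.1 hx1).1, Prod.ext rfl hne⟩
      exact (card_le_card h8).trans (card_image_le.trans (by rw [card_range]))
    have h8 : ((4 * N : ℕ) : ℝ) = 2 * T := by rw [hT]; push_cast; ring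
    rw [h8]
    have h9 : 0 ≤ C1 * (2 * T * κ * (1 + s)) := by positivity
    calc (((range H ×ˢ range H).filter (fun x : ℕ × ℕ => ¬ x.1 ≠ x.2)).card : ℝ) *
        (C1 * (2 * T * κ * (1 + s))) ≤ (H : ℝ) * (C1 * (2 * T * κ * (1 + s))) := by
          apply mul_le_mul_of_nonneg_right _ h9
          exact_mod_cast h7
      _ = T * μ * ((4 * C1) * (1 + s) / 2) := by rw [hμd]; ring
      _ ≤ T * μ * ((s * μ) * (1 + s) / 2) := by gcongr
      _ ≤ T * μ * (s * μ) := by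
          apply mul_le_mul_of_nonneg_left _ (by positivity)
          have : 0 ≤ s * μ := by positivity
          nlinarith
      _ = _ := by ring
  have hcross : T * μ * (1 - s) ≤ ∑ j ∈ range H,
      ∑' n : ℤ, Wt (2 * N) n * β (u * n + (γ + W * (j : ℕ))) := by
    calc T * μ * (1 - s) = ∑ j ∈ range H, T * κ * (1 - s) := by
          rw [sum_const, card_range, nsmul_eq_mul, hμd]; ring
      _ ≤ _ := sum_le_sum fun j hj => h1 j (mem_range.1 hj)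
  have hc2 : 2 * μ * (T * μ * (1 - s)) ≤ 2 * μ * ∑ j ∈ range H,
      ∑' n : ℤ, Wt (2 * N) n * β (u * n + (γ + W * (j : ℕ))) :=
    mul_le_mul_of_nonneg_left hcross (by positivity)
  have hc3 : μ ^ 2 * ∑' n : ℤ, Wt (2 * N) n ≤ μ ^ 2 * (T * (1 + s)) :=
    mul_le_mul_of_nonneg_left hW1 (by positivity)
  rw [← hsplit]
  have hfin : T * μ ^ 2 * ((1 + s) ^ 2 + s) + T * μ ^ 2 * s - 2 * μ * (T * μ * (1 - s)) +
      μ ^ 2 * (T * (1 + s)) ≤ T * μ ^ 2 * (8 * s) := by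
    have h10 : T * μ ^ 2 * ((1 + s) ^ 2 + s) + T * μ ^ 2 * s - 2 * μ * (T * μ * (1 - s)) +
      μ ^ 2 * (T * (1 + s)) = T * μ ^ 2 * (7 * s + s ^ 2) := by ring
    rw [h10]
    apply mul_le_mul_of_nonneg_left _ (by positivity)
    nlinarith
  linarith

end Q157.LG
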