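import Pool.Agent.Q157.LG.Beta
import Pool.Agent.Q157.LG.Vari
import Pool.Agent.Q157.LG.Cnt

/-! Windows of length `C log N` with a prime: more than one quarter. -/

set_option autoImplicit false

namespace Q157.LG

open Finset Filter Topology
open Pool.Agent.H410R2 (BD)
open Pool.Agent.H442R2.KF (Wt)

theorem exp_pi_le : Real.exp Real.pi ≤ 64 := by
  have h1 : Real.exp Real.pi ≤ Real.exp 4 := Real.exp_le_exp.2 Real.pi_le_four
  have h2 : Real.exp 4 = Real.exp 1 ^ 4 := by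
    rw [← Real.exp_nat_mul]
    norm_num
  have h3 := Real.exp_one_lt_d9
  have h4 : Real.exp 1 ^ 4 ≤ 2.7182818286 ^ 4 :=
    pow_le_pow_left₀ (Real.exp_pos _).le h3.le 4
  rw [h2] at h1
  refine h1.trans (h4.trans ?_)
  norm_num

theorem Wt_ge (N : ℕ) (n : ℤ) (hN : 1 ≤ N) (h1 : -(2 * N : ℤ) ≤ n) (h2 : n ≤ 2 * N) :
    1 / 64 ≤ Wt (2 * N) n := by
  unfold Wt
  have hN0 : (0 : ℝ) < ((2 * N : ℕ) : ℝ) := by
    have : 0 < 2 * N := by omega
    exact_mod_cast this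
  have h3 : ((n : ℝ) / ((2 * N : ℕ) : ℝ)) ^ 2 ≤ 1 := by
    rw [div_pow, div_le_one (by positivity)]
    have h4 : |(n : ℝ)| ≤ ((2 * N : ℕ) : ℝ) := by
      rw [abs_le]
      push_cast
      constructor
      · exact_mod_cast h1
      · exact_mod_cast h2
    calc (n : ℝ) ^ 2 = |(n : ℝ)| ^ 2 := (sq_abs _).symm
      _ ≤ _ := pow_le_pow_left₀ (abs_nonneg _) h4 2
  have h5 : -Real.pi ≤ -Real.pi * ((n : ℝ) / ((2 * N : ℕ) : ℝ)) ^ 2 := by
    nlinarith [Real.pi_pos]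
  calc (1 : ℝ) / 64 ≤ 1 / Real.exp Real.pi := one_div_le_one_div_of_le (Real.exp_pos _) exp_pi_le
    _ = Real.exp (-Real.pi) := by rw [Real.exp_neg, one_div]
    _ ≤ _ := Real.exp_le_exp.2 h5

/-- the values of the shifts of the form at `n` -/
def hit (u : ℤ) (γ : ℤ) (W H : ℕ) (n : ℤ) : Prop :=
  ∃ j < H, ∃ p : ℕ, p.Prime ∧ (p : ℤ) = u * n + (γ + W * (j : ℕ))

open Classical in
/-- the counting step -/
theorem step (N W H : ℕ) (u γ n₁ n₂ : ℤ) (β : ℤ → ℝ) (κ Y s τ c ε₀ B L : ℝ) (hN : 1 ≤ N)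
    (hβ : ∀ m, 0 ≤ β m ∧ β m ≤ Y) (hβ1 : ∀ p : ℕ, p.Prime → 2 * N < p ^ 2 → β p = 1)
    (hn1 : -(2 * N : ℤ) ≤ n₁) (hn2 : n₂ ≤ 2 * N) (hc : 0 < c) (hcN : c * N ≤ (n₂ : ℝ) - n₁)
    (hκ : 0 < κ) (hH : 1 ≤ H) (hs : 0 < s) (hs1 : s ≤ 1) (hτ : 0 < τ) (hB : 0 < B) (hL : 0 < L)
    (hsW : Summable (fun n : ℤ => Wt (2 * N) n))
    (hvar : ∑' n : ℤ, Wt (2 * N) n * (∑ j ∈ range H, β (u * n + (γ + W * (j : ℕ))) - H * κ) ^ 2 ≤
      ((2 * N : ℕ) : ℝ) * (H * κ) ^ 2 * (8 * s))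
    (hden : κ * (B * L) * ((1 / 4 + ε₀ / 8) * (1 - s)) ≤ 1) (hε₀ : 0 < ε₀)
    (hcnt : ∀ j < H, (1 - s) * (1 / B * ((n₂ : ℝ) - n₁) / L) ≤
      (((Ico n₁ n₂).filter (fun n => big N (u * n + (γ + W * (j : ℕ))))).card : ℝ)) :
    ((1 / 4 + ε₀ / 8) * (1 - s) ^ 2 - τ / 2 - 512 * s / (τ * c)) * ((n₂ : ℝ) - n₁) ≤
      (((Ico n₁ n₂).filter (fun n => hit u γ W H n)).card : ℝ) := by
  set M : ℝ := (n₂ : ℝ) - n₁ with hM
  set μ : ℝ := H * κ with hμ
  have hNr : (1 : ℝ) ≤ N := by exact_mod_cast hN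
  have hM0 : 0 < M := lt_of_lt_of_le (by positivity) hcN
  have hH0 : (0 : ℝ) < H := by exact_mod_cast hH
  have hμ0 : 0 < μ := by positivity
  set ν : ℤ → ℝ := fun n => ∑ j ∈ range H, β (u * n + (γ + W * (j : ℕ))) with hν
  set S : Finset ℤ := (Ico n₁ n₂).filter (fun n => hit u γ W H n) with hS
  have hn12 : n₁ < n₂ := by
    have : (n₁ : ℝ) < n₂ := by linarith
    exact_mod_cast this
  have hcardJ : ((Ico n₁ n₂).card : ℝ) = M := by
    rw [Int.card_Ico, hM]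
    have : (((n₂ - n₁).toNat : ℤ) : ℝ) = ((n₂ - n₁ : ℤ) : ℝ) := by
      rw [Int.toNat_of_nonneg (by omega)]
    rw [Int.cast_natCast] at this
    rw [this]
    push_cast
    ring
  -- the number of primes
  have h1 : (H : ℝ) * ((1 - s) * (1 / B * M / L)) ≤ ∑ n ∈ S, ν n := by
    calc (H : ℝ) * ((1 - s) * (1 / B * M / L)) = ∑ j ∈ range H, (1 - s) * (1 / B * M / L) := by
          rw [sum_const, card_range, nsmul_eq_mul]
      _ ≤ ∑ j ∈ range H,
          (((Ico n₁ n₂).filter (fun n => big N (u * n + (γ + W * (j : ℕ))))).card : ℝ) :=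
          sum_le_sum fun j hj => hcnt j (mem_range.1 hj)
      _ = ∑ j ∈ range H, ∑ n ∈ Ico n₁ n₂,
          (if big N (u * n + (γ + W * (j : ℕ))) then (1 : ℝ) else 0) := by
          apply sum_congr rfl
          intro j _
          rw [← sum_filter, sum_const, nsmul_eq_mul, mul_one]
      _ = ∑ n ∈ Ico n₁ n₂, ∑ j ∈ range H,
          (if big N (u * n + (γ + W * (j : ℕ))) then (1 : ℝ) else 0) := sum_comm
      _ ≤ ∑ n ∈ Ico n₁ n₂, (if hit u γ W H n then ν n else 0) := by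
          apply sum_le_sum
          intro n _
          split_ifs with hh
          · apply sum_le_sum
            intro j _
            split_ifs with hb
            · obtain ⟨p, hp1, hp2, hp3⟩ := hb
              rw [← hp3, hβ1 p hp1 hp2]
            · exact (hβ _).1
          · apply le_of_eq
            apply sum_eq_zero
            intro j hj
            rw [if_neg]
            rintro ⟨p, hp1, -, hp3⟩
            exact hh ⟨j, mem_range.1 hj, p, hp1, hp3⟩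
      _ = ∑ n ∈ S, ν n := by rw [hS, sum_filter]
  -- the variance on the interval
  have hW0 : ∀ n : ℤ, 0 ≤ Wt (2 * N) n := Wt_nonneg _
  have hνY : ∀ n : ℤ, 0 ≤ ν n ∧ ν n ≤ H * Y := by
    intro n
    refine ⟨sum_nonneg fun j _ => (hβ _).1, ?_⟩
    calc ν n ≤ ∑ j ∈ range H, Y := sum_le_sum fun j _ => (hβ _).2
      _ = H * Y := by rw [sum_const, card_range, nsmul_eq_mul]
  have hsum2 : Summable (fun n : ℤ => Wt (2 * N) n * (ν n - μ) ^ 2) := by
    refine Summable.of_nonneg_of_le (fun n => mul_nonneg (hW0 n) (sq_nonneg _)) (fun n => ?_)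
      (hsW.mul_right ((H * Y + μ) ^ 2))
    apply mul_le_mul_of_nonneg_left _ (hW0 n)
    rw [sq_le_sq]
    have hb := hνY n
    rw [abs_of_nonneg (by linarith [hb.1, hb.2] : 0 ≤ H * Y + μ), abs_le]
    constructor
    · linarith [hb.1, hb.2]
    · linarith [hb.1, hb.2]
  have h2 : ∑ n ∈ Ico n₁ n₂, (ν n - μ) ^ 2 ≤ 64 * (((2 * N : ℕ) : ℝ) * μ ^ 2 * (8 * s)) := by
    have h3 : ∑ n ∈ Ico n₁ n₂, Wt (2 * N) n * (ν n - μ) ^ 2 ≤
        ((2 * N : ℕ) : ℝ) * μ ^ 2 * (8 * s) :=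
      (hsum2.sum_le_tsum _ (fun n _ => mul_nonneg (hW0 n) (sq_nonneg _))).trans hvar
    have h4 : ∑ n ∈ Ico n₁ n₂, (ν n - μ) ^ 2 ≤
        64 * ∑ n ∈ Ico n₁ n₂, Wt (2 * N) n * (ν n - μ) ^ 2 := by
      rw [mul_sum]
      apply sum_le_sum
      intro n hn
      rw [mem_Ico] at hn
      have h5 := Wt_ge N n hN (by omega) (by omega)
      have h6 : 0 ≤ (ν n - μ) ^ 2 := sq_nonneg _
      nlinarith
    linarith
  -- the number of windows
  have h3 : ∑ n ∈ S, ν n ≤ μ * S.card + (τ / 2 * μ * M + 512 * s / (τ * c) * μ * M) := by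
    have h4 : ∀ n : ℤ, ν n ≤ μ + (τ / 2 * μ + (ν n - μ) ^ 2 / (2 * τ * μ)) := by
      intro n
      have h5 : ν n - μ ≤ τ / 2 * μ + (ν n - μ) ^ 2 / (2 * τ * μ) := by
        have h6 : τ / 2 * μ + (ν n - μ) ^ 2 / (2 * τ * μ) - (ν n - μ) =
            (τ * μ - (ν n - μ)) ^ 2 / (2 * τ * μ) := by
          field_simp
          ring
        have h7 : 0 ≤ (τ * μ - (ν n - μ)) ^ 2 / (2 * τ * μ) := by positivity
        linarith
      linarith
    have h8 : ∀ n : ℤ, 0 ≤ τ / 2 * μ + (ν n - μ) ^ 2 / (2 * τ * μ) := fun n => by positivity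
    calc ∑ n ∈ S, ν n ≤ ∑ n ∈ S, (μ + (τ / 2 * μ + (ν n - μ) ^ 2 / (2 * τ * μ))) :=
          sum_le_sum fun n _ => h4 n
      _ = μ * S.card + ∑ n ∈ S, (τ / 2 * μ + (ν n - μ) ^ 2 / (2 * τ * μ)) := by
          rw [sum_add_distrib, sum_const, nsmul_eq_mul, mul_comm]
      _ ≤ μ * S.card + ∑ n ∈ Ico n₁ n₂, (τ / 2 * μ + (ν n - μ) ^ 2 / (2 * τ * μ)) := by
          gcongr
          intro x hx
          rw [hS] at hx
          exact (mem_filter.1 hx).1
      _ = μ * S.card + (τ / 2 * μ * M + (∑ n ∈ Ico n₁ n₂, (ν n - μ) ^ 2) / (2 * τ * μ)) := by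
          rw [sum_add_distrib, sum_const, nsmul_eq_mul, hcardJ, sum_div]
          ring
      _ ≤ _ := by
          have h9 : (∑ n ∈ Ico n₁ n₂, (ν n - μ) ^ 2) / (2 * τ * μ) ≤
              512 * s / (τ * c) * μ * M := by
            rw [div_le_iff₀ (by positivity)]
            refine h2.trans ?_
            have h10 : 512 * s / (τ * c) * μ * M * (2 * τ * μ) = 1024 * s * μ ^ 2 * (M / c) := by
              field_simp
              ring
            rw [h10]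
            have h11 : (N : ℝ) ≤ M / c := by
              rw [le_div_iff₀ hc]
              linarith
            have h12 : 64 * (((2 * N : ℕ) : ℝ) * μ ^ 2 * (8 * s)) = 1024 * s * μ ^ 2 * N := by
              push_cast
              ring
            rw [h12]
            gcongr
          linarith
  -- conclusion
  have h4 : (1 / 4 + ε₀ / 8) * (1 - s) ^ 2 * M * μ ≤ (H : ℝ) * ((1 - s) * (1 / B * M / L)) := by
    have h5 : (H : ℝ) * ((1 - s) * (1 / B * M / L)) = H * (1 - s) * M * (1 / (B * L)) := by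
      field_simp
    have h6 : κ * ((1 / 4 + ε₀ / 8) * (1 - s)) ≤ 1 / (B * L) := by
      rw [le_div_iff₀ (by positivity)]
      linarith
    rw [h5]
    have h7 : 0 ≤ 1 - s := by linarith
    calc (1 / 4 + ε₀ / 8) * (1 - s) ^ 2 * M * μ =
        H * (1 - s) * M * (κ * ((1 / 4 + ε₀ / 8) * (1 - s))) := by rw [hμ]; ring
      _ ≤ _ := by gcongr
  have h5 : ((1 / 4 + ε₀ / 8) * (1 - s) ^ 2 - τ / 2 - 512 * s / (τ * c)) * M * μ ≤
      S.card * μ := by
    have h6 : ((1 / 4 + ε₀ / 8) * (1 - s) ^ 2 - τ / 2 - 512 * s / (τ * c)) * M * μ =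
      (1 / 4 + ε₀ / 8) * (1 - s) ^ 2 * M * μ - (τ / 2 * μ * M + 512 * s / (τ * c) * μ * M) := by
      ring
    rw [h6]
    linarith
  exact le_of_mul_le_mul_right h5 hμ0

theorem evlog' (C : ℝ) : ∀ᶠ N : ℕ in atTop, C ≤ Real.log (N : ℝ) :=
  (Real.tendsto_log_atTop.comp tendsto_natCast_atTop_atTop).eventually_ge_atTop C

theorem alg_s (ε₀ s c : ℝ) (hε : 0 < ε₀) (hε1 : ε₀ ≤ 1 / 100) (hs : 0 < s) (hc : 0 < c)
    (h1 : s ≤ ε₀ / 64) (h2 : s ≤ ε₀ ^ 2 * c / 1100000) :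
    1 / 4 + ε₀ / 16 ≤ (1 / 4 + ε₀ / 8) * (1 - s) ^ 2 - ε₀ / 32 / 2 - 512 * s / (ε₀ / 32 * c) := by
  have h3 : 512 * s / (ε₀ / 32 * c) ≤ ε₀ / 64 := by
    rw [div_le_iff₀ (by positivity)]
    have : ε₀ / 64 * (ε₀ / 32 * c) = ε₀ ^ 2 * c / 2048 := by ring
    rw [this]
    linarith
  have h4 : (1 - s) ^ 2 ≥ 1 - 2 * s := by nlinarith
  have h5 : (1 / 4 + ε₀ / 8) * (1 - s) ^ 2 ≥ (1 / 4 + ε₀ / 8) * (1 - 2 * s) :=
    mul_le_mul_of_nonneg_left h4 (by positivity)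
  have h6 : (1 / 4 + ε₀ / 8) * (2 * s) ≤ s := by nlinarith
  linarith

open Classical in
/-- **more than one quarter of the windows of length `C log N` contain a prime** -/
theorem core : ∃ c₀ : ℝ, 0 < c₀ ∧ ∀ (A : ℕ) (c : ℝ), 1 ≤ A → 0 < c → ∃ D lam : ℕ, A ≤ D ∧
    1 ≤ lam ∧ ∀ᶠ N : ℕ in atTop, ∀ (α : ℕ) (γ n₁ n₂ : ℤ), 1 ≤ α → α ≤ A →
    (∀ p : ℕ, p.Prime → p ≤ D → ¬ (p : ℤ) ∣ γ) → 4 * |γ| ≤ 5 * (α * Wd D : ℕ) * N →
    -(2 * N : ℤ) ≤ n₁ → n₂ ≤ 2 * N → c * N ≤ (n₂ : ℝ) - n₁ → 1 ≤ (α * Wd D : ℕ) * n₁ + γ →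
    (1 / 4 + c₀) * ((n₂ : ℝ) - n₁) ≤
      (((Ico n₁ n₂).filter (fun n => hit (α * Wd D : ℕ) γ (Wd D) ⌈lam * Real.log N⌉₊ n)).card : ℝ) := by
  obtain ⟨ε₀, hε, hε1, hb⟩ := hbeta
  refine ⟨ε₀ / 16, by positivity, ?_⟩
  intro A c hA hc
  set s : ℝ := min (ε₀ / 64) (ε₀ ^ 2 * c / 1100000) with hsd
  have hs : 0 < s := lt_min (by positivity) (by positivity)
  have hsa : s ≤ ε₀ / 64 := min_le_left _ _
  have hsb : s ≤ ε₀ ^ 2 * c / 1100000 := min_le_right _ _
  have hs1 : s ≤ 1 := by linarith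
  obtain ⟨C1, hC1, hb⟩ := hb s hs hs1
  set D : ℕ := max A (max 4 ⌈4 / s⌉₊) with hD
  have hDA : A ≤ D := le_max_left _ _
  have hD4 : 4 ≤ D := (le_max_left _ _).trans (le_max_right _ _)
  have hDs : 4 ≤ s * D := by
    have h3 : 4 / s ≤ D := (Nat.le_ceil _).trans (by
      exact_mod_cast (le_max_right _ _).trans (le_max_right _ _))
    rw [div_le_iff₀ hs] at h3
    linarith
  set W : ℕ := Wd D with hW
  have hW0 : 0 < W := Wd_pos D
  set lam : ℕ := ⌈3072 * C1 ^ 2 / (s * c)⌉₊ + 1 with hlam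
  refine ⟨D, lam, hDA, by omega, ?_⟩
  have hU : 1 ≤ A * W := Nat.mul_pos (by omega) hW0
  obtain ⟨X₀, hX₀⟩ := hsumW
  have hcnt : ∀ α ∈ Icc 1 A, ∀ᶠ N : ℕ in atTop, ∀ (γ n₁ n₂ : ℤ),
      IsCoprime ((α * W : ℕ) : ℤ) γ → 1 ≤ (α * W : ℕ) * n₁ + γ →
      (α * W : ℕ) * n₂ + γ ≤ 4 * (α * W : ℕ) * N → c * N ≤ (n₂ : ℝ) - n₁ →
      (1 - s) * (((α * W : ℕ) : ℝ) / (α * W).totient * ((n₂ : ℝ) - n₁) / Real.log N) ≤
        (((Ico n₁ n₂).filter (fun n => big N ((α * W : ℕ) * n + γ))).card : ℝ) := by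
    intro α hα
    rw [mem_Icc] at hα
    exact cnt (α * W) (Nat.mul_pos (by omega) hW0) s c hs (by linarith) hc
  have hcnt' := (Finset.eventually_all (Icc 1 A)).2 hcnt
  -- growth
  have hlN : ∀ C : ℝ, ∀ᶠ N : ℕ in atTop, C * (lam * Real.log N + 1) ≤ N := by
    intro C
    have h1 : Tendsto (fun x : ℝ => (|C| + 1) * (lam * Real.log x + 1) / x) atTop (𝓝 0) := by
      have h2 : Tendsto (fun x : ℝ => Real.log x / x) atTop (𝓝 0) := by
        have := Real.isLittleO_log_id_atTop.tendsto_div_nhds_zero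
        simpa using this
      have h3 : Tendsto (fun x : ℝ => 1 / x) atTop (𝓝 0) := by
        simpa using tendsto_inv_atTop_zero
      have h4 := ((h2.const_mul (lam : ℝ)).add h3).const_mul (|C| + 1)
      simp only [mul_zero, add_zero] at h4
      refine h4.congr fun x => ?_
      ring
    have h5 := (h1.comp tendsto_natCast_atTop_atTop).eventually_le_const (show (0 : ℝ) < 1 by norm_num)
    filter_upwards [h5, eventually_ge_atTop 1, evlog' 0] with N hN hN1 hl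
    have hN0 : (0 : ℝ) < N := by exact_mod_cast hN1
    simp only [Function.comp] at hN
    rw [div_le_one hN0] at hN
    refine le_trans ?_ hN
    apply mul_le_mul_of_nonneg_right _ (by positivity)
    have := le_abs_self C
    linarith
  filter_upwards [hb D (A * W) hD4 hU, hcnt', eventually_ge_atTop X₀, eventually_ge_atTop 64,
    evlog' 4, hlN 4, hlN (4 * W), evlog' (A * W * W * (lam + 1)),
    (tendsto_natCast_atTop_atTop (R := ℝ)).eventually_ge_atTop (1 / s)] with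
    N hN hcN hNX hN64 hl4 hg1 hg2 hg3 hNs α γ n₁ n₂ hα1 hαA hγ hγ2 hn1 hn2 hM h1n
  obtain ⟨β, κ, Y, P, hβ, hβ1, hP, hκ, hden, hmom⟩ := hN
  have hN1 : 1 ≤ N := by omega
  have hNr : (64 : ℝ) ≤ N := by exact_mod_cast hN64
  have hl0 : 0 < Real.log N := by linarith
  have hκ0 : 0 < κ := lt_of_lt_of_le (by positivity) hκ
  set L : ℝ := Real.log N with hL
  set H : ℕ := ⌈lam * L⌉₊ with hH
  set u : ℕ := α * W with hu
  have hu1 : 1 ≤ u := Nat.mul_pos (by omega) hW0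
  have huW : W ≤ u := Nat.le_mul_of_pos_left W (by omega)
  have huA : u ≤ A * W := Nat.mul_le_mul_right W hαA
  have hlam1 : (1 : ℝ) ≤ lam := by exact_mod_cast (by omega : 1 ≤ lam)
  have hHlo : lam * L ≤ H := Nat.le_ceil _
  have hHup : (H : ℝ) ≤ lam * L + 1 := (Nat.ceil_lt_add_one (by positivity)).le
  have hH1 : 1 ≤ H := Nat.ceil_pos.2 (by positivity)
  have hur : (1 : ℝ) ≤ u := by exact_mod_cast hu1
  have hWr : (0 : ℝ) < W := by exact_mod_cast hW0
  have huWr : (W : ℝ) ≤ u := by exact_mod_cast huW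
  have habsu : |((u : ℤ) : ℝ)| = u := by
    rw [Int.cast_natCast, Nat.abs_cast]
  -- sizes
  have hγr : 4 * |(γ : ℝ)| ≤ 5 * u * N := by
    rw [← Int.cast_abs]
    exact_mod_cast hγ2
  have hWH : 4 * ((W : ℝ) * H) ≤ u * N := by
    calc 4 * ((W : ℝ) * H) ≤ 4 * ((W : ℝ) * (lam * L + 1)) := by gcongr
      _ = W * (4 * (lam * L + 1)) := by ring
      _ ≤ W * N := by gcongr
      _ ≤ u * N := by gcongr
  have hsize : ∀ j < H, 4 * |((γ + W * (j : ℕ) : ℤ) : ℝ)| ≤ 3 * |((u : ℤ) : ℝ)| * ((2 * N : ℕ) : ℝ) := by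
    intro j hj
    rw [habsu]
    have h3 : |((γ + W * (j : ℕ) : ℤ) : ℝ)| ≤ |(γ : ℝ)| + W * H := by
      push_cast
      refine (abs_add_le _ _).trans ?_
      have h4 : |(W : ℝ) * (j : ℝ)| = W * j := abs_of_nonneg (by positivity)
      rw [h4]
      have h5 : (j : ℝ) ≤ H := by exact_mod_cast hj.le
      gcongr
    push_cast
    push_cast at h3
    nlinarith
  have hup : ∀ p : ℕ, p.Prime → D < p → ¬ (p : ℤ) ∣ (u : ℤ) := by
    intro p hp hpD hd
    have hd' : p ∣ u := by exact_mod_cast hd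
    rcases (Nat.Prime.dvd_mul hp).1 hd' with h | h
    · have := Nat.le_of_dvd (by omega) h
      omega
    · have := (dvd_Wd D p hp).1 h
      omega
  have hWp : ∀ p ∈ P, ¬ (p : ℤ) ∣ (W : ℤ) := by
    intro p hp hd
    have hd' : p ∣ W := by exact_mod_cast hd
    have := (dvd_Wd D p (hP p hp).1).1 hd'
    have := (hP p hp).2
    omega
  have hu0 : (u : ℤ) ≠ 0 := by exact_mod_cast (by omega : u ≠ 0)
  have huU : |(u : ℤ)| ≤ ((A * W : ℕ) : ℤ) := by
    rw [Nat.abs_cast]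
    exact_mod_cast huA
  have hm := fun j (hj : j < H) => hmom (u : ℤ) (γ + W * (j : ℕ)) hu0 huU hup (hsize j hj)
  -- coprimality
  have hcop : ∀ j : ℕ, IsCoprime (u : ℤ) (γ + W * (j : ℕ)) := by
    intro j
    rw [Int.isCoprime_iff_gcd_eq_one]
    by_contra hne
    obtain ⟨p, hp, hpd⟩ := Nat.exists_prime_and_dvd hne
    have h3 : (p : ℤ) ∣ (u : ℤ) := (Int.natCast_dvd_natCast.2 hpd).trans (Int.gcd_dvd_left _ _)
    have h4 : (p : ℤ) ∣ γ + W * (j : ℕ) :=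
      (Int.natCast_dvd_natCast.2 hpd).trans (Int.gcd_dvd_right _ _)
    have hpD : p ≤ D := by
      by_contra hcon
      exact hup p hp (by omega) h3
    have h5 : (p : ℤ) ∣ (W : ℤ) := by exact_mod_cast (dvd_Wd D p hp).2 hpD
    apply hγ p hp hpD
    have h6 : (p : ℤ) ∣ W * (j : ℕ) := Dvd.dvd.mul_right h5 _
    exact (dvd_add_left h6).1 h4
  -- the primes
  have hBD : ((u : ℕ) : ℝ) / (u.totient : ℝ) = 1 / BD D := by
    rw [hu, tot_eq D α hα1 (hαA.trans hDA), ← hW]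
    have hB := Pool.Agent.W25.UN.BD_pos D
    have : ((α * W : ℕ) : ℝ) ≠ 0 := by
      rw [← hu]
      positivity
    field_simp
  have hpc : ∀ j < H, (1 - s) * (1 / BD D * ((n₂ : ℝ) - n₁) / L) ≤
      (((Ico n₁ n₂).filter (fun n => big N ((u : ℤ) * n + (γ + W * (j : ℕ))))).card : ℝ) := by
    intro j hj
    have h3 := hcN α (mem_Icc.2 ⟨hα1, hαA⟩) (γ + W * (j : ℕ)) n₁ n₂ (hcop j) (by
      have : (0 : ℤ) ≤ (W : ℤ) * (j : ℕ) := by positivity
      linarith) (by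
      have h4 : (((u : ℤ) * n₂ + (γ + W * (j : ℕ)) : ℤ) : ℝ) ≤ ((4 * (u : ℤ) * N : ℤ) : ℝ) := by
        push_cast
        have h5 : (j : ℝ) ≤ H := by exact_mod_cast hj.le
        have h6 : (W : ℝ) * j ≤ W * H := by gcongr
        have h7 : (γ : ℝ) ≤ |(γ : ℝ)| := le_abs_self _
        have h8 : (n₂ : ℝ) ≤ 2 * N := by exact_mod_cast hn2
        have h9 : (u : ℝ) * n₂ ≤ u * (2 * N) := by gcongr
        nlinarith
      exact_mod_cast h4) hM
    rw [hBD] at h3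
    exact h3
  -- a lower bound for the density
  have hκlow : c / (768 * C1 * L) ≤ κ := by
    have h3 := (hm 0 hH1).2.1
    have h4 := hpc 0 hH1
    have hsb : Summable (fun n : ℤ => Wt (2 * N) n * β ((u : ℤ) * n + (γ + W * ((0 : ℕ) : ℕ))) ^ 2) := by
      refine Summable.of_nonneg_of_le (fun n => mul_nonneg (Wt_nonneg _ n) (sq_nonneg _))
        (fun n => ?_) ((hX₀ (2 * N) (by omega)).1.mul_right (Y ^ 2))
      apply mul_le_mul_of_nonneg_left _ (Wt_nonneg _ n)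
      exact pow_le_pow_left₀ (hβ _).1 (hβ _).2 2
    have h5 : 1 / 64 * (((Ico n₁ n₂).filter (fun n => big N ((u : ℤ) * n +
        (γ + W * ((0 : ℕ) : ℕ))))).card : ℝ) ≤
        ∑' n : ℤ, Wt (2 * N) n * β ((u : ℤ) * n + (γ + W * ((0 : ℕ) : ℕ))) ^ 2 := by
      refine le_trans ?_ (hsb.sum_le_tsum ((Ico n₁ n₂).filter (fun n => big N ((u : ℤ) * n +
        (γ + W * ((0 : ℕ) : ℕ))))) (fun n _ => mul_nonneg (Wt_nonneg _ n) (sq_nonneg _)))
      rw [mul_comm, ← nsmul_eq_mul, ← sum_const]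
      apply sum_le_sum
      intro n hn
      obtain ⟨hn3, p, hp1, hp2, hp3⟩ := mem_filter.1 hn
      rw [mem_Ico] at hn3
      rw [← hp3, hβ1 p hp1 hp2, one_pow, mul_one]
      exact Wt_ge N n hN1 (by omega) (by omega)
    have hB := Pool.Agent.W25.UN.BD_pos D
    have hB1 := BD_le_one D
    have h6 : (1 - s) * (c * N / L) ≤ (1 - s) * (1 / BD D * ((n₂ : ℝ) - n₁) / L) := by
      have h7 : 0 ≤ 1 - s := by linarith
      have h8 : (1 : ℝ) ≤ 1 / BD D := by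
        rw [le_div_iff₀ hB]
        linarith
      have h9 : c * N ≤ 1 / BD D * ((n₂ : ℝ) - n₁) := by
        have h10 : 0 ≤ (n₂ : ℝ) - n₁ := le_trans (by positivity) hM
        nlinarith
      gcongr
    have h7 : 1 / 64 * ((1 - s) * (c * N / L)) ≤ C1 * (((4 * N : ℕ) : ℝ) * κ * (1 + s)) := by
      have h8 := mul_le_mul_of_nonneg_left (h6.trans h4) (by norm_num : (0 : ℝ) ≤ 1 / 64)
      exact h8.trans (h5.trans h3)
    have h8 : 1 / 64 * ((1 / 2) * (c * N / L)) ≤ 1 / 64 * ((1 - s) * (c * N / L)) := by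
      have : (1 : ℝ) / 2 ≤ 1 - s := by linarith
      gcongr
    have h9 : C1 * (((4 * N : ℕ) : ℝ) * κ * (1 + s)) ≤ C1 * (((4 * N : ℕ) : ℝ) * κ * (3 / 2)) := by
      have : 1 + s ≤ 3 / 2 := by linarith
      gcongr
    have h10 := h8.trans (h7.trans h9)
    rw [div_le_iff₀ (by positivity)]
    have h11 : (N : ℝ) * c ≤ N * (κ * (768 * C1 * L)) := by
      have h12 : 1 / 64 * ((1 / 2) * (c * N / L)) = (N * c) / (128 * L) := by
        field_simp
        ring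
      rw [h12, div_le_iff₀ (by positivity)] at h10
      refine h10.trans (le_of_eq ?_)
      push_cast
      ring
    exact le_of_mul_le_mul_left h11 (by linarith)
  have hμ : 4 * C1 ≤ s * (H * κ) := by
    have h3 : 3072 * C1 ^ 2 / (s * c) ≤ lam := by
      refine (Nat.le_ceil _).trans ?_
      rw [hlam]
      push_cast
      linarith
    rw [div_le_iff₀ (by positivity)] at h3
    have h4 : (lam : ℝ) * L * (c / (768 * C1 * L)) ≤ H * κ :=
      mul_le_mul hHlo hκlow (by positivity) (Nat.cast_nonneg _)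
    have h5 : (lam : ℝ) * L * (c / (768 * C1 * L)) = lam * c / (768 * C1) := by
      field_simp
    rw [h5] at h4
    have h6 : 4 * C1 ≤ s * (lam * c / (768 * C1)) := by
      rw [mul_div_assoc', le_div_iff₀ (by positivity)]
      nlinarith
    exact h6.trans (mul_le_mul_of_nonneg_left h4 hs.le)
  -- the variance
  obtain ⟨hsW, hW1⟩ := hX₀ (2 * N) (by omega)
  have hW1' : ∑' n : ℤ, Wt (2 * N) n ≤ ((2 * N : ℕ) : ℝ) * (1 + s) := by
    have h3 := (abs_le.1 hW1).2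
    have h4 : 1 / ((2 * N : ℕ) : ℝ) ^ 4 ≤ 1 := by
      rw [div_le_one (by positivity)]
      apply one_le_pow₀
      push_cast
      linarith
    have h5 : 1 ≤ ((2 * N : ℕ) : ℝ) * s := by
      rw [div_le_iff₀ hs] at hNs
      push_cast
      nlinarith
    linarith
  have hvar := vari N D W H (u : ℤ) γ β κ Y C1 s P hβ hP (by omega) hDs hWp hs hs1 hκ0 hsW hW1'
    (fun j hj => (hm j hj).1) (fun j hj => (hm j hj).2.1) (fun i hi j hj hij => by
      refine (hm i hi).2.2 (γ + W * (j : ℕ)) ?_ (hsize j hj) ?_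
      · intro he
        have h3 : (W : ℤ) * (i : ℕ) = W * (j : ℕ) := by linarith
        have h4 : ((i : ℕ) : ℤ) = (j : ℕ) :=
          mul_left_cancel₀ (by exact_mod_cast hW0.ne') h3
        exact hij (by exact_mod_cast h4)
      · have h3 : (u : ℤ) * ((γ + W * (i : ℕ)) - (γ + W * (j : ℕ))) =
            (u * W : ℤ) * ((i : ℤ) - j) := by ring
        rw [h3]
        push_cast
        rw [abs_mul, abs_of_nonneg (by positivity : (0 : ℝ) ≤ (u : ℝ) * W)]
        have h4 : |(i : ℝ) - j| ≤ H := by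
          have h5 : (i : ℝ) ≤ H := by exact_mod_cast hi.le
          have h6 : (j : ℝ) ≤ H := by exact_mod_cast hj.le
          have h7 : (0 : ℝ) ≤ i := Nat.cast_nonneg _
          have h8 : (0 : ℝ) ≤ j := Nat.cast_nonneg _
          rw [abs_le]
          constructor <;> linarith
        have h5 : (u : ℝ) ≤ A * W := by exact_mod_cast huA
        calc (u : ℝ) * W * |(i : ℝ) - j| ≤ (A * W) * W * H := by gcongr
          _ ≤ (A * W) * W * ((lam + 1) * L) := by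
              gcongr
              nlinarith
          _ = (A * W * W * (lam + 1)) * L := by ring
          _ ≤ L * L := by gcongr
          _ = L ^ 2 := by ring) hμ (by linarith)
  have hfin := step N W H (u : ℤ) γ n₁ n₂ β κ Y s (ε₀ / 32) c ε₀ (BD D) L hN1 hβ hβ1 hn1 hn2 hc
    hM hκ0 hH1 hs hs1 (by positivity) (Pool.Agent.W25.UN.BD_pos D) hl0 hsW hvar hden hε hpc
  refine le_trans ?_ hfin
  have h3 := alg_s ε₀ s c hε hε1 hs hc hsa hsb
  exact mul_le_mul_of_nonneg_right h3 (le_trans (by positivity) hM)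

end Q157.LG
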