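import Pool.Agent.Q157.LG.Mom
import Pool.Agent.TH899.UG.Vln
import Pool.Agent.W565.UB.Dat

/-! The sieve weights of the log-scale theorem. -/

set_option autoImplicit false

namespace Q157.LG

open Finset Filter Topology
open Pool.Agent.W25.UN Pool.Agent.W25.UB
open Pool.Agent.TH899.UG (St_VLNF)
open Pool.Agent.H410R2 (BD SS h0)
open Pool.Agent.W23.PL (DW Ev hat P1 xx)
open Pool.Agent.H442R2.KF (Wt)
open Pool.Agent.W565.UB Pool.Agent.W565.UB.Dat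

/-- (RCB) the Selberg squares are bounded, linear forms -/
def St_RCBG : Prop := ∀ ε₁ : ℝ, 0 < ε₁ → ε₁ ≤ 1 → ∃ C1 : ℝ, 1 ≤ C1 ∧ ∀ A : ℕ, 1 ≤ A →
  ∀ᶠ N : ℕ in atTop,
  ∀ (P : Finset ℕ) (z : ℕ), (∀ p ∈ P, p.Prime ∧ ((2 * N : ℕ) : ℝ) ^ ε₁ < (p : ℝ)) →
    ∀ u w n : ℤ, |u| ≤ A → |(w : ℝ)| ≤ A * (2 * N) → u * n + w ≠ 0 →
      Pool.Agent.H442R2.KF.Wt (2 * N) n *
        (((sq P z).filter (fun d : ℕ => (d : ℤ) ∣ u * n + w)).card : ℝ) ^ 2 ≤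
      C1 * Pool.Agent.H442R2.KF.Wt (4 * N) n

theorem rcbG (hRC : Pool.Agent.H442R2.BX.St_RC) (hGS : Pool.Agent.H442R2.BX.St_GS) : St_RCBG := by
  classical
  intro ε₁ hε _
  obtain ⟨N₀, C, hC, h⟩ := hRC (ε₁ / 2) (by linarith)
  refine ⟨2 * (1 + C) ^ 2, by nlinarith, fun A hA => ?_⟩
  filter_upwards [eventually_ge_atTop (max (max N₀ A) 1)] with N hN P z hP u w n hu hw hna
  have hN1 : 1 ≤ N := le_trans (le_max_right _ _) hN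
  have hN0 : N₀ ≤ N := le_trans (le_max_left _ _) ((le_max_left _ _).trans hN)
  have hNA : A ≤ N := le_trans (le_max_right _ _) ((le_max_left _ _).trans hN)
  have hA1 : (1 : ℝ) ≤ A := by exact_mod_cast hA
  have h2N0 : (0 : ℝ) < ((2 * N : ℕ) : ℝ) := by
    have : 0 < 2 * N := by omega
    exact_mod_cast this
  have hscale : N₀ ≤ A * (2 * N) := by nlinarith
  have h1 := h (A * (2 * N)) z hscale (-w) (u * n) (by
      push_cast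
      rw [abs_neg]
      exact hw) (by
      intro h3
      apply hna
      rw [h3, neg_add_cancel])
  have e0 : u * n - -w = u * n + w := by ring
  rw [e0] at h1
  have hyy : ((A * (2 * N) : ℕ) : ℝ) ^ (ε₁ / 2) ≤ ((2 * N : ℕ) : ℝ) ^ ε₁ := by
    have h3 : ((A * (2 * N) : ℕ) : ℝ) ≤ ((2 * N : ℕ) : ℝ) ^ (2 : ℝ) := by
      rw [Real.rpow_two, pow_two]
      push_cast
      have h4 : (A : ℝ) ≤ N := by exact_mod_cast hNA
      have h5 : (0 : ℝ) ≤ 2 * N := by positivity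
      apply mul_le_mul_of_nonneg_right _ h5
      have : (0 : ℝ) ≤ N := Nat.cast_nonneg _
      linarith
    calc ((A * (2 * N) : ℕ) : ℝ) ^ (ε₁ / 2) ≤ (((2 * N : ℕ) : ℝ) ^ (2 : ℝ)) ^ (ε₁ / 2) :=
          Real.rpow_le_rpow (Nat.cast_nonneg _) h3 (by linarith)
      _ = _ := by
          rw [← Real.rpow_mul h2N0.le]
          congr 1
          ring
  have hxle : 1 + |((u * n : ℤ) : ℝ)| / ((A * (2 * N) : ℕ) : ℝ) ≤
      1 + |(n : ℝ)| / ((2 * N : ℕ) : ℝ) := by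
    have h3 : |((u * n : ℤ) : ℝ)| ≤ A * |(n : ℝ)| := by
      push_cast
      rw [abs_mul]
      apply mul_le_mul_of_nonneg_right _ (abs_nonneg _)
      rw [← Int.cast_abs]
      exact_mod_cast hu
    have h4 : |((u * n : ℤ) : ℝ)| / ((A * (2 * N) : ℕ) : ℝ) ≤ |(n : ℝ)| / ((2 * N : ℕ) : ℝ) := by
      rw [div_le_div_iff₀ (by push_cast; positivity) h2N0]
      calc |((u * n : ℤ) : ℝ)| * ((2 * N : ℕ) : ℝ) ≤ (A * |(n : ℝ)|) * ((2 * N : ℕ) : ℝ) :=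
            mul_le_mul_of_nonneg_right h3 h2N0.le
        _ = _ := by push_cast; ring
    linarith
  set x : ℝ := 1 + |(n : ℝ)| / ((2 * N : ℕ) : ℝ) with hx
  have hx1 : 1 ≤ x := by
    rw [hx]
    have : 0 ≤ |(n : ℝ)| / ((2 * N : ℕ) : ℝ) := by positivity
    linarith
  have hsub : (sq P z).filter (fun d : ℕ => (d : ℤ) ∣ u * n + w) ⊆
      insert 1 (Pool.Agent.H442R2.BX.rd (((A * (2 * N) : ℕ) : ℝ) ^ (ε₁ / 2)) z (u * n + w)) := by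
    intro d hd
    unfold Pool.Agent.W25.UB.sq at hd
    rw [mem_filter, mem_filter, mem_Icc] at hd
    obtain ⟨⟨⟨hd1, hdz⟩, _, hdP⟩, hdv⟩ := hd
    rw [mem_insert]
    by_cases h0 : d = 1
    · exact Or.inl h0
    · right
      unfold Pool.Agent.H442R2.BX.rd Pool.Agent.H442R2.BX.roughs
      rw [mem_filter, mem_filter, mem_Icc]
      exact ⟨⟨⟨hd1, hdz⟩, by omega, fun p hp hpd =>
        lt_of_le_of_lt hyy (hP p (hdP p hp hpd)).2⟩, hdv⟩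
  have hcard : (((sq P z).filter (fun d : ℕ => (d : ℤ) ∣ u * n + w)).card : ℝ) ≤
      1 + C * x ^ (1 / 4 : ℝ) := by
    have h2 := (card_le_card hsub).trans (card_insert_le _ _)
    have h1' := h1.trans (mul_le_mul_of_nonneg_left (Real.rpow_le_rpow (by positivity) hxle
      (by norm_num : (0 : ℝ) ≤ 1 / 4)) hC.le)
    have h3 : (((sq P z).filter (fun d : ℕ => (d : ℤ) ∣ u * n + w)).card : ℝ) ≤
        ((Pool.Agent.H442R2.BX.rd (((A * (2 * N) : ℕ) : ℝ) ^ (ε₁ / 2)) z (u * n + w)).card : ℝ) + 1 := by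
      exact_mod_cast h2
    linarith
  have hx4 : 1 ≤ x ^ (1 / 4 : ℝ) := Real.one_le_rpow hx1 (by norm_num)
  have hcard2 : (((sq P z).filter (fun d : ℕ => (d : ℤ) ∣ u * n + w)).card : ℝ) ≤
      (1 + C) * x ^ (1 / 4 : ℝ) := by linarith
  have hsq : (((sq P z).filter (fun d : ℕ => (d : ℤ) ∣ u * n + w)).card : ℝ) ^ 2 ≤
      (1 + C) ^ 2 * x := by
    have h4 := pow_le_pow_left₀ (Nat.cast_nonneg _) hcard2 2
    have h5 : ((1 + C) * x ^ (1 / 4 : ℝ)) ^ 2 = (1 + C) ^ 2 * x ^ (1 / 2 : ℝ) := by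
      rw [mul_pow, ← Real.rpow_natCast (x ^ (1 / 4 : ℝ)) 2, ← Real.rpow_mul (by linarith)]
      norm_num
    have h6 : x ^ (1 / 2 : ℝ) ≤ x := by
      conv_rhs => rw [← Real.rpow_one x]
      exact Real.rpow_le_rpow_of_exponent_le hx1 (by norm_num)
    rw [h5] at h4
    exact h4.trans (mul_le_mul_of_nonneg_left h6 (by positivity))
  have hW : 0 ≤ Pool.Agent.H442R2.KF.Wt (2 * N) n := (Real.exp_pos _).le
  have hg := (hGS (2 * N) (by omega)).1 n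
  have e4 : 2 * (2 * N) = 4 * N := by ring
  rw [e4] at hg
  calc Pool.Agent.H442R2.KF.Wt (2 * N) n *
        (((sq P z).filter (fun d : ℕ => (d : ℤ) ∣ u * n + w)).card : ℝ) ^ 2
      ≤ Pool.Agent.H442R2.KF.Wt (2 * N) n * ((1 + C) ^ 2 * x) := mul_le_mul_of_nonneg_left hsq hW
    _ = (1 + C) ^ 2 * (Pool.Agent.H442R2.KF.Wt (2 * N) n * x) := by ring
    _ ≤ (1 + C) ^ 2 * (2 * Pool.Agent.H442R2.KF.Wt (4 * N) n) :=
        mul_le_mul_of_nonneg_left hg (by positivity)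
    _ = 2 * (1 + C) ^ 2 * Pool.Agent.H442R2.KF.Wt (4 * N) n := by ring

/-- the primes of the rough weights -/
noncomputable def Pq (N z : ℕ) (ε₁ : ℝ) : Finset ℕ :=
  (Icc 1 z).filter (fun p => p.Prime ∧ ((2 * N : ℕ) : ℝ) ^ ε₁ < (p : ℝ))

theorem Pq_mem (N z : ℕ) (ε₁ : ℝ) (p : ℕ) :
    p ∈ Pq N z ε₁ ↔ p.Prime ∧ p ≤ z ∧ ((2 * N : ℕ) : ℝ) ^ ε₁ < (p : ℝ) := by
  unfold Pq
  rw [Finset.mem_filter, Finset.mem_Icc]
  constructor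
  · rintro ⟨⟨h1, h2⟩, h3, h4⟩
    exact ⟨h3, h2, h4⟩
  · rintro ⟨h1, h2, h3⟩
    exact ⟨⟨h1.one_lt.le, h2⟩, h1, h3⟩

/-- the data at `N` -/
structure Dta (U : ℕ) (ε₀ ε₁ η₀ ε M C1 : ℝ) (N B D₁ z : ℕ) (th dl b : ℕ → ℝ) : Prop where
  D1e : D₁ = ⌊((2 * N : ℕ) : ℝ) ^ η₀⌋₊
  D1 : 1 ≤ D₁
  e12 : ε₁ ≤ 1 / 2
  gd : ∀ p ∈ P1 (2 * N) B ε₁, p.Prime ∧ DB (2 * N) B < p ∧ (p : ℝ) ≤ ((2 * N : ℕ) : ℝ) ^ ε₁
  ne : (P1 (2 * N) B ε₁).Nonempty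
  Va : 1 / (Real.log N) ^ 2 ≤ Pool.Agent.W23.PL.VV (P1 (2 * N) B ε₁)
  V1 : Pool.Agent.W23.PL.VV (P1 (2 * N) B ε₁) ≤ 1
  G1 : 1 ≤ GG (Pq N z ε₁) z
  G2 : GG (Pq N z ε₁) z ≤ (Real.log N) ^ 2
  vg : Pool.Agent.W23.PL.VV (P1 (2 * N) B ε₁) / GG (Pq N z ε₁) z *
    (BD (DB (2 * N) B) * Real.log N) * ((1 / 4 + ε₀ / 8) * (1 - ε)) ≤ 1
  dth : DW (P1 (2 * N) B ε₁) D₁ (Real.log (2 * N : ℕ)) th
  ddl : DW (P1 (2 * N) B ε₁) D₁ (Real.log (2 * N : ℕ)) dl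
  fl : ∀ m : ℤ, xx (P1 (2 * N) B ε₁) m ≤ Ev th D₁ m ∧
    Ev th D₁ m - xx (P1 (2 * N) B ε₁) m ≤ Ev dl D₁ m
  hth : |hat th D₁ - Pool.Agent.W23.PL.VV (P1 (2 * N) B ε₁)| ≤
    ε₁ ^ 3 * Pool.Agent.W23.PL.VV (P1 (2 * N) B ε₁)
  hdl : |hat dl D₁| ≤ ε₁ ^ 3 * Pool.Agent.W23.PL.VV (P1 (2 * N) B ε₁)
  z1 : 1 ≤ z
  z2 : ((z ^ 2 : ℕ) : ℝ) ≤ ((2 * N : ℕ) : ℝ) ^ (1 / 2 + ε₀ / 4)
  z5 : z ^ 2 ≤ 2 * N
  bM : RCM ∅ (((2 * N : ℕ) : ℝ) ^ ε₁) (z ^ 2) M b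
  bn : ∀ m : ℤ, 0 ≤ ds b (z ^ 2) m
  bo : ∀ m : ℤ, (∀ p ∈ Pq N z ε₁, ¬ (p : ℤ) ∣ m) → ds b (z ^ 2) m = 1
  bs : ∑ d ∈ Icc 1 (z ^ 2), b d / d = 1 / GG (Pq N z ε₁) z
  rcb : ∀ u w n : ℤ, |u| ≤ U → |(w : ℝ)| ≤ U * (2 * N) → u * n + w ≠ 0 →
    Wt (2 * N) n * ds b (z ^ 2) (u * n + w) ≤ C1 * Wt (4 * N) n

theorem dta (hFLC : St_FLC2) (hSEL : St_SEL) (hVG : St_VG) (hSUM : St_SUM) (hRCB : St_RCBG)
    (hVLN : St_VLNF) (ε₀ η₀ : ℝ) (he0 : 0 < ε₀) (he0' : ε₀ ≤ 1 / 100) (hη0 : 0 < η₀) :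
    ∃ εs : ℝ, 0 < εs ∧ ∀ ε₁ : ℝ, 0 < ε₁ → ε₁ ≤ εs → ∃ C1 : ℝ, 1 ≤ C1 ∧ ∀ (ε : ℝ) (B U : ℕ),
      0 < ε → ε < 1 / 3 → 6 ≤ B → 1 ≤ U → ∀ᶠ N : ℕ in atTop, ∃ (D₁ z : ℕ) (th dl b : ℕ → ℝ),
        Dta U ε₀ ε₁ η₀ ε (3 ^ ⌈2 / ε₁⌉₊) C1 N B D₁ z th dl b := by
  obtain ⟨εf, hεf, hFL⟩ := hFLC η₀ hη0
  refine ⟨min εf (1 / 2), lt_min hεf (by norm_num), ?_⟩
  intro ε₁ h1 h1'
  have h1f : ε₁ ≤ εf := h1'.trans (min_le_left _ _)
  have h12 : ε₁ ≤ 1 / 2 := h1'.trans (min_le_right _ _)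
  obtain ⟨C1, hC1, hRC⟩ := hRCB ε₁ h1 (by linarith)
  refine ⟨C1, hC1, ?_⟩
  intro ε B U hε hε3 hB6 hU
  have eS := hSUM ⟨1, 1 / 2, 1, le_rfl, by norm_num, by norm_num, by norm_num, by norm_num⟩ 1 ε
    (1 / 16) (1 / 8) 1 B hε (by norm_num) (by norm_num) (by omega)
  have eV := hVLN 0 B 2 ε₁ 1 (by omega) (by norm_num) h1 (by linarith) (by norm_num)
  obtain ⟨N2, hFL2⟩ := hFL ε₁ h1 h1f B hB6
  have egrow := Pool.Agent.W89.UBMAS.grow B ε₁ 4 h1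
  filter_upwards [eS, eV, hRC U hU, zf_ev ε₀ he0 he0', eventually_ge_atTop N2,
    eventually_ge_atTop 64, evlog 4, egrow] with N hS hV hRc hZ hN2 hN64 hl4 hgr
  have hV := hV (fun i => i.elim0) (fun i => i.elim0) 0 (fun i => i.elim0) (fun i => i.elim0)
  obtain ⟨hVa, hVb, hVc, hVd, hVe, hVf, hVg, hVh⟩ := hV
  obtain ⟨hg1, hg2, hg3, hg4⟩ := hVg ∅
  rw [Finset.sdiff_empty] at hg1 hg2 hg3 hg4
  have hN1r : (64 : ℝ) ≤ N := by exact_mod_cast hN64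
  have hN0 : (0 : ℝ) < N := by linarith only [hN1r]
  have hc2 : ((2 * N : ℕ) : ℝ) = 2 * (N : ℝ) := by push_cast; ring
  have h2N : (1 : ℝ) < ((2 * N : ℕ) : ℝ) := by rw [hc2]; linarith only [hN1r]
  have h2N0 : (0 : ℝ) < ((2 * N : ℕ) : ℝ) := by linarith only [h2N]
  have hl0 : 0 < Real.log N := by linarith only [hl4]
  have hll : Real.log N ≤ Real.log ((2 * N : ℕ) : ℝ) :=
    Real.log_le_log hN0 (by rw [hc2]; linarith only [hN1r])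
  set z : ℕ := ⌊((2 * N : ℕ) : ℝ) ^ (1 / 4 + ε₀ / 8)⌋₊ with hz
  -- nonempty
  have hlB : 1 ≤ (Real.log ((2 * N : ℕ) : ℝ)) ^ B := one_le_pow₀ (by linarith)
  have hne : (P1 (2 * N) B ε₁).Nonempty := by
    have hDpos : DB (2 * N) B ≠ 0 := by
      intro h0
      have h3 := hVa
      omega
    obtain ⟨p, hp, hp1, hp2⟩ := Nat.exists_prime_lt_and_le_two_mul (DB (2 * N) B) hDpos
    refine ⟨p, hg2 p hp hp1 ?_ (Finset.notMem_empty _)⟩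
    have h3 : (p : ℝ) ≤ 2 * (DB (2 * N) B : ℝ) := by exact_mod_cast hp2
    linarith
  -- the fundamental lemma
  obtain ⟨th, dl, hth, hdl, hfl, hht, hhd⟩ := hFL2 (2 * N) (by omega)
    ⌊((2 * N : ℕ) : ℝ) ^ η₀⌋₊ rfl ∅ (by simp; positivity)
  rw [Finset.sdiff_empty] at hth hdl hht hhd
  simp only [Finset.sdiff_empty] at hfl
  -- Selberg weights
  have hPbm : ∀ p ∈ Pq N z ε₁, p.Prime ∧ p ≤ z ∧ ((2 * N : ℕ) : ℝ) ^ ε₁ < (p : ℝ) :=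
    fun p hp => (Pq_mem N z ε₁ p).1 hp
  obtain ⟨b, hb0, hbo, hbc, hb3, hbs, hbsum⟩ := hSEL (Pq N z ε₁) z hZ.one
    (fun p hp => (hPbm p hp).1)
  obtain ⟨hG1, hG2⟩ := hVh (Pq N z ε₁) z hZ.one
    (fun p hp => ⟨(hPbm p hp).1, (hPbm p hp).2.1.trans hZ.z4⟩)
  have hM1 : (1 : ℝ) ≤ 3 ^ ⌈2 / ε₁⌉₊ := one_le_pow₀ (by norm_num)
  have hbM : RCM ∅ (((2 * N : ℕ) : ℝ) ^ ε₁) (z ^ 2) (3 ^ ⌈2 / ε₁⌉₊) b := by
    have hsupp : ∀ d, b d ≠ 0 → 1 ≤ d ∧ d ≤ z ^ 2 ∧ ∀ p : ℕ, p.Prime → p ∣ d →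
        ((2 * N : ℕ) : ℝ) ^ ε₁ < (p : ℝ) ∧ p ∉ (∅ : Finset ℕ) := by
      intro d hd
      have h3 := hbs d hd
      obtain ⟨h3c, h3d, _, h3b⟩ := sq_mem _ _ _ h3
      refine ⟨h3c, h3d, fun p hp hpd => ?_⟩
      have h4 := hPbm p (h3b p hp hpd)
      exact ⟨h4.2.2, Finset.notMem_empty _⟩
    refine ⟨fun d => ?_, hsupp⟩
    by_cases hd : b d = 0
    · rw [hd, abs_zero]
      positivity
    · obtain ⟨s1, s2, s3⟩ := hsupp d hd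
      refine (hb3 d).trans ?_
      have h4 := omega_rough N d ε₁ (by omega) h1 s1 (s2.trans hZ.z5)
        (fun p hp hpd => (s3 p hp hpd).1)
      have h5 : (3 : ℝ) ^ d.primeFactors.card ≤ 3 ^ ⌈2 / ε₁⌉₊ :=
        pow_le_pow_right₀ (by norm_num) h4
      exact_mod_cast h5
  have hG0 : 0 < GG (Pq N z ε₁) z := by linarith only [hG1]
  -- the comparison
  have hdisj : Disjoint (Pq N z ε₁) (P1 (2 * N) B ε₁) := by
    rw [Finset.disjoint_left]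
    intro p hp hp'
    have h3 := (hPbm p hp).2.2
    have h4 := (hg1 p hp').2.2
    linarith only [h3, h4]
  have hDBe : (DB (2 * N) B : ℝ) < ((2 * N : ℕ) : ℝ) ^ ε₁ := by
    obtain ⟨p, hp⟩ := hne
    have h3 := hg1 p hp
    have h4 : (DB (2 * N) B : ℝ) < p := by exact_mod_cast h3.2.1
    exact h4.trans h3.2.2
  have hunp : ∀ p ∈ Pq N z ε₁ ∪ P1 (2 * N) B ε₁, p.Prime ∧ DB (2 * N) B < p := by
    intro p hp
    rw [Finset.mem_union] at hp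
    rcases hp with hp | hp
    · refine ⟨(hPbm p hp).1, ?_⟩
      have h3 : (DB (2 * N) B : ℝ) < p := hDBe.trans (hPbm p hp).2.2
      exact_mod_cast h3
    · exact ⟨(hg1 p hp).1, (hg1 p hp).2.1⟩
  obtain ⟨hvg1, hvg2⟩ := hVG (Pq N z ε₁) (P1 (2 * N) B ε₁) z hZ.one
    (fun p hp => (hunp p hp).1) hdisj
  have hS2 := (hS {⌊((2 * N : ℕ) : ℝ) ^ ε₁⌋₊}
    (Pq N z ε₁ ∪ P1 (2 * N) B ε₁) (by
      rw [Finset.card_singleton, Nat.cast_one]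
      linarith) hunp).2 z hZ.e8 hZ.z4 (by
      intro p hp1 hp2 hp3 hp4
      rw [Finset.mem_singleton] at hp4
      rw [Finset.mem_union]
      rcases lt_trichotomy (p : ℝ) (((2 * N : ℕ) : ℝ) ^ ε₁) with h3 | h3 | h3
      · right
        exact hg2 p hp1 hp2 h3 (Finset.notMem_empty _)
      · exact absurd (by rw [← h3, Nat.floor_natCast]) hp4
      · left
        rw [Pq_mem]
        exact ⟨hp1, hp3, h3⟩)
  have hbd0 : 0 < BD (DB (2 * N) B) := BD_pos _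
  have hVV0 : 0 ≤ Pool.Agent.W23.PL.VV (P1 (2 * N) B ε₁) / GG (Pq N z ε₁) z :=
    div_nonneg (le_trans (by positivity) hg3) hG0.le
  have hvg : Pool.Agent.W23.PL.VV (P1 (2 * N) B ε₁) / GG (Pq N z ε₁) z *
      (BD (DB (2 * N) B) * Real.log N) * ((1 / 4 + ε₀ / 8) * (1 - ε)) ≤ 1 := by
    set S := SS (Pq N z ε₁ ∪ P1 (2 * N) B ε₁) h0 1 (Real.log z) (fun _ => 1) with hSd'
    have h3 : (BD (DB (2 * N) B) * Real.log N) * ((1 / 4 + ε₀ / 8) * (1 - ε)) ≤ S := by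
      calc (BD (DB (2 * N) B) * Real.log N) * ((1 / 4 + ε₀ / 8) * (1 - ε)) =
            BD (DB (2 * N) B) * ((1 / 4 + ε₀ / 8) * Real.log N) * (1 - ε) := by
            ring
        _ ≤ BD (DB (2 * N) B) * Real.log z * (1 - ε) := by
            have h4 := hZ.lg
            have h5 : 0 ≤ 1 - ε := by linarith only [hε3]
            gcongr
        _ ≤ S := hS2
    have h5 : 0 < S := hvg2
    calc Pool.Agent.W23.PL.VV (P1 (2 * N) B ε₁) / GG (Pq N z ε₁) z *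
        (BD (DB (2 * N) B) * Real.log N) * ((1 / 4 + ε₀ / 8) * (1 - ε)) =
          Pool.Agent.W23.PL.VV (P1 (2 * N) B ε₁) / GG (Pq N z ε₁) z *
          ((BD (DB (2 * N) B) * Real.log N) * ((1 / 4 + ε₀ / 8) * (1 - ε))) := by ring
      _ ≤ Pool.Agent.W23.PL.VV (P1 (2 * N) B ε₁) / GG (Pq N z ε₁) z * S := by gcongr
      _ ≤ (1 / S) * S := by
          have h4 : Pool.Agent.W23.PL.VV (P1 (2 * N) B ε₁) / GG (Pq N z ε₁) z ≤ 1 / S := hvg1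
          gcongr
      _ = 1 := by field_simp
  have hWt : ∀ (X : ℕ) (n : ℤ), 0 ≤ Wt X n := fun X n => (Real.exp_pos _).le
  have hD1 : 1 ≤ ⌊((2 * N : ℕ) : ℝ) ^ η₀⌋₊ := by
    apply Nat.le_floor
    rw [Nat.cast_one]
    exact Real.one_le_rpow h2N.le hη0.le
  refine ⟨⌊((2 * N : ℕ) : ℝ) ^ η₀⌋₊, z, th, dl, b, ?_⟩
  exact {
    D1e := rfl
    D1 := hD1
    e12 := h12
    gd := fun p hp => ⟨(hg1 p hp).1, (hg1 p hp).2.1, (hg1 p hp).2.2.le⟩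
    ne := hne
    Va := hg3
    V1 := hg4
    G1 := hG1
    G2 := hG2
    vg := hvg
    dth := hth
    ddl := hdl
    fl := hfl
    hth := hht
    hdl := hhd
    z1 := hZ.one
    z2 := hZ.z2
    z5 := hZ.z5
    bM := hbM
    bn := hb0
    bo := hbo
    bs := hbsum
    rcb := by
      intro u w n hu hw hLf
      have h4 := hRc (Pq N z ε₁) z (fun p hp => ⟨(hPbm p hp).1, (hPbm p hp).2.2⟩)
        u w n hu hw hLf
      have h5 := hbc (u * n + w)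
      exact le_trans (mul_le_mul_of_nonneg_left h5 (hWt _ _)) h4 }

end Q157.LG
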