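import Pool.Agent.Q157.LG.Sys

set_option autoImplicit false

namespace Q157.LG

open Finset Filter

open Classical in
theorem hitS_mono {T : ℕ} {a b : Fin T → ℤ} {R : ℝ} {K I : Finset (Fin T)} (h : K ⊆ I) {n : ℤ}
    (hn : hitS a b R I n) : hitS a b R K n := fun i hi => hn i (h hi)

open Classical in
/-- pigeonhole over the shifts -/
theorem fixS {T : ℕ} (a b : Fin T → ℤ) (R : ℝ) (hR : 0 ≤ R) (K : Finset (Fin T)) :
    ∀ S : Finset ℤ, ∃ s : Fin T → ℕ, (∀ i, (s i : ℝ) ≤ R) ∧
      ((S.filter (fun n => hitS a b R K n)).card : ℝ) ≤ (R + 1) ^ K.card *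
        ((S.filter (fun n => ∀ i ∈ K, ((a i * n + b i + s i).toNat).Prime)).card : ℝ) := by
  induction K using Finset.induction_on with
  | empty =>
    intro S
    refine ⟨fun _ => 0, fun i => by simpa using hR, ?_⟩
    simp [hitS]
  | insert k K hk ih =>
    intro S
    -- the sets with the `k`-th shift fixed
    set F : ℕ → Finset ℤ := fun t => S.filter (fun n => ((a k * n + b k + t).toNat).Prime) with hF
    have hcover : S.filter (fun n => hitS a b R (insert k K) n) ⊆
        (range (⌊R⌋₊ + 1)).biUnion (fun t => (F t).filter (fun n => hitS a b R K n)) := by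
      intro n hn
      rw [mem_filter] at hn
      obtain ⟨s, hs, p, hp, hpe⟩ := hn.2 k (mem_insert_self k K)
      rw [mem_biUnion]
      refine ⟨s, ?_, ?_⟩
      · rw [mem_range]
        have := Nat.le_floor hs
        omega
      · rw [mem_filter, hF]
        simp only [mem_filter]
        refine ⟨⟨hn.1, ?_⟩, hitS_mono (subset_insert k K) hn.2⟩
        rw [← hpe]
        simpa using hp
    -- choose the best shift
    obtain ⟨t, ht, htmax⟩ := exists_max_image (range (⌊R⌋₊ + 1))
      (fun t => ((F t).filter (fun n => hitS a b R K n)).card) ⟨0, by simp⟩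
    obtain ⟨s, hs, hcard⟩ := ih (F t)
    have htR : (t : ℝ) ≤ R := by
      rw [mem_range] at ht
      have : t ≤ ⌊R⌋₊ := by omega
      exact (Nat.le_floor_iff hR).1 this
    refine ⟨Function.update s k t, ?_, ?_⟩
    · intro i
      by_cases h : i = k
      · rw [h, Function.update_self]; exact htR
      · rw [Function.update_of_ne h]; exact hs i
    · have h1 : (S.filter (fun n => hitS a b R (insert k K) n)).card ≤
          (⌊R⌋₊ + 1) * ((F t).filter (fun n => hitS a b R K n)).card := by
        refine (card_le_card hcover).trans (card_biUnion_le.trans ?_)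
        refine (sum_le_sum fun u hu => htmax u hu).trans ?_
        rw [sum_const, card_range, smul_eq_mul]
      have h2 : ((F t).filter (fun n => ∀ i ∈ K, ((a i * n + b i + s i).toNat).Prime)) ⊆
          S.filter (fun n => ∀ i ∈ insert k K,
            ((a i * n + b i + (Function.update s k t) i).toNat).Prime) := by
        intro n hn
        rw [mem_filter, hF] at hn
        simp only [mem_filter] at hn
        rw [mem_filter]
        refine ⟨hn.1.1, ?_⟩
        intro i hi
        rw [mem_insert] at hi
        rcases hi with rfl | hi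
        · rw [Function.update_self]
          exact hn.1.2
        · have hne : i ≠ k := fun h => hk (h ▸ hi)
          rw [Function.update_of_ne hne]
          exact hn.2 i hi
      have h3 : ((⌊R⌋₊ + 1 : ℕ) : ℝ) ≤ R + 1 := by
        push_cast
        linarith [Nat.floor_le hR]
      rw [card_insert_of_notMem hk, pow_succ]
      calc ((S.filter (fun n => hitS a b R (insert k K) n)).card : ℝ)
          ≤ ((⌊R⌋₊ + 1 : ℕ) : ℝ) * (((F t).filter (fun n => hitS a b R K n)).card : ℝ) := by
            exact_mod_cast h1
        _ ≤ (R + 1) * ((R + 1) ^ K.card *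
            (((F t).filter (fun n => ∀ i ∈ K, ((a i * n + b i + s i).toNat).Prime)).card : ℝ)) := by
            gcongr
        _ ≤ (R + 1) * ((R + 1) ^ K.card * ((S.filter (fun n => ∀ i ∈ insert k K,
            ((a i * n + b i + (Function.update s k t) i).toNat).Prime)).card : ℝ)) := by
            gcongr
        _ = _ := by ring

end Q157.LG
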