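import Pool.Agent.Q157.LG.Fix
import Pool.Agent.Q157.LG.Cntg

/-! The Goldbach and Polignac graph of the scale `log X`. -/

set_option autoImplicit false

namespace Q157.LG

open Finset Filter

/-- at least `δ log X` of the `h ∈ (d, d + C log X]` are differences of at least
`δ h / φ(h) · X / log² X` pairs of primes up to `X` -/
def GoodDiff (C : ℕ) (δ : ℝ) (X d : ℕ) : Prop :=
  δ * Real.log X ≤ (((Icc (d + 1) (d + C * ⌈Real.log X⌉₊)).filter (fun h : ℕ =>
    δ * ((h : ℝ) / (Nat.totient h : ℝ) * (X / (Real.log X) ^ 2)) ≤ pairs h X)).card : ℝ)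

/-- at least `δ log X` of the `m ∈ [t, t + C log X]` have at least
`δ m / φ(m) · m / log² m` representations as sums of two primes -/
def GoodSum (C : ℕ) (δ : ℝ) (X t : ℕ) : Prop :=
  δ * Real.log X ≤ (((Icc t (t + C * ⌈Real.log X⌉₊)).filter (fun m : ℕ =>
    δ * ((m : ℝ) / (Nat.totient m : ℝ) * (m / (Real.log m) ^ 2)) ≤ r2 m)).card : ℝ)

theorem one_le_ratio (m : ℕ) (hm : 1 ≤ m) : 1 ≤ (m : ℝ) / (Nat.totient m : ℝ) := by
  have h1 : (0 : ℝ) < Nat.totient m := by exact_mod_cast Nat.totient_pos.2 (by omega)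
  rw [one_le_div h1]
  exact_mod_cast Nat.totient_le m

/-- two indices in one set of positive probability -/
theorem two_of_four (P : Finset (Fin 4) → ℝ) (c₀ : ℝ) (hc₀ : 0 < c₀) (hP0 : ∀ I, 0 ≤ P I)
    (hP1 : ∑ I, P I = 1) (hPi : ∀ i, 1 / 4 + c₀ ≤ ∑ I with i ∈ I, P I) :
    ∃ I, 0 < P I ∧ ∃ i ∈ I, ∃ j ∈ I, i ≠ j := by
  classical
  by_contra hcon
  push Not at hcon
  have h1 : ∀ I, P I * (I.card : ℝ) ≤ P I * 1 := by
    intro I
    rcases (hP0 I).eq_or_lt with h0 | h0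
    · rw [← h0]; simp
    · have h2 : I.card ≤ 1 := by
        rw [card_le_one]
        intro i hi j hj
        exact hcon I h0 i hi j hj
      have h3 : (I.card : ℝ) ≤ 1 := by exact_mod_cast h2
      gcongr
  have h2 : ∑ i : Fin 4, ∑ I with i ∈ I, P I = ∑ I, P I * (I.card : ℝ) := by
    simp_rw [sum_filter]
    rw [sum_comm]
    refine sum_congr rfl fun I _ => ?_
    rw [← sum_filter, sum_const, nsmul_eq_mul, mul_comm]
    congr 2
    simp
  have h3 : (4 : ℝ) * (1 / 4 + c₀) ≤ ∑ i : Fin 4, ∑ I with i ∈ I, P I := by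
    have := sum_le_sum fun i (_ : i ∈ (univ : Finset (Fin 4))) => hPi i
    rw [sum_const, nsmul_eq_mul, card_univ, Fintype.card_fin] at this
    exact_mod_cast this
  have h4 : ∑ I, P I * (I.card : ℝ) ≤ 1 := by
    refine (sum_le_sum fun I _ => h1 I).trans ?_
    rw [← sum_mul, hP1, one_mul]
  rw [h2] at h3
  linarith

/-- the rank of `x` in `S` -/
def rk (S : Finset ℕ) (x : ℕ) : ℕ := (S.filter (fun y => y < x)).card

theorem rk_lt {S : Finset ℕ} {x y : ℕ} (hx : x ∈ S) (hxy : x < y) : rk S x + 1 ≤ rk S y := by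
  unfold rk
  have h1 : insert x (S.filter (fun z => z < x)) ⊆ S.filter (fun z => z < y) := by
    intro z hz
    rw [mem_insert, mem_filter] at hz
    rw [mem_filter]
    rcases hz with rfl | hz
    · exact ⟨hx, hxy⟩
    · exact ⟨hz.1, hz.2.trans hxy⟩
  have h2 := card_le_card h1
  rwa [card_insert_of_notMem (by simp)] at h2

theorem rk_le (S : Finset ℕ) (x : ℕ) : rk S x ≤ S.card := card_filter_le _ _

/-- the differences -/
theorem fin_diff (C₁ : ℕ) (δ₁ : ℝ) (hδ₁ : 0 < δ₁) : ∃ δ : ℝ, 0 < δ ∧ ∀ δ' : ℝ, δ' ≤ δ →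
    ∀ᶠ X : ℕ in atTop, ∀ (u β β' x y : ℤ) (d D R : ℕ),
    R = ⌊(C₁ + 1) * Real.log X⌋₊ → u ≠ 0 → β' - β = D → d + R + 1 ≤ D → D ≤ d + 5 * (R + 1) →
    D ≤ 2 * X →
    (∀ n : ℤ, x ≤ n → n ≤ y → u * n + β + R ≤ X) → ∀ S : Finset ℤ, S ⊆ Icc x y →
    (∀ n ∈ S, ∃ s : ℕ, s ≤ R ∧ ∃ p : ℕ, p.Prime ∧ (p : ℤ) = u * n + β + s) →
    (∀ n ∈ S, ∃ s : ℕ, s ≤ R ∧ ∃ p : ℕ, p.Prime ∧ (p : ℤ) = u * n + β' + s) →
    δ₁ * X ≤ (S.card : ℝ) → GoodDiff (8 * (C₁ + 2)) δ' X d := by
  obtain ⟨C₂, hC₂, hup⟩ := pairs_up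
  obtain ⟨K, hK, hwin⟩ := win4
  set K₂ : ℝ := K * (2 * C₁ + 3) with hK₂
  have hK₂0 : 0 < K₂ := by positivity
  set δ₂ : ℝ := δ₁ / (C₁ + 2) with hδ₂
  have hδ₂0 : 0 < δ₂ := by positivity
  refine ⟨min (δ₂ ^ 2 / (4 * C₂ ^ 2 * K₂)) (δ₂ / (2 * K₂)), lt_min (by positivity) (by positivity), ?_⟩
  intro δ' hδ'
  have hlog : ∀ᶠ X : ℕ in atTop, (1 : ℝ) ≤ Real.log X :=
    (Real.tendsto_log_atTop.comp tendsto_natCast_atTop_atTop).eventually_ge_atTop 1
  have hsmall : ∀ᶠ X : ℕ in atTop, 2 * ((C₁ : ℝ) + 1) * Real.log X + 2 ≤ X := by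
    have h1 := (Real.isLittleO_log_id_atTop.bound (show (0 : ℝ) < 1 / (4 * ((C₁ : ℝ) + 1)) by positivity))
    have h2 := tendsto_natCast_atTop_atTop (R := ℝ) |>.eventually h1
    filter_upwards [h2, hlog, eventually_ge_atTop 4] with X h3 h4 h5
    have h6 : (4 : ℝ) ≤ X := by exact_mod_cast h5
    rw [Real.norm_of_nonneg (by linarith), id, Real.norm_of_nonneg (by linarith)] at h3
    have h7 : 2 * ((C₁ : ℝ) + 1) * Real.log X ≤ 2 * ((C₁ : ℝ) + 1) * (1 / (4 * ((C₁ : ℝ) + 1)) * X) := by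
      gcongr
    have h8 : 2 * ((C₁ : ℝ) + 1) * (1 / (4 * ((C₁ : ℝ) + 1)) * X) = X / 2 := by
      field_simp
      ring
    linarith
  filter_upwards [hwin, hlog, hsmall, eventually_ge_atTop 8] with X hwX hlX hsX hX8
  intro u β β' x y d D R hR hu hD hdD hDd hDX hval S hS h1 h2 hcard
  have hX0 : (0 : ℝ) < X := by
    have : 0 < X := by omega
    exact_mod_cast this
  have hC0 : (0 : ℝ) ≤ C₁ := Nat.cast_nonneg C₁
  have hRle : (R : ℝ) ≤ (C₁ + 1) * Real.log X := by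
    rw [hR]; exact Nat.floor_le (by positivity)
  have hRge : (C₁ + 1) * Real.log X < R + 1 := by
    rw [hR]; exact Nat.lt_floor_add_one _
  have hcount := diff_count u β β' x y R D X hu hD (by omega) hval S hS h1 h2
  set I := Icc (D - R) (D + R) with hI
  have hI' : I = Ico (D - R) ((D - R) + (2 * R + 1)) := by
    ext h
    rw [hI, mem_Icc, mem_Ico]
    omega
  have hdense := dense I (fun h => (h : ℝ) / (Nat.totient h : ℝ)) (fun h => (pairs h X : ℝ)) C₂ K₂
    δ₂ (X / (Real.log X) ^ 2) (Real.log X) hC₂ hK₂0 hδ₂0 (by positivity) (by linarith)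
    (by
      intro m hm
      rw [hI, mem_Icc] at hm
      exact one_le_ratio m (by omega))
    (by
      intro m hm
      rw [hI, mem_Icc] at hm
      exact hup m X (by omega) (by omega))
    (by
      rw [hI']
      refine (hwX (D - R) (2 * R + 1) (by omega) ?_ ?_).trans ?_
      · push_cast
        nlinarith
      · have h3 : (R : ℝ) + 1 ≤ X := by
          have : (0 : ℝ) ≤ Real.log X := by linarith
          nlinarith
        have h4 : R + 1 ≤ X := by exact_mod_cast h3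
        have h5 : D - R + (2 * R + 1) ≤ 3 * X := by omega
        refine h5.trans ?_
        rw [sq]
        exact Nat.mul_le_mul_right X (by omega)
      · push_cast
        rw [hK₂]
        have : 2 * (R : ℝ) + 1 ≤ (2 * C₁ + 3) * Real.log X := by nlinarith
        calc K * (2 * (R : ℝ) + 1) ≤ K * ((2 * C₁ + 3) * Real.log X) := by gcongr
          _ = _ := by ring)
    (by
      have h3 : δ₁ * X ≤ ((R : ℝ) + 1) * ∑ h ∈ I, (pairs h X : ℝ) := by
        refine hcard.trans ?_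
        exact_mod_cast hcount
      have h4 : 0 ≤ ∑ h ∈ I, (pairs h X : ℝ) := sum_nonneg fun _ _ => Nat.cast_nonneg _
      have h5 : ((R : ℝ) + 1) ≤ (C₁ + 2) * Real.log X := by nlinarith
      have h6 : δ₁ * X ≤ ((C₁ + 2) * Real.log X) * ∑ h ∈ I, (pairs h X : ℝ) := by
        refine h3.trans ?_
        gcongr
      have h7 : δ₂ * (X / Real.log X ^ 2) * Real.log X = δ₁ * X / ((C₁ + 2) * Real.log X) := by
        rw [hδ₂]
        have : Real.log X ≠ 0 := by
          intro h; linarith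
        field_simp
      rw [h7, div_le_iff₀ (by positivity)]
      linarith)
  unfold GoodDiff
  calc δ' * Real.log X ≤ δ₂ ^ 2 / (4 * C₂ ^ 2 * K₂) * Real.log X := by
        have := hδ'.trans (min_le_left _ _)
        gcongr
    _ ≤ _ := hdense
    _ ≤ _ := by
        rw [Nat.cast_le]
        apply card_le_card
        intro h hh
        rw [mem_filter] at hh ⊢
        obtain ⟨hh1, hh2⟩ := hh
        rw [hI, mem_Icc] at hh1
        refine ⟨?_, ?_⟩
        · rw [mem_Icc]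
          refine ⟨by omega, ?_⟩
          have h3 : R + 1 ≤ (C₁ + 2) * ⌈Real.log X⌉₊ := by
            have h4 : Real.log X ≤ ⌈Real.log X⌉₊ := Nat.le_ceil _
            have h5 : ((R + 1 : ℕ) : ℝ) ≤ (((C₁ + 2) * ⌈Real.log X⌉₊ : ℕ) : ℝ) := by
              push_cast
              nlinarith
            exact_mod_cast h5
          have h4 : 8 * (C₁ + 2) * ⌈Real.log X⌉₊ = 8 * ((C₁ + 2) * ⌈Real.log X⌉₊) := by ring
          rw [h4]
          omega
        · refine le_trans ?_ hh2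
          have h3 : 0 ≤ (h : ℝ) / (Nat.totient h : ℝ) * (X / (Real.log X) ^ 2) := by positivity
          have h4 := hδ'.trans (min_le_right _ _)
          gcongr

/-- the sums -/
theorem fin_sum (C₁ : ℕ) (δ₁ : ℝ) (hδ₁ : 0 < δ₁) : ∃ δ : ℝ, 0 < δ ∧ ∀ δ' : ℝ, 0 < δ' → δ' ≤ δ →
    ∀ᶠ X : ℕ in atTop, ∀ (α β : ℤ) (t E R : ℕ),
    R = ⌊(C₁ + 1) * Real.log X⌋₊ → α + β = E → X ≤ 4 * t → t ≤ X → t ≤ E → E ≤ t + 4 * (R + 1) →
    ∀ S : Finset ℤ,
    (∀ n ∈ S, ∃ s : ℕ, s ≤ R ∧ ∃ p : ℕ, p.Prime ∧ (p : ℤ) = 1 * n + β + s) →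
    (∀ n ∈ S, ∃ s : ℕ, s ≤ R ∧ ∃ p : ℕ, p.Prime ∧ (p : ℤ) = -1 * n + α + s) →
    δ₁ * X ≤ (S.card : ℝ) → GoodSum (8 * (C₁ + 2)) δ' X t := by
  obtain ⟨C₃, hC₃, hup⟩ := gold_up
  obtain ⟨K, hK, hwin⟩ := win4
  set C₂ : ℝ := 8 * C₃ with hC₂d
  have hC₂ : 0 < C₂ := by positivity
  set K₂ : ℝ := K * (2 * C₁ + 3) with hK₂
  have hK₂0 : 0 < K₂ := by positivity
  set δ₂ : ℝ := δ₁ / (C₁ + 2) with hδ₂
  have hδ₂0 : 0 < δ₂ := by positivity
  refine ⟨min (δ₂ ^ 2 / (4 * C₂ ^ 2 * K₂)) (δ₂ / (2 * K₂) / 8), lt_min (by positivity) (by positivity), ?_⟩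
  intro δ' hδ'0 hδ'
  have hlog : ∀ᶠ X : ℕ in atTop, (1 : ℝ) ≤ Real.log X :=
    (Real.tendsto_log_atTop.comp tendsto_natCast_atTop_atTop).eventually_ge_atTop 1
  have hsmall : ∀ᶠ X : ℕ in atTop, 8 * ((C₁ : ℝ) + 1) * Real.log X + 8 ≤ X := by
    have h1 := (Real.isLittleO_log_id_atTop.bound (show (0 : ℝ) < 1 / (16 * ((C₁ : ℝ) + 1)) by positivity))
    have h2 := tendsto_natCast_atTop_atTop (R := ℝ) |>.eventually h1
    filter_upwards [h2, hlog, eventually_ge_atTop 16] with X h3 h4 h5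
    have h6 : (16 : ℝ) ≤ X := by exact_mod_cast h5
    rw [Real.norm_of_nonneg (by linarith), id, Real.norm_of_nonneg (by linarith)] at h3
    have h7 : 8 * ((C₁ : ℝ) + 1) * Real.log X ≤ 8 * ((C₁ : ℝ) + 1) * (1 / (16 * ((C₁ : ℝ) + 1)) * X) := by
      gcongr
    have h8 : 8 * ((C₁ : ℝ) + 1) * (1 / (16 * ((C₁ : ℝ) + 1)) * X) = X / 2 := by
      field_simp
      ring
    linarith
  filter_upwards [hwin, hlog, hsmall, eventually_ge_atTop 16] with X hwX hlX hsX hX8
  intro α β t E R hR hE htX htX' htE hEt S h1 h2 hcard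
  have hX0 : (0 : ℝ) < X := by
    have : 0 < X := by omega
    exact_mod_cast this
  have hC0 : (0 : ℝ) ≤ C₁ := Nat.cast_nonneg C₁
  have hRle : (R : ℝ) ≤ (C₁ + 1) * Real.log X := by
    rw [hR]; exact Nat.floor_le (by positivity)
  have hRge : (C₁ + 1) * Real.log X < R + 1 := by
    rw [hR]; exact Nat.lt_floor_add_one _
  have hRX : 8 * (R + 1) ≤ X := by
    have : ((8 * (R + 1) : ℕ) : ℝ) ≤ X := by
      push_cast
      nlinarith
    exact_mod_cast this
  have hcount := sum_count α β R E hE S h1 h2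
  set I := Icc E (E + 2 * R) with hI
  have hI' : I = Ico E (E + (2 * R + 1)) := by
    ext h
    rw [hI, mem_Icc, mem_Ico]
    omega
  -- comparison of `m / log² m` and `X / log² X`
  have hcomp : ∀ m ∈ I, (m : ℝ) / (Real.log m) ^ 2 ≤ 8 * (X / (Real.log X) ^ 2) := by
    intro m hm
    rw [hI, mem_Icc] at hm
    have h3 : m ≤ 2 * X := by omega
    have h4 : X ≤ 4 * m := by omega
    have h3' : (m : ℝ) ≤ 2 * X := by exact_mod_cast h3
    have h4' : (X : ℝ) ≤ 4 * m := by exact_mod_cast h4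
    have h5 : Real.log X / 2 ≤ Real.log m := by
      have h6 : (X : ℝ) ≤ (m : ℝ) ^ 2 := by
        have h7 : (16 : ℝ) ≤ X := by exact_mod_cast hX8
        nlinarith
      have h7 := Real.log_le_log hX0 h6
      rw [Real.log_pow] at h7
      push_cast at h7
      linarith
    have h6 : 0 < Real.log X / 2 := by linarith
    calc (m : ℝ) / (Real.log m) ^ 2 ≤ (2 * X) / (Real.log X / 2) ^ 2 := by gcongr
      _ = _ := by field_simp; ring
  have hdense := dense I (fun h => (h : ℝ) / (Nat.totient h : ℝ)) (fun h => (r2 h : ℝ)) C₂ K₂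
    δ₂ (X / (Real.log X) ^ 2) (Real.log X) hC₂ hK₂0 hδ₂0 (by positivity) (by linarith)
    (by
      intro m hm
      rw [hI, mem_Icc] at hm
      exact one_le_ratio m (by omega))
    (by
      intro m hm
      have hc := hcomp m hm
      rw [hI, mem_Icc] at hm
      have h3 := hup m (by omega)
      refine h3.trans ?_
      rw [hC₂d]
      calc C₃ * ((m : ℝ) / (Nat.totient m : ℝ)) ^ 2 * m / (Real.log m) ^ 2
          = C₃ * ((m : ℝ) / (Nat.totient m : ℝ)) ^ 2 * (m / (Real.log m) ^ 2) := by ring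
        _ ≤ C₃ * ((m : ℝ) / (Nat.totient m : ℝ)) ^ 2 * (8 * (X / (Real.log X) ^ 2)) := by gcongr
        _ = _ := by ring)
    (by
      rw [hI']
      refine (hwX E (2 * R + 1) (by omega) ?_ ?_).trans ?_
      · push_cast
        nlinarith
      · nlinarith
      · push_cast
        rw [hK₂]
        have : 2 * (R : ℝ) + 1 ≤ (2 * C₁ + 3) * Real.log X := by nlinarith
        calc K * (2 * (R : ℝ) + 1) ≤ K * ((2 * C₁ + 3) * Real.log X) := by gcongr
          _ = _ := by ring)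
    (by
      have h3 : δ₁ * X ≤ ((R : ℝ) + 1) * ∑ h ∈ I, (r2 h : ℝ) := by
        refine hcard.trans ?_
        exact_mod_cast hcount
      have h4 : 0 ≤ ∑ h ∈ I, (r2 h : ℝ) := sum_nonneg fun _ _ => Nat.cast_nonneg _
      have h5 : ((R : ℝ) + 1) ≤ (C₁ + 2) * Real.log X := by nlinarith
      have h6 : δ₁ * X ≤ ((C₁ + 2) * Real.log X) * ∑ h ∈ I, (r2 h : ℝ) := by
        refine h3.trans ?_
        gcongr
      have h7 : δ₂ * (X / Real.log X ^ 2) * Real.log X = δ₁ * X / ((C₁ + 2) * Real.log X) := by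
        rw [hδ₂]
        have : Real.log X ≠ 0 := by
          intro h; linarith
        field_simp
      rw [h7, div_le_iff₀ (by positivity)]
      linarith)
  unfold GoodSum
  calc δ' * Real.log X ≤ δ₂ ^ 2 / (4 * C₂ ^ 2 * K₂) * Real.log X := by
        have := hδ'.trans (min_le_left _ _)
        gcongr
    _ ≤ _ := hdense
    _ ≤ _ := by
        rw [Nat.cast_le]
        apply card_le_card
        intro h hh
        rw [mem_filter] at hh ⊢
        obtain ⟨hh1, hh2⟩ := hh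
        have hc := hcomp h hh1
        rw [hI, mem_Icc] at hh1
        refine ⟨?_, ?_⟩
        · rw [mem_Icc]
          refine ⟨by omega, ?_⟩
          have h3 : R + 1 ≤ (C₁ + 2) * ⌈Real.log X⌉₊ := by
            have h4 : Real.log X ≤ ⌈Real.log X⌉₊ := Nat.le_ceil _
            have h5 : ((R + 1 : ℕ) : ℝ) ≤ (((C₁ + 2) * ⌈Real.log X⌉₊ : ℕ) : ℝ) := by
              push_cast
              nlinarith
            exact_mod_cast h5
          have h4 : 8 * (C₁ + 2) * ⌈Real.log X⌉₊ = 8 * ((C₁ + 2) * ⌈Real.log X⌉₊) := by ring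
          rw [h4]
          omega
        · refine le_trans ?_ hh2
          have h4 := hδ'.trans (min_le_right _ _)
          calc δ' * ((h : ℝ) / (Nat.totient h : ℝ) * (h / (Real.log h) ^ 2))
              ≤ (δ₂ / (2 * K₂) / 8) * ((h : ℝ) / (Nat.totient h : ℝ) * (8 * (X / (Real.log X) ^ 2))) := by
                gcongr
            _ = _ := by ring

end Q157.LG
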