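import Pool.Agent.Q157.LG.Graph

/-! The Goldbach and Polignac graph has no independent set with four elements. -/

set_option autoImplicit false

namespace Q157.LG

open Finset Filter

theorem case_diff {X R x y : ℕ} {A A' : Finset ℕ} (hA' : A' ⊆ A) (hAc : A'.card ≤ 4)
    (hA : ∀ a ∈ A, 2 * a ≤ X) (hRX : 64 * (R + 1) ≤ X) (hxy : (y : ℤ) ≤ (X / 8 : ℕ)) (G : ℕ → Prop) (u : ℤ)
    (hu : u = 1 ∨ u = -1) (S : Finset ℤ) (hS : S ⊆ Icc (x : ℤ) y) (hx : 1 ≤ x)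
    (hdiff : ∀ (u β β' x y : ℤ) (d D : ℕ), u ≠ 0 → β' - β = D → d + R + 1 ≤ D →
      D ≤ d + 5 * (R + 1) → D ≤ 2 * X → (∀ n : ℤ, x ≤ n → n ≤ y → u * n + β + R ≤ X) →
      S ⊆ Icc x y →
      (∀ n ∈ S, ∃ s : ℕ, s ≤ R ∧ ∃ p : ℕ, p.Prime ∧ (p : ℤ) = u * n + β + s) →
      (∀ n ∈ S, ∃ s : ℕ, s ≤ R ∧ ∃ p : ℕ, p.Prime ∧ (p : ℤ) = u * n + β' + s) → G d)
    (a a' : ℕ) (ha : a ∈ A') (ha' : a' ∈ A') (hlt : a < a')
    (h1 : ∀ n ∈ S, ∃ s : ℕ, s ≤ R ∧ ∃ p : ℕ, p.Prime ∧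
      (p : ℤ) = u * n + ((a : ℤ) + ((R + 1 : ℕ) : ℤ) * (rk A' a : ℤ)) + s)
    (h2 : ∀ n ∈ S, ∃ s : ℕ, s ≤ R ∧ ∃ p : ℕ, p.Prime ∧
      (p : ℤ) = u * n + ((a' : ℤ) + ((R + 1 : ℕ) : ℤ) * (rk A' a' : ℤ)) + s) :
    G (a' - a) := by
  have hr := rk_lt ha hlt
  have hr4 := (rk_le A' a').trans hAc
  obtain ⟨q, hq⟩ := Nat.exists_eq_add_of_le hr
  obtain ⟨k, hk⟩ := Nat.exists_eq_add_of_lt hlt
  have ha2 := hA a (hA' ha)
  have ha2' := hA a' (hA' ha')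
  have hL : (R + 1) * (q + 1) ≤ 4 * (R + 1) := by
    have : q + 1 ≤ 4 := by omega
    calc (R + 1) * (q + 1) ≤ (R + 1) * 4 := Nat.mul_le_mul_left _ this
      _ = _ := by ring
  have hL' : R + 1 ≤ (R + 1) * (q + 1) := Nat.le_mul_of_pos_right _ (by omega)
  have hr4' : (R + 1) * rk A' a ≤ 4 * (R + 1) := by
    have : rk A' a ≤ 4 := by omega
    calc (R + 1) * rk A' a ≤ (R + 1) * 4 := Nat.mul_le_mul_left _ this
      _ = _ := by ring
  refine hdiff u _ _ x y (a' - a) ((a' - a) + (R + 1) * (q + 1)) (by rcases hu with h | h <;> omega)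
    ?_ (by omega) (by omega) (by omega) ?_ hS h1 h2
  · have h3 : ((a' - a : ℕ) : ℤ) = a' - a := by rw [Nat.cast_sub hlt.le]
    rw [hq]
    push_cast
    rw [h3]
    ring
  · intro n hn1 hn2
    have hβ : ((a : ℤ) + ((R + 1 : ℕ) : ℤ) * (rk A' a : ℤ)) = ((a + (R + 1) * rk A' a : ℕ) : ℤ) := by
      push_cast
      ring
    rw [hβ]
    have h3 : u * n ≤ (X / 8 : ℕ) := by
      rcases hu with h | h
      · rw [h, one_mul]; exact hn2.trans hxy
      · rw [h]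
        have : (0 : ℤ) ≤ (X / 8 : ℕ) := Nat.cast_nonneg _
        omega
    have h4 : ((X / 8 : ℕ) : ℤ) + ((a + (R + 1) * rk A' a : ℕ) : ℤ) + (R : ℤ) ≤ X := by
      have : X / 8 + (a + (R + 1) * rk A' a) + R ≤ X := by omega
      exact_mod_cast this
    linarith

theorem graph : ∃ (C : ℕ) (δ : ℝ), 0 < δ ∧ ∀ᶠ X : ℕ in atTop, ∀ A B : Finset ℕ,
    (∀ a ∈ A, X ≤ 4 * a ∧ 2 * a ≤ X) → (∀ b ∈ B, 2 * b ≤ X) → 4 ≤ A.card + B.card →
    (∃ b ∈ B, ∃ b' ∈ B, b < b' ∧ GoodDiff C δ X (b' - b)) ∨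
    (∃ a ∈ A, ∃ a' ∈ A, a < a' ∧ GoodDiff C δ X (a' - a)) ∨
    (∃ a ∈ A, ∃ b ∈ B, GoodSum C δ X (a + b)) := by
  classical
  obtain ⟨c₀, hc₀, hsys⟩ := sys
  obtain ⟨C₁, δ₁, hδ₁, hsys⟩ := hsys 4 1 (1 / 32) le_rfl (by norm_num)
  obtain ⟨δa, hδa, hdiff⟩ := fin_diff C₁ δ₁ hδ₁
  obtain ⟨δb, hδb, hsum⟩ := fin_sum C₁ δ₁ hδ₁
  have hδ : 0 < min δa δb := lt_min hδa hδb
  refine ⟨8 * (C₁ + 2), min δa δb, hδ, ?_⟩
  have hlog : ∀ᶠ X : ℕ in atTop, (1 : ℝ) ≤ Real.log X :=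
    (Real.tendsto_log_atTop.comp tendsto_natCast_atTop_atTop).eventually_ge_atTop 1
  have hsmall : ∀ᶠ X : ℕ in atTop, 64 * (⌊(C₁ + 1) * Real.log X⌋₊ + 1) ≤ X := by
    have h1 := (Real.isLittleO_log_id_atTop.bound (show (0 : ℝ) < 1 / (128 * ((C₁ : ℝ) + 1)) by positivity))
    have h2 := tendsto_natCast_atTop_atTop (R := ℝ) |>.eventually h1
    filter_upwards [h2, hlog, eventually_ge_atTop 128] with X h3 h4 h5
    have h6 : (128 : ℝ) ≤ X := by exact_mod_cast h5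
    rw [Real.norm_of_nonneg (by linarith), id, Real.norm_of_nonneg (by linarith)] at h3
    have h7 : 64 * (((C₁ : ℝ) + 1) * Real.log X) ≤ 64 * (((C₁ : ℝ) + 1) * (1 / (128 * ((C₁ : ℝ) + 1)) * X)) := by
      gcongr
    have h8 : 64 * (((C₁ : ℝ) + 1) * (1 / (128 * ((C₁ : ℝ) + 1)) * X)) = X / 2 := by
      field_simp
      norm_num
    have h9 : (⌊((C₁ : ℝ) + 1) * Real.log X⌋₊ : ℝ) ≤ (C₁ + 1) * Real.log X :=
      Nat.floor_le (by positivity)
    have h10 : ((64 * (⌊((C₁ : ℝ) + 1) * Real.log X⌋₊ + 1) : ℕ) : ℝ) ≤ X := by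
      push_cast
      linarith
    exact_mod_cast h10
  filter_upwards [hsys, hdiff _ (min_le_left δa δb), hsum _ hδ (min_le_right δa δb), hlog, hsmall,
    eventually_ge_atTop 64] with X hsysX hdX hsX hlX hRX hX64
  intro A B hA hB hAB
  -- choose four elements
  obtain ⟨B', hB'B, hB'c⟩ := exists_subset_card_eq (s := B) (n := min 4 B.card) (min_le_right _ _)
  obtain ⟨A', hA'A, hA'c⟩ := exists_subset_card_eq (s := A) (n := 4 - min 4 B.card) (by omega)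
  have hcard : Fintype.card (A' ⊕ B') = 4 := by
    rw [Fintype.card_sum, Fintype.card_coe, Fintype.card_coe, hA'c, hB'c]
    omega
  set e : Fin 4 ≃ (A' ⊕ B') := (Fintype.equivFinOfCardEq hcard).symm with he
  set R := ⌊((C₁ : ℝ) + 1) * Real.log X⌋₊ with hR
  set co : A' ⊕ B' → ℤ := Sum.elim (fun _ => -1) (fun _ => 1) with hco
  set cs : A' ⊕ B' → ℤ := Sum.elim (fun a => (a : ℤ) + ((R + 1 : ℕ) : ℤ) * (rk A' a : ℤ))
    (fun b => (b : ℤ) + ((R + 1 : ℕ) : ℤ) * (rk B' b : ℤ)) with hcs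
  have hrkA : ∀ a ∈ A', (R + 1) * rk A' a ≤ 4 * (R + 1) := by
    intro a _
    have h1 := rk_le A' a
    have h2 : rk A' a ≤ 4 := by omega
    calc (R + 1) * rk A' a ≤ (R + 1) * 4 := Nat.mul_le_mul_left _ h2
      _ = _ := by ring
  have hrkB : ∀ b ∈ B', (R + 1) * rk B' b ≤ 4 * (R + 1) := by
    intro b _
    have h1 := rk_le B' b
    have h2 : rk B' b ≤ 4 := by omega
    calc (R + 1) * rk B' b ≤ (R + 1) * 4 := Nat.mul_le_mul_left _ h2
      _ = _ := by ring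
  obtain ⟨P, hP0, hP1, hPi, hPI⟩ := hsysX (fun i => co (e i)) (fun i => cs (e i))
    ((X / 16 + 1 : ℕ) : ℤ) ((X / 8 : ℕ) : ℤ)
    (by
      intro i
      rcases e i with a | b
      · simp [hco]
      · simp [hco])
    (by
      have : (0 : ℤ) ≤ ((X / 16 + 1 : ℕ) : ℤ) := Nat.cast_nonneg _
      have h2 : (0 : ℤ) ≤ (X : ℤ) := Nat.cast_nonneg _
      linarith)
    (by
      have : X / 8 ≤ X := Nat.div_le_self _ _
      exact_mod_cast this)
    (by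
      have h1 : X ≤ 8 * (X / 8) + 7 := by omega
      have h2 : 16 * (X / 16) ≤ X := Nat.mul_div_le X 16
      have h1' : (X : ℝ) ≤ 8 * ((X / 8 : ℕ) : ℝ) + 7 := by exact_mod_cast h1
      have h2' : 16 * ((X / 16 : ℕ) : ℝ) ≤ X := by exact_mod_cast h2
      have h3' : (64 : ℝ) ≤ X := by exact_mod_cast hX64
      rw [Int.cast_natCast, Int.cast_natCast, Nat.cast_add, Nat.cast_one]
      linarith)
    (by
      intro i n hn1 hn2
      rcases hei : e i with a | b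
      · simp only [hco, hcs, Sum.elim_inl]
        have h1 := hA a (hA'A a.2)
        have h2 := hrkA a a.2
        have h3 : ((a : ℕ) : ℤ) + ((R + 1 : ℕ) : ℤ) * (rk A' a : ℤ) =
            ((a + (R + 1) * rk A' a : ℕ) : ℤ) := by push_cast; ring
        rw [h3]
        generalize (R + 1) * rk A' a = w at *
        constructor <;> omega
      · simp only [hco, hcs, Sum.elim_inr]
        have h1 := hB b (hB'B b.2)
        have h2 := hrkB b b.2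
        have h3 : ((b : ℕ) : ℤ) + ((R + 1 : ℕ) : ℤ) * (rk B' b : ℤ) =
            ((b + (R + 1) * rk B' b : ℕ) : ℤ) := by push_cast; ring
        rw [h3]
        generalize (R + 1) * rk B' b = w at *
        constructor <;> omega)
  obtain ⟨I, hI, i, hi, j, hj, hij⟩ := two_of_four P c₀ hc₀ hP0 hP1 hPi
  have hcount := hPI I hI
  set S := (Icc ((X / 16 + 1 : ℕ) : ℤ) ((X / 8 : ℕ) : ℤ)).filter (fun n =>
    hitS (fun i => co (e i)) (fun i => cs (e i)) (C₁ * Real.log X) I n) with hSd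
  have hSI : S ⊆ Icc ((X / 16 + 1 : ℕ) : ℤ) ((X / 8 : ℕ) : ℤ) := filter_subset _ _
  have hk : ∀ k ∈ I, ∀ n ∈ S, ∃ s : ℕ, s ≤ R ∧ ∃ p : ℕ, p.Prime ∧
      (p : ℤ) = co (e k) * n + cs (e k) + s := by
    intro k hkI n hn
    obtain ⟨s, hs, p, hp, hpe⟩ := (mem_filter.1 hn).2 k hkI
    refine ⟨s, ?_, p, hp, hpe⟩
    rw [hR]
    apply Nat.le_floor
    have : (0 : ℝ) ≤ Real.log X := by linarith
    linarith
  have hD : ∀ (u β β' x y : ℤ) (d D : ℕ), u ≠ 0 → β' - β = D → d + R + 1 ≤ D →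
      D ≤ d + 5 * (R + 1) → D ≤ 2 * X → (∀ n : ℤ, x ≤ n → n ≤ y → u * n + β + R ≤ X) →
      S ⊆ Icc x y →
      (∀ n ∈ S, ∃ s : ℕ, s ≤ R ∧ ∃ p : ℕ, p.Prime ∧ (p : ℤ) = u * n + β + s) →
      (∀ n ∈ S, ∃ s : ℕ, s ≤ R ∧ ∃ p : ℕ, p.Prime ∧ (p : ℤ) = u * n + β' + s) →
      GoodDiff (8 * (C₁ + 2)) (min δa δb) X d := by
    intro u β β' x y d D h1 h2 h3 h4 h5 h6 h7 h8 h9
    exact hdX u β β' x y d D R hR h1 h2 h3 h4 h5 h6 S h7 h8 h9 hcount
  have hsumc : ∀ (a : A') (b : B') , (∀ n ∈ S, ∃ s : ℕ, s ≤ R ∧ ∃ p : ℕ, p.Prime ∧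
      (p : ℤ) = co (Sum.inl a) * n + cs (Sum.inl a) + s) → (∀ n ∈ S, ∃ s : ℕ, s ≤ R ∧ ∃ p : ℕ,
      p.Prime ∧ (p : ℤ) = co (Sum.inr b) * n + cs (Sum.inr b) + s) →
      GoodSum (8 * (C₁ + 2)) (min δa δb) X (a + b) := by
    intro a b h1 h2
    have ha := hA a (hA'A a.2)
    have hb := hB b (hB'B b.2)
    have hr1 := rk_le A' a
    have hr2 := rk_le B' b
    have hr : (R + 1) * (rk A' a + rk B' b) ≤ 4 * (R + 1) := by
      have h3 : rk A' a + rk B' b ≤ 4 := by omega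
      calc (R + 1) * (rk A' a + rk B' b) ≤ (R + 1) * 4 := Nat.mul_le_mul_left _ h3
        _ = _ := by ring
    refine hsX (cs (Sum.inl a)) (cs (Sum.inr b)) (a + b)
      (a + b + (R + 1) * (rk A' a + rk B' b)) R hR ?_ (by omega) (by omega) (by omega) (by omega) S
      h2 h1 hcount
    simp only [hcs, Sum.elim_inl, Sum.elim_inr]
    push_cast
    ring
  have h1 := hk i hi
  have h2 := hk j hj
  have hne : e i ≠ e j := fun h => hij (e.injective h)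
  rcases hei : e i with a | b <;> rcases hej : e j with a' | b'
  · -- two elements of `A`
    rw [hei] at h1
    rw [hej] at h2
    right; left
    have haa : (a : ℕ) ≠ a' := by
      intro h
      apply hne
      rw [hei, hej, Subtype.ext h]
    rcases lt_or_gt_of_ne haa with h | h
    · exact ⟨a, hA'A a.2, a', hA'A a'.2, h, case_diff hA'A (by omega) (fun x hx => (hA x hx).2) hRX
        le_rfl (GoodDiff (8 * (C₁ + 2)) (min δa δb) X) (-1) (Or.inr rfl) S hSI (by omega) hD a a'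
        a.2 a'.2 h h1 h2⟩
    · exact ⟨a', hA'A a'.2, a, hA'A a.2, h, case_diff hA'A (by omega) (fun x hx => (hA x hx).2) hRX
        le_rfl (GoodDiff (8 * (C₁ + 2)) (min δa δb) X) (-1) (Or.inr rfl) S hSI (by omega) hD a' a
        a'.2 a.2 h h2 h1⟩
  · rw [hei] at h1
    rw [hej] at h2
    right; right
    exact ⟨a, hA'A a.2, b', hB'B b'.2, hsumc a b' h1 h2⟩
  · rw [hei] at h1
    rw [hej] at h2
    right; right
    exact ⟨a', hA'A a'.2, b, hB'B b.2, hsumc a' b h2 h1⟩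
  · -- two elements of `B`
    rw [hei] at h1
    rw [hej] at h2
    left
    have hbb : (b : ℕ) ≠ b' := by
      intro h
      apply hne
      rw [hei, hej, Subtype.ext h]
    rcases lt_or_gt_of_ne hbb with h | h
    · exact ⟨b, hB'B b.2, b', hB'B b'.2, h, case_diff hB'B (by omega) hB hRX
        le_rfl (GoodDiff (8 * (C₁ + 2)) (min δa δb) X) 1 (Or.inl rfl) S hSI (by omega) hD b b'
        b.2 b'.2 h h1 h2⟩
    · exact ⟨b', hB'B b'.2, b, hB'B b.2, h, case_diff hB'B (by omega) hB hRX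
        le_rfl (GoodDiff (8 * (C₁ + 2)) (min δa δb) X) 1 (Or.inl rfl) S hSI (by omega) hD b' b
        b'.2 b.2 h h2 h1⟩

end Q157.LG
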