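import Pool.Agent.W308.UB.B

set_option autoImplicit false

/-! Brun's pure sieve as an expandable minorant. -/

namespace Q157.LG

open Finset Pool.Agent.W25.UN Pool.Agent.W25.UB Pool.Agent.W308.UB

theorem bonfo (P : Finset ℕ) (r : ℕ) (hr : Odd r) (x : ℕ → ℝ) (hx : ∀ p ∈ P, x p = 0 ∨ x p = 1) :
    ∑ T ∈ P.powerset.filter (fun T => T.card ≤ r), (-1 : ℝ) ^ T.card * ∏ p ∈ T, x p ≤ 1 ∧
    ((∃ p ∈ P, x p = 1) →
      ∑ T ∈ P.powerset.filter (fun T => T.card ≤ r), (-1 : ℝ) ^ T.card * ∏ p ∈ T, x p ≤ 0) := by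
  classical
  set A := P.filter (fun p => x p = 1) with hA
  have h1 : ∑ T ∈ P.powerset.filter (fun T => T.card ≤ r), (-1 : ℝ) ^ T.card * ∏ p ∈ T, x p =
      ∑ T ∈ A.powerset.filter (fun T => T.card ≤ r), (-1 : ℝ) ^ T.card := by
    symm
    refine sum_subset_zero_on_sdiff ?_ ?_ ?_
    · intro T hT
      rw [mem_filter, mem_powerset] at hT ⊢
      exact ⟨hT.1.trans (filter_subset _ _), hT.2⟩
    · intro T hT
      rw [mem_sdiff, mem_filter, mem_filter, mem_powerset, mem_powerset] at hT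
      have h2 : ¬ T ⊆ A := fun h => hT.2 ⟨h, hT.1.2⟩
      obtain ⟨p, hpT, hpA⟩ := not_subset.1 h2
      have h3 : x p = 0 := by
        rcases hx p (hT.1.1 hpT) with h | h
        · exact h
        · exact absurd (mem_filter.2 ⟨hT.1.1 hpT, h⟩) hpA
      rw [prod_eq_zero hpT h3, mul_zero]
    · intro T hT
      rw [mem_filter, mem_powerset] at hT
      rw [prod_eq_one (fun p hp => (mem_filter.1 (hT.1 hp)).2), mul_one]
  rw [h1, bonf_aux]
  have h2 : ∑ j ∈ range (r + 1), (-1 : ℝ) ^ j * (A.card.choose j : ℝ) =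
      ((∑ j ∈ range (r + 1), ((-1) ^ j * (A.card.choose j : ℤ)) : ℤ) : ℝ) := by
    push_cast
    rfl
  rcases Nat.eq_zero_or_pos A.card with h0 | h0
  · have h3 : ∑ j ∈ range (r + 1), (-1 : ℝ) ^ j * (A.card.choose j : ℝ) = 1 := by
      rw [h0, sum_range_succ']
      simp
    rw [h3]
    refine ⟨le_rfl, fun ⟨p, hp, hp1⟩ => ?_⟩
    exfalso
    have : p ∈ A := by rw [hA, mem_filter]; exact ⟨hp, hp1⟩
    rw [card_eq_zero.1 h0] at this
    exact absurd this (notMem_empty _)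
  · obtain ⟨n, hn⟩ : ∃ n, A.card = n + 1 := ⟨A.card - 1, by omega⟩
    have h4 : ∑ j ∈ range (r + 1), (-1 : ℝ) ^ j * (A.card.choose j : ℝ) ≤ 0 := by
      rw [h2, hn, Int.alternating_sum_range_choose_eq_choose, hr.neg_one_pow]
      have h5 : (0 : ℝ) ≤ ((n.choose r : ℕ) : ℝ) := Nat.cast_nonneg _
      push_cast
      linarith
    exact ⟨h4.trans zero_le_one, fun _ => h4⟩

/-- (BPSL) Brun's pure sieve, as an expandable minorant -/
def St_BPSL : Prop := ∀ (k B C : ℕ) (η : ℝ), 0 < η → ∃ N₀ : ℕ, ∀ N : ℕ, N₀ ≤ N →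
  ∀ (u w : Option (Fin k) → ℤ) (D D' : ℕ), 2 * (k + 1) ≤ D → D ≤ D' →
  (D' : ℝ) ≤ (Real.log N) ^ B → (∀ p : ℕ, p.Prime → D < p → ∀ j, ¬ (p : ℤ) ∣ u j) →
  ∃ (Tr : ℤ → ℝ) (t : ℝ), Ex (fun p => D < p ∧ p ≤ D') ((N : ℝ) ^ η) ((N : ℝ) ^ η) Tr t ∧
    (∀ n, Tr n ≤ 1) ∧
    (∀ n : ℤ, (∃ p : ℕ, p.Prime ∧ D < p ∧ p ≤ D' ∧ ∃ j, (p : ℤ) ∣ u j * n + w j) → Tr n ≤ 0) ∧
    |t - ∏ p ∈ (Icc (D + 1) D').filter Nat.Prime, (1 - ((Om u w p).card : ℝ) / p)| ≤
      1 / (Real.log N) ^ C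

theorem bpsl (hE : St_EXM) : St_BPSL := by
  intro k B C η hη
  -- constants
  set M0 : ℝ := (C : ℝ) + 3 * ((k : ℝ) + 1) * ((B : ℝ) + 1) with hM0
  have hM0' : 0 < M0 := by positivity
  set K : ℝ := 1 + ((B : ℝ) + 1) * (2 * M0 + 3) with hK
  have hK0 : 0 < K := by positivity
  set l0 : ℝ := max (max 1 (6 * K / η)) ((k : ℝ) + 1) with hl0
  refine ⟨⌈Real.exp (Real.exp l0)⌉₊, fun N hN u w D D' hkD hDD hD' hu => ?_⟩
  set L : ℝ := Real.log N with hL
  have hN1 : Real.exp (Real.exp l0) ≤ N := (Nat.le_ceil _).trans (by exact_mod_cast hN)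
  have hN0 : (0 : ℝ) < N := lt_of_lt_of_le (Real.exp_pos _) hN1
  have hL1 : Real.exp l0 ≤ L := (Real.le_log_iff_exp_le hN0).2 hN1
  have hL0 : 0 < L := lt_of_lt_of_le (Real.exp_pos _) hL1
  set l : ℝ := Real.log L with hl
  have hl1 : l0 ≤ l := (Real.le_log_iff_exp_le hL0).2 hL1
  have hexp : Real.exp l = L := Real.exp_log hL0
  have hl_one : 1 ≤ l := ((le_max_left _ _).trans (le_max_left _ _)).trans hl1
  have hl_K : 6 * K / η ≤ l := ((le_max_right _ _).trans (le_max_left _ _)).trans hl1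
  have hl_k : (k : ℝ) + 1 ≤ l := (le_max_right _ _).trans hl1
  have hkL : (k : ℝ) + 1 ≤ L := by
    have := Real.add_one_le_exp l
    rw [hexp] at this
    linarith
  have heL : Real.exp 1 ≤ L := by rw [← hexp]; exact Real.exp_le_exp.2 hl_one
  have hL_one : 1 ≤ L := by
    have := Real.add_one_le_exp (1 : ℝ); linarith
  have hLB1 : 1 ≤ L ^ B := one_le_pow₀ hL_one
  -- the sets
  set P : Finset ℕ := (Icc (D + 1) D').filter Nat.Prime with hP
  have hPm : ∀ p ∈ P, p.Prime ∧ D < p ∧ p ≤ D' := by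
    intro p hp
    rw [hP, mem_filter, mem_Icc] at hp
    exact ⟨hp.2, by omega, hp.1.2⟩
  have hD'1 : 1 ≤ D' := by omega
  set r : ℕ := 2 * ⌈M0 * l⌉₊ + 1 with hr
  have hM0l : 0 ≤ M0 * l := by positivity
  have hr_lo : 2 * (M0 * l) ≤ r := by
    rw [hr]; push_cast
    have := Nat.le_ceil (M0 * l); linarith
  have hr_hi : (r : ℝ) ≤ 2 * (M0 * l + 1) + 1 := by
    rw [hr]; push_cast
    have := (Nat.ceil_lt_add_one hM0l).le; linarith
  have hcard : ∀ p ∈ P, ((Om u w p).card : ℝ) ≤ (k : ℝ) + 1 := by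
    intro p hp
    have := (Pool.Agent.W398.UNFO.rc k u w p (hPm p hp).1 (hu p (hPm p hp).1 (hPm p hp).2.1)).2.1
    exact_mod_cast this
  -- the exponential bound
  have hmainE : l * (1 + ((B : ℝ) + 1) * r) ≤ η * L := by
    have h1 : l * (1 + ((B : ℝ) + 1) * r) ≤ K * l ^ 2 := by
      have h2 : ((B : ℝ) + 1) * r ≤ ((B : ℝ) + 1) * (2 * (M0 * l + 1) + 1) :=
        mul_le_mul_of_nonneg_left hr_hi (by positivity)
      have h3 : 1 + ((B : ℝ) + 1) * (2 * (M0 * l + 1) + 1) ≤ K * l := by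
        rw [hK]
        have h4 : ((B : ℝ) + 1) * 3 ≤ ((B : ℝ) + 1) * 3 * l := by
          have : 0 ≤ ((B : ℝ) + 1) * 3 := by positivity
          nlinarith
        nlinarith
      have h5 : l * (1 + ((B : ℝ) + 1) * r) ≤ l * (K * l) :=
        mul_le_mul_of_nonneg_left (by linarith) (by linarith)
      calc _ ≤ l * (K * l) := h5
        _ = K * l ^ 2 := by ring
    have h6 : l ^ 3 / 6 ≤ L := by
      have := Real.pow_div_factorial_le_exp l (by linarith) 3
      rw [hexp] at this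
      have h7 : ((Nat.factorial 3 : ℕ) : ℝ) = 6 := by norm_num [Nat.factorial]
      rwa [h7] at this
    have h8 : K * l ^ 2 ≤ η * (l ^ 3 / 6) := by
      have h9 : 6 * K ≤ l * η := (div_le_iff₀ hη).1 hl_K
      have h10 : 6 * K * l ^ 2 ≤ l * η * l ^ 2 := mul_le_mul_of_nonneg_right h9 (by positivity)
      nlinarith
    have h11 : η * (l ^ 3 / 6) ≤ η * L := mul_le_mul_of_nonneg_left h6 hη.le
    linarith
  have hNη : (N : ℝ) ^ η = Real.exp (η * L) := by
    rw [Real.rpow_def_of_pos hN0, mul_comm]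
  have hbound : L * (L * L ^ B) ^ r ≤ (N : ℝ) ^ η := by
    rw [hNη]
    have h1 : L * (L * L ^ B) ^ r = Real.exp (l * (1 + ((B : ℝ) + 1) * r)) := by
      have h2 : L * (L * L ^ B) ^ r = L ^ (1 + (B + 1) * r) := by ring
      rw [h2, ← hexp, ← Real.exp_nat_mul]
      congr 1
      push_cast
      ring
    rw [h1]
    exact Real.exp_le_exp.2 hmainE
  have hR : (L ^ B) ^ r ≤ (N : ℝ) ^ η := by
    refine le_trans ?_ hbound
    have h1 : (L ^ B) ^ r ≤ (L * L ^ B) ^ r := by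
      apply pow_le_pow_left₀ (by positivity)
      nlinarith
    have h2 : (L * L ^ B) ^ r ≤ L * (L * L ^ B) ^ r := by
      have : 0 ≤ (L * L ^ B) ^ r := by positivity
      nlinarith
    exact h1.trans h2
  have hPcard : (P.card : ℝ) ≤ L ^ B := by
    have h1 : P.card ≤ D' := by
      calc P.card ≤ (Icc (D + 1) D').card := card_filter_le _ _
        _ ≤ D' := by rw [Nat.card_Icc]; omega
    exact (by exact_mod_cast h1 : (P.card : ℝ) ≤ D').trans hD'
  have hY : ∑ T ∈ P.powerset.filter (fun T => T.card ≤ r),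
      |(-1 : ℝ) ^ T.card| * (∏ p ∈ T, ((Om u w p).card : ℝ)) ≤ (N : ℝ) ^ η := by
    have h1 : ∑ T ∈ P.powerset.filter (fun T => T.card ≤ r),
        |(-1 : ℝ) ^ T.card| * (∏ p ∈ T, ((Om u w p).card : ℝ)) =
        ∑ T ∈ P.powerset.filter (fun T => T.card ≤ r), ∏ p ∈ T, ((Om u w p).card : ℝ) := by
      apply sum_congr rfl
      intro T _
      rw [abs_pow, abs_neg, abs_one, one_pow, one_mul]
    rw [h1]
    refine (Ybound P r (fun p => ((Om u w p).card : ℝ)) L (L ^ B)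
      (fun p hp => ⟨by positivity, (hcard p hp).trans hkL⟩) hL_one hLB1 hPcard).trans ?_
    refine le_trans ?_ hbound
    exact mul_le_mul_of_nonneg_right heL (by positivity)
  refine ⟨fun n => ∑ T ∈ P.powerset.filter (fun T => T.card ≤ r),
      (-1 : ℝ) ^ T.card * ∏ p ∈ T, Xp u w p n,
    ∑ T ∈ P.powerset.filter (fun T => T.card ≤ r),
      (-1 : ℝ) ^ T.card * ∏ p ∈ T, ((Om u w p).card : ℝ) / p, ?_, ?_, ?_, ?_⟩
  · have h1 := Ex_Tr hE u w P r (fun p => D < p ∧ p ≤ D') (L ^ B) (fun p hp =>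
      ⟨(hPm p hp).1, by have := (hPm p hp).2.1; omega, (hPm p hp).2,
        (by exact_mod_cast (hPm p hp).2.2 : (p : ℝ) ≤ D').trans hD'⟩) hLB1
    exact hE.2.2.1 _ _ _ _ _ _ _ _ h1 (fun _ h => h) hY hR
  · intro n
    exact (bonfo P r ⟨_, hr⟩ (fun p => Xp u w p n) (fun p hp => by
      classical
      simp only [Xp_eq u w p (hPm p hp).1.pos n]
      split_ifs
      · right; rfl
      · left; rfl)).1
  · rintro n ⟨p, hp1, hp2, hp3, j, hj⟩
    refine (bonfo P r ⟨_, hr⟩ (fun p => Xp u w p n) (fun p hp => by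
      classical
      simp only [Xp_eq u w p (hPm p hp).1.pos n]
      split_ifs
      · right; rfl
      · left; rfl)).2 ?_
    refine ⟨p, ?_, ?_⟩
    · rw [hP, mem_filter, mem_Icc]
      exact ⟨⟨by omega, hp3⟩, hp1⟩
    · classical
      simp only [Xp_eq u w p hp1.pos n]
      rw [if_pos ⟨j, hj⟩]
  · refine (tail P r (fun p => ((Om u w p).card : ℝ) / p) (fun p _ => by positivity)).trans ?_
    have h1 : ∑ p ∈ P, ((Om u w p).card : ℝ) / p ≤ ((k : ℝ) + 1) * (1 + (B : ℝ) * l) := by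
      calc ∑ p ∈ P, ((Om u w p).card : ℝ) / p ≤ ∑ p ∈ P, ((k : ℝ) + 1) / p :=
            sum_le_sum fun p hp => div_le_div_of_nonneg_right (hcard p hp) (by positivity)
        _ ≤ ((k : ℝ) + 1) * (1 + Real.log D') := by
            apply sum_inv_le k D' P
            intro p hp
            rw [mem_Icc]
            exact ⟨(hPm p hp).1.one_lt.le, (hPm p hp).2.2⟩
        _ ≤ ((k : ℝ) + 1) * (1 + (B : ℝ) * l) := by
            apply mul_le_mul_of_nonneg_left _ (by positivity)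
            have h2 : Real.log D' ≤ Real.log (L ^ B) :=
              Real.log_le_log (by exact_mod_cast hD'1) hD'
            rw [Real.log_pow] at h2
            linarith
    have h3 : (1 : ℝ) / L ^ C = Real.exp (-((C : ℝ) * l)) := by
      rw [Real.exp_neg, Real.exp_nat_mul, hexp, one_div]
    rw [h3]
    apply Real.exp_le_exp.2
    have h4 : Real.exp 1 ≤ 3 := by
      have := Real.exp_one_lt_d9; linarith
    have h5 : Real.exp 1 * ∑ p ∈ P, ((Om u w p).card : ℝ) / p ≤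
        3 * (((k : ℝ) + 1) * (1 + (B : ℝ) * l)) :=
      mul_le_mul h4 h1 (sum_nonneg fun p _ => by positivity) (by norm_num)
    have h6 : (1 : ℝ) + B * l ≤ ((B : ℝ) + 1) * l := by linarith
    have h7 : ((k : ℝ) + 1) * (1 + (B : ℝ) * l) ≤ ((k : ℝ) + 1) * (((B : ℝ) + 1) * l) :=
      mul_le_mul_of_nonneg_left h6 (by positivity)
    have h8 : M0 * l = C * l + 3 * (((k : ℝ) + 1) * (((B : ℝ) + 1) * l)) := by rw [hM0]; ring
    linarith


end Q157.LG
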