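import Pool.Agent.TH899.UG.Stm
import Pool.Agent.W89.UBMAS

/-! The master formula for two linear forms with the same slope, uniformly in the constant terms. -/

set_option autoImplicit false

namespace Q157.LG

open Finset Filter Topology
open Pool.Agent.W25.UN Pool.Agent.W25.UB
open Pool.Agent.TH899.UG (R2LAt)
open Pool.Agent.H362R2.CM (IP prP)
open Pool.Agent.H410R2 (mulc lgt WW)
open Pool.Agent.W23.PL (DW Ev hat)
open Pool.Agent.H442R2.KF (Wt)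
open Pool.Agent.W89.UBMAS

/-- the slopes -/
def uu (a : ℤ) : Option (Fin 1) → ℤ := fun _ => a

/-- the constant terms -/
def ww (w w' : ℤ) : Option (Fin 1) → ℤ
  | none => w
  | some _ => w'

instance ipEmpty : IsEmpty (IP (∅ : Finset ℕ)) := ⟨fun t => absurd t.2 (Finset.notMem_empty _)⟩

theorem FZ_empty (u w : Option (Fin 1) → ℤ) (n : ℤ) : FZ u w ∅ (fun _ => 1) n = 1 := by
  unfold FZ
  rw [Fintype.sum_unique]
  simp

theorem Q1f_empty : Q1f (prP (∅ : Finset ℕ))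
    (fun _ : (IP (∅ : Finset ℕ) → Option (Option (Fin 1))) => (1 : ℝ)) = 1 := by
  unfold Q1f
  rw [Fintype.sum_unique, Fintype.sum_unique]
  simp

theorem mulc_empty (g : ℕ → ℝ) (σ : IP (∅ : Finset ℕ) → Option (Option (Fin 1))) :
    mulc (prP ∅) g σ = 1 := by
  unfold mulc
  simp

theorem lgt_empty (σ : IP (∅ : Finset ℕ) → Option (Option (Fin 1))) :
    lgt (prP ∅) σ = 0 := by
  unfold lgt
  simp

/-- the function of the master formula -/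
noncomputable def Mf (a w w' : ℤ) (D₁ Z : ℕ) (Tr : ℤ → ℝ) (th th' b b' : ℕ → ℝ) (n : ℤ) : ℝ :=
  Tr n * (Ev th D₁ (a * n + w) * Ev th' D₁ (a * n + w')) *
    (ds b Z (a * n + w) * ds b' Z (a * n + w'))

theorem mom (hEXM : St_EXM) (hGAU : St_GAU) (hFT3 : St_FT3) (ε₀ η : ℝ) (hε₀ : 0 < ε₀)
    (hε₀' : ε₀ ≤ 1 / 100) (hη : 0 < η) (hη' : η ≤ 1 / 100) (hR2 : R2LAt ε₀ η) :
    ∃ E : ℕ, ∀ (ε₁ η₀ M : ℝ) (A B U : ℕ), 0 < ε₁ → ε₁ ≤ 1 → 0 < η₀ → 16 * η₀ ≤ ε₀ / 10 →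
    16 * η₀ ≤ η → 1 ≤ M → E + A ≤ B → 1 ≤ U → ∀ᶠ N : ℕ in atTop, ∀ (a w w' : ℤ), a ≠ 0 →
    |a| ≤ U → 4 * |(w : ℝ)| ≤ 3 * |(a : ℝ)| * ((2 * N : ℕ) : ℝ) →
    4 * |(w' : ℝ)| ≤ 3 * |(a : ℝ)| * ((2 * N : ℕ) : ℝ) → w ≠ w' →
    |a * (w - w')| ≤ (DB (2 * N) B : ℤ) →
    ∀ (D₁ : ℕ) (Pt : Finset ℕ) (Tr : ℤ → ℝ) (t : ℝ), D₁ = ⌊((2 * N : ℕ) : ℝ) ^ η₀⌋₊ →
    (∀ p ∈ Pt, p.Prime ∧ DB (2 * N) B < p ∧ (p : ℝ) ≤ ((2 * N : ℕ) : ℝ) ^ ε₁) →
    Ex (fun p => p ≤ DB (2 * N) B) ((N : ℝ) ^ η₀) ((N : ℝ) ^ η₀) Tr t → |t| ≤ 2 →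
    ∀ (X Z : ℕ) (th th' b b' : ℕ → ℝ), (X = 2 * N ∨ X = 4 * N) →
    (Z : ℝ) ≤ (X : ℝ) ^ (1 / 2 + ε₀ / 4) →
    DW Pt D₁ (Real.log (2 * N : ℕ)) th → DW Pt D₁ (Real.log (2 * N : ℕ)) th' →
    RCM ∅ (((2 * N : ℕ) : ℝ) ^ ε₁) Z M b → RCM ∅ (((2 * N : ℕ) : ℝ) ^ ε₁) Z M b' →
    Summable (fun n : ℤ => Wt X n * Mf a w w' D₁ Z Tr th th' b b' n) ∧
    |∑' n : ℤ, Wt X n * Mf a w w' D₁ Z Tr th th' b b' n -
      X * (t * (hat th D₁ * hat th' D₁) *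
        ((∑ d ∈ Icc 1 Z, b d / d) * (∑ d ∈ Icc 1 Z, b' d / d)))| ≤ X / (Real.log N) ^ A := by
  obtain ⟨E₃, N₃, hFT⟩ := hFT3 1
  refine ⟨E₃ + 3, ?_⟩
  intro ε₁ η₀ M A B U hε₁ hε₁' hη₀ hη1 hη2 hM hB hU
  obtain ⟨η₁, hη₁, hR'⟩ := hR2 (ε₁ / 2) (by linarith) (by linarith)
  obtain ⟨C, hC, hR⟩ := hR' U hU
  obtain ⟨X₀, hX₀⟩ := hGAU (1 / 2) (by norm_num)
  filter_upwards [Pool.Agent.W494.UB.FT3.tlog 10,
    Pool.Agent.W494.UB.FT3.tlog (16 * M ^ 2), Pool.Agent.W494.UB.FT3.tlog (U + 3),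
    grow E₃ (η / 2) 1 (by positivity),
    grow (A + (E₃ + 5)) η₁ (2 * M ^ 2 * C) hη₁, grow B ε₁ 1 hε₁,
    eventually_ge_atTop N₃, eventually_ge_atTop X₀, eventually_ge_atTop 16]
    with N hl10 hlM hlU hgY hgE hgB hN3 hNX hN16
  intro a w w' ha haU hw hw' hww hdet D₁ Pt Tr t hD₁ hP hTr ht X Z th th' b b' hX hZ hth hth'
    hb hb'
  have hN0 : (16 : ℝ) ≤ N := by exact_mod_cast hN16
  have hTN : ((2 * N : ℕ) : ℝ) = 2 * N := by push_cast; ring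
  have hT1 : (1 : ℝ) ≤ ((2 * N : ℕ) : ℝ) := by rw [hTN]; linarith
  have hT0 : (0 : ℝ) < ((2 * N : ℕ) : ℝ) := by linarith
  have hl : Real.log N ≤ Real.log ((2 * N : ℕ) : ℝ) :=
    Real.log_le_log (by linarith) (by rw [hTN]; linarith)
  have hl2 : 10 ≤ Real.log ((2 * N : ℕ) : ℝ) := hl10.trans hl
  have hl1 : 1 ≤ Real.log ((2 * N : ℕ) : ℝ) := by linarith
  have hl0 : 0 < Real.log ((2 * N : ℕ) : ℝ) := by linarith
  -- the end of the presieve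
  have hDB1 : (Real.log ((2 * N : ℕ) : ℝ)) ^ B ≤ (DB (2 * N) B : ℝ) + 1 := by
    have h1 : (Real.log ((2 * N : ℕ) : ℝ)) ^ B ≤ (⌈(Real.log ((2 * N : ℕ) : ℝ)) ^ B⌉₊ : ℝ) :=
      Nat.le_ceil _
    have h2 : ⌈(Real.log ((2 * N : ℕ) : ℝ)) ^ B⌉₊ ≤ DB (2 * N) B + 1 := by
      unfold DB
      omega
    have h3 : (⌈(Real.log ((2 * N : ℕ) : ℝ)) ^ B⌉₊ : ℝ) ≤ (DB (2 * N) B : ℝ) + 1 := by
      exact_mod_cast h2
    linarith
  have hlB : Real.log ((2 * N : ℕ) : ℝ) ≤ (Real.log ((2 * N : ℕ) : ℝ)) ^ B :=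
    le_self_pow₀ hl1 (by omega)
  have hDB2 : (DB (2 * N) B : ℝ) ≤ (Real.log ((2 * N : ℕ) : ℝ)) ^ B := by
    have h1 : (⌈(Real.log ((2 * N : ℕ) : ℝ)) ^ B⌉₊ : ℝ) < (Real.log ((2 * N : ℕ) : ℝ)) ^ B + 1 :=
      Nat.ceil_lt_add_one (by positivity)
    have h2 : DB (2 * N) B + 1 = ⌈(Real.log ((2 * N : ℕ) : ℝ)) ^ B⌉₊ := by
      have h3 : 0 < ⌈(Real.log ((2 * N : ℕ) : ℝ)) ^ B⌉₊ := Nat.ceil_pos.2 (by positivity)
      unfold DB
      omega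
    have h4 : ((DB (2 * N) B : ℕ) : ℝ) + 1 = (⌈(Real.log ((2 * N : ℕ) : ℝ)) ^ B⌉₊ : ℝ) := by
      exact_mod_cast h2
    linarith
  have hUDB : U ≤ DB (2 * N) B ∧ 2 ≤ DB (2 * N) B := by
    have h1 : ((U + 3 : ℕ) : ℝ) ≤ (DB (2 * N) B : ℝ) + 1 := by
      push_cast
      linarith
    have h2 : U + 3 ≤ DB (2 * N) B + 1 := by exact_mod_cast h1
    omega
  -- the primes
  have hpN : ∀ p ∈ Pt, p ≤ 2 * N := by
    intro p hp
    have h1 := (hP p hp).2.2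
    have h2 : ((2 * N : ℕ) : ℝ) ^ ε₁ ≤ ((2 * N : ℕ) : ℝ) := by
      calc ((2 * N : ℕ) : ℝ) ^ ε₁ ≤ ((2 * N : ℕ) : ℝ) ^ (1 : ℝ) :=
            Real.rpow_le_rpow_of_exponent_le hT1 hε₁'
        _ = _ := Real.rpow_one _
    exact_mod_cast h1.trans h2
  have hD₁' : (D₁ : ℝ) ≤ ((2 * N : ℕ) : ℝ) ^ η₀ := by
    rw [hD₁]
    exact Nat.floor_le (Real.rpow_nonneg hT0.le _)
  have hD₁N : D₁ ≤ 2 * N := by
    have h2 : ((2 * N : ℕ) : ℝ) ^ η₀ ≤ ((2 * N : ℕ) : ℝ) := by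
      calc ((2 * N : ℕ) : ℝ) ^ η₀ ≤ ((2 * N : ℕ) : ℝ) ^ (1 : ℝ) :=
            Real.rpow_le_rpow_of_exponent_le hT1 (by linarith)
        _ = _ := Real.rpow_one _
    exact_mod_cast hD₁'.trans h2
  -- the determinant
  have hdet0 : a * (w - w') ≠ 0 := mul_ne_zero ha (sub_ne_zero.2 hww)
  have hnd : ∀ p : ℕ, DB (2 * N) B < p → ¬ (p : ℤ) ∣ a * (w - w') := by
    intro p hp hd
    have h1 := Int.le_of_dvd (abs_pos.2 hdet0) ((dvd_abs _ _).2 hd)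
    omega
  have hnda : ∀ p : ℕ, DB (2 * N) B < p → ¬ (p : ℤ) ∣ a := by
    intro p hp hd
    have h1 := Int.le_of_dvd (abs_pos.2 ha) ((dvd_abs _ _).2 hd)
    have := hUDB.1
    omega
  have hgd : ∀ p ∈ Pt, Gd (uu a) (ww w w') p := by
    intro p hp
    obtain ⟨h1, h2, h3⟩ := hP p hp
    refine ⟨h1, by have := hUDB.2; omega, fun _ => hnda p h2, ?_⟩
    intro j l hjl
    rcases j with _ | j <;> rcases l with _ | l
    · exact absurd rfl hjl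
    · intro hd
      apply hnd p h2
      have e : a * (w - w') = -(uu a none * ww w w' (some l) - uu a (some l) * ww w w' none) := by
        unfold uu ww; ring
      rw [e, dvd_neg]
      exact hd
    · intro hd
      apply hnd p h2
      have e : a * (w - w') = (uu a (some j) * ww w w' none - uu a none * ww w w' (some j)) := by
        unfold uu ww; ring
      rw [e]
      exact hd
    · exact absurd (by rw [Subsingleton.elim j l]) hjl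
  -- the expandable part
  obtain ⟨m3, hEx3, hm3⟩ := hFT (2 * N) (by omega) (uu a) (ww w w') ∅ Pt (fun _ => 1) none
    (some 0) 0 1 ((DB (2 * N) B : ℝ) + 1) D₁ th th'
    (by simp) (by linarith)
    (fun p hp => by
      rw [Finset.empty_union] at hp
      exact ⟨hgd p hp, by exact_mod_cast (hP p hp).2.1, by exact_mod_cast hpN p hp⟩)
    le_rfl hD₁N (fun σ => by rw [mulc_empty]; simp) (fun σ _ => by rw [lgt_empty]) hth hth'
    (Or.inr fun _ _ t => isEmptyElim t) (Or.inr fun _ _ t => isEmptyElim t)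
  rw [Q1f_empty, mul_one] at hm3
  have hEx2 := hEXM.1 _ _ _ _ _ _ _ _ _ _ hTr hEx3
    (fun p h1 h2 => by
      rw [Finset.empty_union] at h2
      have h3 := (hP p h2).2.1
      omega)
    (by positivity) (by positivity)
  -- sizes of the parts
  have hH : |hat th D₁| ≤ Real.log ((2 * N : ℕ) : ℝ) * (1 + Real.log ((2 * N : ℕ) : ℝ)) :=
    sum_bd th _ D₁ (2 * N) hl0.le hth.bd hD₁N
  have hH' : |hat th' D₁| ≤ Real.log ((2 * N : ℕ) : ℝ) * (1 + Real.log ((2 * N : ℕ) : ℝ)) :=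
    sum_bd th' _ D₁ (2 * N) hl0.le hth'.bd hD₁N
  have hm3' : |m3 - hat th D₁ * hat th' D₁ * 1| ≤
      1 * (Real.log ((2 * N : ℕ) : ℝ)) ^ E₃ / ((DB (2 * N) B : ℝ) + 1) := by
    rw [mul_one]
    simpa using hm3
  have hm0 : |1 / (1 : ℝ) * t * m3| ≤ (Real.log ((2 * N : ℕ) : ℝ)) ^ (2 * 0 + 0 + E₃ + 5) :=
    mterm _ 0 E₃ 0 1 (hat th D₁) (hat th' D₁) 1 m3 t _
      ((DB (2 * N) B : ℝ) + 1) hl2 (by simp) hH hH' (by simp) hm3' (by linarith) ht le_rfl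
  have hpw : (N : ℝ) ^ η₀ * (D₁ : ℝ) ^ 2 ≤ ((2 * N : ℕ) : ℝ) ^ (3 * η₀) := by
    have h1 : (N : ℝ) ^ η₀ ≤ ((2 * N : ℕ) : ℝ) ^ η₀ :=
      Real.rpow_le_rpow (by linarith) (by rw [hTN]; linarith) hη₀.le
    calc (N : ℝ) ^ η₀ * (D₁ : ℝ) ^ 2 ≤ ((2 * N : ℕ) : ℝ) ^ η₀ * (((2 * N : ℕ) : ℝ) ^ η₀) ^ 2 := by
          gcongr
      _ = ((2 * N : ℕ) : ℝ) ^ (3 * η₀) := by
          rw [← Real.rpow_natCast, ← Real.rpow_mul hT0.le, ← Real.rpow_add hT0]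
          congr 1
          push_cast
          ring
  -- the two values of `X`
  have hX1 : ((2 * N : ℕ) : ℝ) ≤ (X : ℝ) := by
    rcases hX with rfl | rfl
    · exact le_rfl
    · push_cast; linarith
  have hX2 : (X : ℝ) ≤ ((2 * N : ℕ) : ℝ) ^ (2 : ℝ) := by
    rw [Real.rpow_two, hTN]
    rcases hX with rfl | rfl
    · push_cast; nlinarith
    · push_cast; nlinarith
  have hX3 : (X : ℝ) ≤ 2 * ((2 * N : ℕ) : ℝ) := by
    rw [hTN]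
    rcases hX with rfl | rfl
    · push_cast; linarith
    · push_cast; linarith
  have hX0 : (0 : ℝ) < X := by linarith
  have hX1' : (1 : ℝ) ≤ X := by linarith
  have hy : (X : ℝ) ^ (ε₁ / 2) ≤ ((2 * N : ℕ) : ℝ) ^ ε₁ := by
    calc (X : ℝ) ^ (ε₁ / 2) ≤ (((2 * N : ℕ) : ℝ) ^ (2 : ℝ)) ^ (ε₁ / 2) :=
          Real.rpow_le_rpow hX0.le hX2 (by linarith)
      _ = _ := by
          rw [← Real.rpow_mul hT0.le]
          ring_nf
  have hR0 : (N : ℝ) ^ η₀ * (Real.exp (2 * 0) * (D₁ : ℝ) ^ 2) ≤ (X : ℝ) ^ (ε₀ / 10) := by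
    rw [mul_zero, Real.exp_zero, one_mul]
    calc (N : ℝ) ^ η₀ * (D₁ : ℝ) ^ 2 ≤ ((2 * N : ℕ) : ℝ) ^ (3 * η₀) := hpw
      _ ≤ ((2 * N : ℕ) : ℝ) ^ (ε₀ / 10) :=
          Real.rpow_le_rpow_of_exponent_le hT1 (by linarith)
      _ ≤ _ := Real.rpow_le_rpow hT0.le hX1 (by linarith)
  have ha0 : 0 < 1 / (Real.log ((2 * N : ℕ) : ℝ)) ^ (E₃ + 5) := by positivity
  have ha1 : 1 / (Real.log ((2 * N : ℕ) : ℝ)) ^ (E₃ + 5) ≤ 1 := by
    rw [div_le_one (by positivity)]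
    exact one_le_pow₀ hl1
  have hY0 : |1 / (Real.log ((2 * N : ℕ) : ℝ)) ^ (E₃ + 5)| *
      ((N : ℝ) ^ η₀ * ((1 : ℝ) ^ 2 * Real.exp (2 * 0) *
        (D₁ : ℝ) ^ 2 * (Real.log ((2 * N : ℕ) : ℝ)) ^ E₃)) ≤ (X : ℝ) ^ η := by
    rw [abs_of_pos ha0]
    rw [one_mul] at hgY
    rw [mul_zero, Real.exp_zero, one_pow, one_mul, one_mul]
    have h0 : 0 ≤ (N : ℝ) ^ η₀ * ((D₁ : ℝ) ^ 2 * (Real.log ((2 * N : ℕ) : ℝ)) ^ E₃) := by positivity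
    calc 1 / (Real.log ((2 * N : ℕ) : ℝ)) ^ (E₃ + 5) *
      ((N : ℝ) ^ η₀ * ((D₁ : ℝ) ^ 2 * (Real.log ((2 * N : ℕ) : ℝ)) ^ E₃))
        ≤ 1 * ((N : ℝ) ^ η₀ * ((D₁ : ℝ) ^ 2 * (Real.log ((2 * N : ℕ) : ℝ)) ^ E₃)) :=
          mul_le_mul_of_nonneg_right ha1 h0
      _ = (Real.log ((2 * N : ℕ) : ℝ)) ^ E₃ * ((N : ℝ) ^ η₀ * (D₁ : ℝ) ^ 2) := by ring
      _ ≤ ((2 * N : ℕ) : ℝ) ^ (η / 2) * ((2 * N : ℕ) : ℝ) ^ (3 * η₀) :=
          mul_le_mul hgY hpw (by positivity) (by positivity)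
      _ = ((2 * N : ℕ) : ℝ) ^ (η / 2 + 3 * η₀) := (Real.rpow_add hT0 _ _).symm
      _ ≤ ((2 * N : ℕ) : ℝ) ^ η := Real.rpow_le_rpow_of_exponent_le hT1 (by linarith)
      _ ≤ _ := Real.rpow_le_rpow hT0.le hX1 hη.le
  -- the constant terms
  have ha1' : 0 ≤ 3 * |(a : ℝ)| := by positivity
  have habs : 4 * |(w : ℝ)| ≤ 3 * |(a : ℝ)| * X := hw.trans (by gcongr)
  have habs' : 4 * |(w' : ℝ)| ≤ 3 * |(a : ℝ)| * X := hw'.trans (by gcongr)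
  have hne : a * w - a * w' ≠ 0 := by
    rw [← mul_sub]; exact hdet0
  have hCL : ∀ p : ℕ, p.Prime → ((2 * N : ℕ) : ℝ) ^ ε₁ < (p : ℝ) →
      (p : ℤ) ∣ a * w - a * w' → p ∈ (∅ : Finset ℕ) := by
    intro p hp hp2 hd
    exfalso
    apply hnd p ?_ (by rw [mul_sub]; exact hd)
    have h1 : (DB (2 * N) B : ℝ) < p := by
      linarith
    exact_mod_cast h1
  have hRC : ∀ b : ℕ → ℝ, RCM ∅ (((2 * N : ℕ) : ℝ) ^ ε₁) Z M b →
      RC (fun p => p ∈ (∅ : Finset ℕ)) (((2 * N : ℕ) : ℝ) ^ ε₁) Z (fun d => b d / M) := by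
    intro b hb
    refine ⟨fun d => ?_, fun d hd => ?_⟩
    · rw [abs_div, abs_of_pos (by linarith : 0 < M), div_le_one (by linarith)]
      exact hb.bd d
    · exact hb.supp d (fun h0 => hd (by rw [h0, zero_div]))
  -- the correlation theorem
  have hExa := hEXM.2.1 _ Unit {()}
    (fun _ => 1 / (Real.log ((2 * N : ℕ) : ℝ)) ^ (E₃ + 5)) _ _ _ _
    (fun _ _ => hEx2)
  simp only [Finset.sum_singleton] at hExa
  have hmain := hR X Z (by have := hN16; rcases hX with rfl | rfl <;> omega) hZ _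
    (fun p => p ∈ (∅ : Finset ℕ)) _ _ (((2 * N : ℕ) : ℝ) ^ ε₁) _ _ hy ?_ hExa hR0 hY0 ?_
    a w a w' ha ha haU haU habs habs' hne hCL _ _ (hRC b hb) (hRC b' hb')
  rotate_left
  · rintro p (h1 | h1)
    · have h2 : (p : ℝ) ≤ (DB (2 * N) B : ℝ) := by exact_mod_cast h1
      linarith
    · rw [Finset.empty_union] at h1
      exact (hP p h1).2.2
  · rw [abs_mul, abs_of_pos ha0, div_mul_eq_mul_div, one_mul, div_le_one (by positivity)]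
    simpa using hm0
  simp only [ds_div, hat_div] at hmain
  have hM0 : M ≠ 0 := by linarith
  have hlE : (Real.log ((2 * N : ℕ) : ℝ)) ^ (E₃ + 5) ≠ 0 := by positivity
  have key : ∀ n : ℤ, Wt X n * Mf a w w' D₁ Z Tr th th' b b' n =
      ((Real.log ((2 * N : ℕ) : ℝ)) ^ (E₃ + 5) * M ^ 2) * (Wt X n *
        (1 / (Real.log ((2 * N : ℕ) : ℝ)) ^ (E₃ + 5) *
          (Tr n * (FZ (uu a) (ww w w') ∅ (fun _ => 1) n ^ 2 *
              (Ev th D₁ (uu a none * n + ww w w' none) *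
                Ev th' D₁ (uu a (some 0) * n + ww w w' (some 0))))) *
          (ds b Z (a * n + w) / M * (ds b' Z (a * n + w') / M)))) := by
    intro n
    rw [FZ_empty, one_pow, one_mul]
    show Wt X n * (Tr n * (Ev th D₁ (a * n + w) * Ev th' D₁ (a * n + w')) *
      (ds b Z (a * n + w) * ds b' Z (a * n + w'))) = _
    show _ = ((Real.log ((2 * N : ℕ) : ℝ)) ^ (E₃ + 5) * M ^ 2) * (Wt X n *
        (1 / (Real.log ((2 * N : ℕ) : ℝ)) ^ (E₃ + 5) *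
          (Tr n * (Ev th D₁ (a * n + w) * Ev th' D₁ (a * n + w'))) *
          (ds b Z (a * n + w) / M * (ds b' Z (a * n + w') / M))))
    field_simp
  have hZX : Z ≤ X := by
    have h1 : (X : ℝ) ^ (1 / 2 + ε₀ / 4) ≤ (X : ℝ) := by
      calc (X : ℝ) ^ (1 / 2 + ε₀ / 4) ≤ (X : ℝ) ^ (1 : ℝ) :=
            Real.rpow_le_rpow_of_exponent_le hX1' (by linarith)
        _ = _ := Real.rpow_one _
    exact_mod_cast hZ.trans h1
  have hlX : 1 + Real.log X ≤ 2 * Real.log ((2 * N : ℕ) : ℝ) := by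
    have h1 : Real.log X ≤ Real.log (2 * ((2 * N : ℕ) : ℝ)) := Real.log_le_log hX0 hX3
    rw [Real.log_mul (by norm_num) hT0.ne'] at h1
    have h2 := Real.log_two_lt_d9
    linarith
  have hSb : ∀ b : ℕ → ℝ, RCM ∅ (((2 * N : ℕ) : ℝ) ^ ε₁) Z M b →
      |∑ d ∈ Icc 1 Z, b d / (d : ℝ)| ≤ M * (2 * Real.log ((2 * N : ℕ) : ℝ)) := by
    intro b hb
    refine (sum_bd b M Z X (by linarith) hb.bd hZX).trans ?_
    exact mul_le_mul_of_nonneg_left hlX (by linarith)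
  have hsumW : Summable (fun n : ℤ => Wt X n) := by
    have hone := hEXM.2.2.2.1 (fun _ => True) 1 0 le_rfl odd_one squarefree_one
      (fun _ _ _ => trivial)
    have h1 : ((1 : ℕ) : ℝ) ≤ (X : ℝ) ^ (1 - 1 / 2 : ℝ) := by
      rw [Nat.cast_one]
      exact Real.one_le_rpow hX1' (by norm_num)
    have hsW := (hX₀ X (by have := hNX; rcases hX with rfl | rfl <;> omega) _ _ _ _ _ hone h1).1
    simpa using hsW
  have hbd : ∃ Y : ℝ, 0 ≤ Y ∧ ∀ n : ℤ, |Tr n *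
        (Ev th D₁ (a * n + w) * Ev th' D₁ (a * n + w'))| ≤ Y := by
    refine ⟨_, (abs_nonneg _).trans (ex_bd hEx2 0), fun n => ?_⟩
    have e : Tr n * (Ev th D₁ (a * n + w) * Ev th' D₁ (a * n + w')) =
        Tr n * (FZ (uu a) (ww w w') ∅ (fun _ => 1) n ^ 2 *
          (Ev th D₁ (uu a none * n + ww w w' none) *
            Ev th' D₁ (uu a (some 0) * n + ww w w' (some 0)))) := by
      rw [FZ_empty, one_pow, one_mul]
      rfl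
    rw [e]
    exact ex_bd hEx2 n
  obtain ⟨Y, hY, hYb⟩ := hbd
  constructor
  · refine Summable.of_norm_bounded (g := fun n => Y * ((∑ d ∈ Icc 1 Z, |b d|) *
      ∑ d ∈ Icc 1 Z, |b' d|) * Wt X n) (hsumW.mul_left _) (fun n => ?_)
    have h2 := ds_bd b Z (a * n + w)
    have h3 := ds_bd b' Z (a * n + w')
    have h4 : 0 ≤ Wt X n := (Real.exp_pos _).le
    have h5 : 0 ≤ ∑ d ∈ Icc 1 Z, |b d| := Finset.sum_nonneg fun _ _ => abs_nonneg _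
    rw [Real.norm_eq_abs, abs_mul, abs_of_nonneg h4, mul_comm]
    refine mul_le_mul_of_nonneg_right ?_ h4
    unfold Mf
    rw [abs_mul, abs_mul (ds _ _ _)]
    exact mul_le_mul (hYb n) (mul_le_mul h2 h3 (abs_nonneg _) h5)
      (mul_nonneg (abs_nonneg _) (abs_nonneg _)) hY
  · rw [tsum_congr key, tsum_mul_left]
    have hdiff := diff_bd (Real.log ((2 * N : ℕ) : ℝ)) M X 1 t m3
      (hat th D₁ * hat th' D₁ * 1) (∑ d ∈ Icc 1 Z, b d / (d : ℝ))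
      (∑ d ∈ Icc 1 Z, b' d / (d : ℝ)) ((DB (2 * N) B : ℝ) + 1) 1 A B 0 E₃
      (by linarith) (hlM.trans hl) hM hX0.le le_rfl ht (by simp) hm3' hDB1 (by omega) (hSb b hb)
      (hSb b' hb')
    have herr := err_bd X (Real.log ((2 * N : ℕ) : ℝ)) M C η₁ A (E₃ + 5) hX0 hl0
      (hgE.trans (Real.rpow_le_rpow hT0.le hX1 hη₁.le))
    have hfin : (X : ℝ) / (Real.log ((2 * N : ℕ) : ℝ)) ^ A ≤ X / (Real.log N) ^ A := by
      refine div_le_div_of_nonneg_left hX0.le (pow_pos (by linarith) _) ?_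
      exact pow_le_pow_left₀ (by linarith) hl _
    have hc0 : 0 ≤ (Real.log ((2 * N : ℕ) : ℝ)) ^ (E₃ + 5) * M ^ 2 := by positivity
    have h1 := mul_le_mul_of_nonneg_left hmain hc0
    rw [← abs_of_nonneg hc0, ← abs_mul, abs_of_nonneg hc0] at h1
    have h2 : (X : ℝ) / (2 * (Real.log ((2 * N : ℕ) : ℝ)) ^ A) +
        X / (2 * (Real.log ((2 * N : ℕ) : ℝ)) ^ A) = X / (Real.log ((2 * N : ℕ) : ℝ)) ^ A := by
      field_simp
      ring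
    refine le_trans ?_ hfin
    rw [← h2]
    refine le_trans ?_ (add_le_add (h1.trans herr) hdiff)
    refine le_trans (le_of_eq ?_) (abs_add_le _ _)
    congr 1
    rw [mul_sub]
    have h3 : ∀ S S' : ℝ, (Real.log ((2 * N : ℕ) : ℝ)) ^ (E₃ + 5) * M ^ 2 *
        (X * (1 / (Real.log ((2 * N : ℕ) : ℝ)) ^ (E₃ + 5) *
          (t * m3) * (S / M * (S' / M)))) =
        X * ((1 / 1 * t * m3) * (S * S')) := by
      intro S S'
      field_simp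
    rw [h3]
    ring

end Q157.LG
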