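import Pool.Agent.Helper507.PNT

/-! Primes in residue classes in intervals, lower bound. -/

set_option autoImplicit false

namespace Q157.LG

open Finset Filter Topology ArithmeticFunction

theorem psiAP_unif (q : ℕ) [NeZero q] (a : ZMod q) (ha : IsUnit a) (ε : ℝ) (hε : 0 < ε) :
    ∀ᶠ X : ℕ in atTop, ∀ x : ℕ, x ≤ X →
      |∑ k ∈ Icc 1 x, vonMangoldt.residueClass a k - (x : ℝ) / q.totient| ≤ ε * X := by
  have h := Pool.Agent.Helper507.PNT.pnt_residueClass ha
  have h1 := (h.comp (tendsto_natCast_atTop_atTop (R := ℝ)))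
  have h2 := (Metric.tendsto_atTop.1 h1) ε hε
  obtain ⟨x₀, hx₀⟩ := h2
  have hbd : ∃ C : ℝ, 0 ≤ C ∧ ∀ x : ℕ, x ≤ x₀ →
      |∑ k ∈ Icc 1 x, vonMangoldt.residueClass a k - (x : ℝ) / q.totient| ≤ C := by
    refine ⟨∑ x ∈ range (x₀ + 1),
      |∑ k ∈ Icc 1 x, vonMangoldt.residueClass a k - (x : ℝ) / q.totient|, ?_, ?_⟩
    · exact Finset.sum_nonneg fun _ _ => abs_nonneg _
    · intro x hx
      exact Finset.single_le_sum (f := fun x : ℕ =>
        |∑ k ∈ Icc 1 x, vonMangoldt.residueClass a k - (x : ℝ) / q.totient|)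
        (fun _ _ => abs_nonneg _) (Finset.mem_range.2 (by omega))
  obtain ⟨C, hC0, hC⟩ := hbd
  filter_upwards [eventually_ge_atTop ⌈C / ε⌉₊] with X hX x hx
  have hXC : C ≤ ε * X := by
    have h3 : C / ε ≤ X := (Nat.le_ceil _).trans (by exact_mod_cast hX)
    rw [div_le_iff₀ hε] at h3
    linarith
  rcases le_total x x₀ with hxx | hxx
  · exact (hC x hxx).trans hXC
  · rcases Nat.eq_zero_or_pos x with h0 | h0
    · have := hC x (by omega)
      exact this.trans hXC
    have h3 := hx₀ x hxx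
    simp only [Function.comp, Real.dist_eq, Nat.floor_natCast] at h3
    have hx0 : (0 : ℝ) < x := by exact_mod_cast h0
    have e : ∑ k ∈ Icc 1 x, vonMangoldt.residueClass a k - (x : ℝ) / q.totient =
        x * ((∑ k ∈ Icc 1 x, vonMangoldt.residueClass a k) / x - ((q.totient : ℝ))⁻¹) := by
      field_simp
    rw [e, abs_mul, abs_of_pos hx0]
    calc (x : ℝ) * _ ≤ x * ε := mul_le_mul_of_nonneg_left h3.le hx0.le
      _ ≤ ε * X := by
        rw [mul_comm]
        exact mul_le_mul_of_nonneg_left (by exact_mod_cast hx) hε.le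

theorem primes_int (q : ℕ) [NeZero q] (ε : ℝ) (hε : 0 < ε) :
    ∀ᶠ X : ℕ in atTop, ∀ a : ZMod q, IsUnit a → ∀ x₁ x₂ : ℕ, x₁ ≤ x₂ → x₂ ≤ X →
      ((x₂ : ℝ) - x₁) / q.totient - ε * X ≤ Real.log X *
        (((Ioc x₁ x₂).filter (fun p : ℕ => p.Prime ∧ (p : ZMod q) = a)).card : ℝ) := by
  classical
  obtain ⟨C, hC⟩ := Chebyshev.psi_sub_theta_le_mul_sqrt
  have h1 : ∀ᶠ X : ℕ in atTop, ∀ a : ZMod q, IsUnit a → ∀ x : ℕ, x ≤ X →
      |∑ k ∈ Icc 1 x, vonMangoldt.residueClass a k - (x : ℝ) / q.totient| ≤ ε / 4 * X := by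
    rw [Filter.eventually_all]
    intro a
    by_cases ha : IsUnit a
    · filter_upwards [psiAP_unif q a ha (ε / 4) (by positivity)] with X hX _
      exact hX
    · exact Filter.Eventually.of_forall fun X h => absurd h ha
  have h2 : ∀ᶠ X : ℕ in atTop, |C| * Real.sqrt X ≤ ε / 2 * X := by
    have h3 : ∀ᶠ X : ℕ in atTop, 2 * |C| / ε ≤ Real.sqrt X :=
      (Real.tendsto_sqrt_atTop.comp tendsto_natCast_atTop_atTop).eventually_ge_atTop _
    filter_upwards [h3] with X hX
    rw [div_le_iff₀ hε] at hX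
    have h4 : Real.sqrt X * Real.sqrt X = X := Real.mul_self_sqrt (Nat.cast_nonneg X)
    have h5 : 0 ≤ Real.sqrt X := Real.sqrt_nonneg _
    nlinarith
  filter_upwards [h1, h2, eventually_ge_atTop 2] with X hX hX2 hX0 a ha x₁ x₂ h12 h2X
  have hX1 : (1 : ℝ) ≤ X := by exact_mod_cast (by omega : 1 ≤ X)
  have hlog0 : 0 ≤ Real.log X := Real.log_nonneg hX1
  have e1 := hX a ha x₁ (h12.trans h2X)
  have e2 := hX a ha x₂ h2X
  rw [abs_le] at e1 e2
  have hsplit : ∑ k ∈ Icc 1 x₂, vonMangoldt.residueClass a k =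
      ∑ k ∈ Icc 1 x₁, vonMangoldt.residueClass a k +
        ∑ k ∈ Ioc x₁ x₂, vonMangoldt.residueClass a k := by
    have : Icc 1 x₂ = Icc 1 x₁ ∪ Ioc x₁ x₂ := by
      ext k
      simp only [mem_Icc, mem_union, mem_Ioc]
      omega
    rw [this, sum_union]
    rw [Finset.disjoint_left]
    intro k hk hk'
    rw [mem_Icc] at hk
    rw [mem_Ioc] at hk'
    omega
  have hsum : ∑ k ∈ Ioc x₁ x₂, vonMangoldt.residueClass a k ≤
      Real.log X * (((Ioc x₁ x₂).filter (fun p : ℕ => p.Prime ∧ (p : ZMod q) = a)).card : ℝ) +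
        (Chebyshev.psi X - Chebyshev.theta X) := by
    have hpt : ∀ k ∈ Ioc x₁ x₂, vonMangoldt.residueClass a k ≤
        (if (k.Prime ∧ (k : ZMod q) = a) then Real.log X else 0) +
          (vonMangoldt k - (if k.Prime then Real.log k else 0)) := by
      intro k hk
      rw [mem_Ioc] at hk
      have hk1 : 1 ≤ k := by omega
      have hlk : Real.log k ≤ Real.log X :=
        Real.log_le_log (by exact_mod_cast hk1) (by exact_mod_cast hk.2.trans h2X)
      have hΛ0 : 0 ≤ vonMangoldt k := vonMangoldt_nonneg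
      have hrc : vonMangoldt.residueClass a k =
          if ((k : ZMod q) = a) then vonMangoldt k else 0 := by
        simp [vonMangoldt.residueClass, Set.indicator_apply]
      rw [hrc]
      by_cases hp : k.Prime
      · rw [vonMangoldt_apply_prime hp]
        by_cases hka : (k : ZMod q) = a
        · rw [if_pos hka, if_pos ⟨hp, hka⟩, if_pos hp]
          linarith
        · rw [if_neg hka, if_neg (fun h => hka h.2), if_pos hp]
          linarith
      · rw [if_neg (show ¬ (k.Prime ∧ (k : ZMod q) = a) from fun h => hp h.1), if_neg hp]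
        split_ifs
        · linarith
        · linarith
    refine (sum_le_sum hpt).trans ?_
    rw [sum_add_distrib]
    apply add_le_add
    · rw [← sum_filter, sum_const, nsmul_eq_mul, mul_comm]
    · have e3 : Chebyshev.psi X - Chebyshev.theta X =
          ∑ k ∈ Ioc 0 X, (vonMangoldt k - (if k.Prime then Real.log k else 0)) := by
        rw [sum_sub_distrib]
        unfold Chebyshev.psi Chebyshev.theta
        rw [Nat.floor_natCast, ← sum_filter]
      rw [e3]
      apply sum_le_sum_of_subset_of_nonneg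
      · intro k hk
        rw [mem_Ioc] at hk ⊢
        omega
      · intro k _ _
        by_cases hp : k.Prime
        · rw [vonMangoldt_apply_prime hp, if_pos hp, sub_self]
        · rw [if_neg hp, sub_zero]
          exact vonMangoldt_nonneg
  have hψ : Chebyshev.psi X - Chebyshev.theta X ≤ ε / 2 * X := by
    refine (hC X).trans (le_trans ?_ hX2)
    exact mul_le_mul_of_nonneg_right (le_abs_self _) (Real.sqrt_nonneg _)
  rw [hsplit] at e2
  have e4 : ((x₂ : ℝ) - x₁) / q.totient = (x₂ : ℝ) / q.totient - (x₁ : ℝ) / q.totient := sub_div _ _ _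
  rw [e4]
  linarith [e1.1, e1.2, e2.1, e2.2]

end Q157.LG
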