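import Pool.Agent.Q157.LG.Core

/-! Systems of linear forms: a random subsystem which contains every form with probability larger than
one quarter is hit by primes at the scale of the logarithm. -/

set_option autoImplicit false

namespace Q157.LG

open Finset Filter Topology

/-- the constant terms made prime to `W` -/
def adj (W : ℕ) (b : ℤ) : ℕ := ((1 - b) % (W : ℤ)).toNat

theorem adj_lt (W : ℕ) (hW : 0 < W) (b : ℤ) : adj W b < W := by
  unfold adj
  have h1 := Int.emod_nonneg (1 - b) (by exact_mod_cast hW.ne' : (W : ℤ) ≠ 0)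
  have h2 := Int.emod_lt_of_pos (1 - b) (by exact_mod_cast hW : (0 : ℤ) < W)
  omega

theorem adj_dvd (W : ℕ) (hW : 0 < W) (b : ℤ) : (W : ℤ) ∣ b + adj W b - 1 := by
  unfold adj
  have h1 := Int.emod_nonneg (1 - b) (by exact_mod_cast hW.ne' : (W : ℤ) ≠ 0)
  rw [Int.toNat_of_nonneg h1]
  have h2 : (W : ℤ) ∣ (1 - b) - (1 - b) % W := Int.dvd_self_sub_emod
  have h3 : b + (1 - b) % (W : ℤ) - 1 = -((1 - b) - (1 - b) % W) := by ring
  rw [h3]
  exact (dvd_neg).2 h2

theorem adj_prime (D : ℕ) (b : ℤ) (p : ℕ) (hp : p.Prime) (hpD : p ≤ D) :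
    ¬ (p : ℤ) ∣ b + adj (Wd D) b := by
  intro hd
  have h1 : (p : ℤ) ∣ (Wd D : ℤ) := by exact_mod_cast (dvd_Wd D p hp).2 hpD
  have h2 := h1.trans (adj_dvd (Wd D) (Wd_pos D) b)
  have h3 : (p : ℤ) ∣ 1 := by
    have := dvd_sub hd h2
    have e : b + (adj (Wd D) b : ℤ) - (b + adj (Wd D) b - 1) = 1 := by ring
    rwa [e] at this
  have h4 : p ∣ 1 := by exact_mod_cast h3
  exact hp.one_lt.ne' (Nat.dvd_one.1 h4)

open Classical in
/-- one form, either sign -/
theorem oneform : ∃ c₀ : ℝ, 0 < c₀ ∧ ∀ (A : ℕ) (c : ℝ), 1 ≤ A → 0 < c → ∃ D lam : ℕ, A ≤ D ∧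
    1 ≤ lam ∧ ∀ᶠ N : ℕ in atTop, ∀ (a b n₁ n₂ : ℤ), a ≠ 0 → |a| ≤ A →
    4 * (|b| + Wd D) ≤ 5 * (Wd D : ℤ) * N →
    -(2 * N : ℤ) < n₁ → n₂ < 2 * N → c * N ≤ (n₂ : ℝ) - n₁ →
    (∀ m : ℤ, n₁ ≤ m → m < n₂ → 1 ≤ a * (Wd D * m) + b) →
    (1 / 4 + c₀) * ((n₂ : ℝ) - n₁) ≤
      (((Ico n₁ n₂).filter (fun m => ∃ j < ⌈lam * Real.log N⌉₊, ∃ p : ℕ, p.Prime ∧
        (p : ℤ) = a * (Wd D * m) + b + (adj (Wd D) b + Wd D * j : ℕ))).card : ℝ) := by
  obtain ⟨c₀, hc₀, h⟩ := core
  refine ⟨c₀, hc₀, ?_⟩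
  intro A c hA hc
  obtain ⟨D, lam, hDA, hlam, h⟩ := h A c hA hc
  refine ⟨D, lam, hDA, hlam, ?_⟩
  filter_upwards [h, eventually_ge_atTop 1] with N hN hN1 a b n₁ n₂ ha haA hb hn1 hn2 hM hpos
  set W : ℕ := Wd D with hW
  have hW0 : 0 < W := Wd_pos D
  have hM0 : 0 < (n₂ : ℝ) - n₁ := lt_of_lt_of_le (by positivity) hM
  have hn12 : n₁ < n₂ := by
    have : (n₁ : ℝ) < n₂ := by linarith
    exact_mod_cast this
  have had := adj_lt W hW0 b
  have hα : 1 ≤ a.natAbs := Int.natAbs_pos.2 ha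
  have hαA : a.natAbs ≤ A := by
    have : (a.natAbs : ℤ) ≤ A := by rw [Int.natCast_natAbs]; exact haA
    exact_mod_cast this
  have hγ2 : 4 * |b + (adj W b : ℤ)| ≤ 5 * ((a.natAbs * W : ℕ) : ℤ) * N := by
    have h1 : |b + (adj W b : ℤ)| ≤ |b| + W := by
      refine (abs_add_le _ _).trans ?_
      rw [Nat.abs_cast]
      have : (adj W b : ℤ) ≤ W := by exact_mod_cast had.le
      linarith
    have h2 : (W : ℤ) ≤ ((a.natAbs * W : ℕ) : ℤ) := by
      exact_mod_cast Nat.le_mul_of_pos_left W hα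
    have h3 : 5 * (W : ℤ) * N ≤ 5 * ((a.natAbs * W : ℕ) : ℤ) * N := by
      have : (0 : ℤ) ≤ N := by positivity
      nlinarith
    linarith
  rcases lt_or_gt_of_ne ha with hneg | hposa
  · -- negative slope
    have habs : (a.natAbs : ℤ) = -a := by
      rw [Int.natCast_natAbs, abs_of_neg hneg]
    have h1 := hN a.natAbs (b + adj W b) (-n₂ + 1) (-n₁ + 1) hα hαA
      (fun p hp hpD => adj_prime D b p hp hpD) hγ2 (by omega) (by omega) (by
        push_cast; linarith) (by
        have h3 := hpos (n₂ - 1) (by omega) (by omega)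
        push_cast
        rw [show |a| = -a from abs_of_neg hneg]
        have h4 : (0 : ℤ) ≤ adj W b := Int.natCast_nonneg _
        have e : -a * (W : ℤ) * (-n₂ + 1) + (b + (adj W b : ℤ)) =
          (a * (W * (n₂ - 1)) + b) + adj W b := by ring
        rw [e]
        omega)
    have e1 : ((-n₁ + 1 : ℤ) : ℝ) - ((-n₂ + 1 : ℤ) : ℝ) = (n₂ : ℝ) - n₁ := by push_cast; ring
    rw [e1] at h1
    refine h1.trans ?_
    rw [Nat.cast_le]
    apply card_le_card_of_injOn (fun m => -m)
    · intro m hm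
      rw [mem_coe, mem_filter, mem_Ico] at hm
      obtain ⟨⟨hm1, hm2⟩, j, hj, p, hp, hpe⟩ := hm
      have hb : n₁ ≤ -m ∧ -m < n₂ := ⟨by omega, by omega⟩
      rw [mem_coe, mem_filter, mem_Ico]
      refine ⟨hb, j, hj, p, hp, ?_⟩
      rw [hpe]
      push_cast
      rw [show |a| = -a from abs_of_neg hneg]
      ring
    · intro m _ m' _ h3
      simpa using h3
  · -- positive slope
    have habs : (a.natAbs : ℤ) = a := by
      rw [Int.natCast_natAbs, abs_of_pos hposa]
    have h1 := hN a.natAbs (b + adj W b) n₁ n₂ hα hαA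
      (fun p hp hpD => adj_prime D b p hp hpD) hγ2 (by omega) (by omega) hM (by
        have h3 := hpos n₁ le_rfl hn12
        push_cast
        rw [show |a| = a from abs_of_pos hposa]
        have h4 : (0 : ℤ) ≤ adj W b := Int.natCast_nonneg _
        have e : a * (W : ℤ) * n₁ + (b + (adj W b : ℤ)) = (a * (W * n₁) + b) + adj W b := by ring
        rw [e]
        omega)
    refine h1.trans ?_
    rw [Nat.cast_le]
    apply card_le_card
    intro m hm
    rw [mem_filter] at hm ⊢
    obtain ⟨hm1, j, hj, p, hp, hpe⟩ := hm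
    refine ⟨hm1, j, hj, p, hp, ?_⟩
    rw [hpe]
    push_cast
    rw [show |a| = a from abs_of_pos hposa]
    ring

open Classical in
/-- `n` is hit by all the forms of `K` up to `R` -/
def hitS {T : ℕ} (a b : Fin T → ℤ) (R : ℝ) (K : Finset (Fin T)) (n : ℤ) : Prop :=
  ∀ i ∈ K, ∃ s : ℕ, (s : ℝ) ≤ R ∧ ∃ p : ℕ, p.Prime ∧ (p : ℤ) = a i * n + b i + s

open Classical in
theorem sys : ∃ c₀ : ℝ, 0 < c₀ ∧ ∀ (T A : ℕ) (c : ℝ), 1 ≤ A → 0 < c → ∃ C : ℕ, ∃ δ : ℝ, 0 < δ ∧
    ∀ᶠ X : ℕ in atTop, ∀ (a b : Fin T → ℤ) (x y : ℤ), (∀ i, a i ≠ 0 ∧ |a i| ≤ A) →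
    -(X : ℤ) ≤ x → y ≤ X → c * X ≤ (y : ℝ) - x →
    (∀ i, ∀ n : ℤ, x ≤ n → n ≤ y → 1 ≤ a i * n + b i ∧ a i * n + b i ≤ X) →
    ∃ P : Finset (Fin T) → ℝ, (∀ I, 0 ≤ P I) ∧ ∑ I, P I = 1 ∧
      (∀ i, 1 / 4 + c₀ ≤ ∑ I with i ∈ I, P I) ∧
      ∀ I, 0 < P I → δ * X ≤
        (((Icc x y).filter (fun n => hitS a b (C * Real.log X) I n)).card : ℝ) := by
  obtain ⟨c₀, hc₀, h⟩ := oneform
  refine ⟨c₀ / 2, by positivity, ?_⟩
  intro T A c hA hc
  set c' : ℝ := c / (2 * (A + 2)) with hc'
  have hc'0 : 0 < c' := by positivity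
  obtain ⟨D, lam, hDA, hlam, h⟩ := h A c' hA hc'0
  set W : ℕ := Wd D with hW
  have hW0 : 0 < W := Wd_pos D
  have hWr : (0 : ℝ) < W := by exact_mod_cast hW0
  set δ' : ℝ := min (c₀ / (2 * 2 ^ T)) (1 / 2) with hδ'
  have hδ'0 : 0 < δ' := lt_min (by positivity) (by norm_num)
  refine ⟨W + W * (2 * lam + 1), δ' * c / (2 * W), by positivity, ?_⟩
  have hT : Tendsto (fun X : ℕ => (A + 2) * X / W + 1) atTop atTop := by
    have h1 : Tendsto (fun X : ℕ => X / W) atTop atTop := Nat.tendsto_div_const_atTop hW0.ne'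
    apply tendsto_atTop_mono (fun X => ?_) h1
    have : X / W ≤ (A + 2) * X / W := Nat.div_le_div_right (by nlinarith)
    omega
  filter_upwards [hT.eventually h, evlog' 1, eventually_ge_atTop (A + 4),
    (tendsto_natCast_atTop_atTop (R := ℝ)).eventually_ge_atTop (2 * W * (3 + c') / c),
    eventually_ge_atTop (8 * W)] with X hX hl1 hXA hXc hXW
  intro a b x y ha hx hy hxy hpos
  set N : ℕ := (A + 2) * X / W + 1 with hN
  have hX0 : (0 : ℝ) < X := by
    have : 0 < X := by omega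
    exact_mod_cast this
  have hNlo : (A + 2) * X ≤ W * N := by
    have h1 := Nat.lt_mul_div_succ ((A + 2) * X) hW0
    rw [hN]
    exact h1.le
  have hNup : W * N ≤ (A + 2) * X + W := by
    have h1 := Nat.mul_div_le ((A + 2) * X) W
    rw [hN, mul_add, mul_one]
    omega
  have hNlor : ((A : ℝ) + 2) * X ≤ W * N := by exact_mod_cast hNlo
  have hNupr : (W : ℝ) * N ≤ ((A : ℝ) + 2) * X + W := by exact_mod_cast hNup
  -- the interval
  set n₁ : ℤ := ⌈(x : ℝ) / W⌉ with hn₁
  set n₂ : ℤ := ⌊(y : ℝ) / W⌋ with hn₂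
  have h1x : x ≤ W * n₁ := by
    have h1 : (x : ℝ) / W ≤ n₁ := Int.le_ceil _
    rw [div_le_iff₀ hWr] at h1
    have h2 : (x : ℝ) ≤ ((W * n₁ : ℤ) : ℝ) := by push_cast; linarith
    exact_mod_cast h2
  have h2y : W * n₂ ≤ y := by
    have h1 : (n₂ : ℝ) ≤ (y : ℝ) / W := Int.floor_le _
    rw [le_div_iff₀ hWr] at h1
    have h2 : ((W * n₂ : ℤ) : ℝ) ≤ (y : ℝ) := by push_cast; linarith
    exact_mod_cast h2
  have hlen : c * X / W - 2 ≤ (n₂ : ℝ) - n₁ := by
    have h1 : (n₁ : ℝ) < x / W + 1 := Int.ceil_lt_add_one _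
    have h2 : (y : ℝ) / W - 1 < n₂ := Int.sub_one_lt_floor _
    have h3 : c * X / W ≤ (y : ℝ) / W - x / W := by
      rw [← sub_div]
      gcongr
    linarith
  have hcN : c' * N ≤ c * X / W - 2 - 1 := by
    have h1 : (N : ℝ) ≤ ((A : ℝ) + 2) * X / W + 1 := by
      rw [← sub_le_iff_le_add, le_div_iff₀ hWr]
      linarith
    have h2 : c' * N ≤ c * X / (2 * W) + c' := by
      calc c' * N ≤ c' * (((A : ℝ) + 2) * X / W + 1) := by gcongr
        _ = c * X / (2 * W) + c' := by
            rw [hc']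
            field_simp
    have h3 : 3 + c' ≤ c * X / (2 * W) := by
      rw [div_le_iff₀ hc] at hXc
      rw [le_div_iff₀ (by positivity)]
      linarith
    have h4 : c * X / W = c * X / (2 * W) + c * X / (2 * W) := by
      field_simp
      ring
    linarith
  have hMN : c' * N ≤ (n₂ : ℝ) - n₁ := by linarith
  have hc'N : 0 ≤ c' * N := by positivity
  have hM0 : 0 < (n₂ : ℝ) - n₁ := by linarith
  have hn12 : n₁ < n₂ := by
    have : (n₁ : ℝ) < n₂ := by linarith
    exact_mod_cast this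
  have hn1N : -(2 * N : ℤ) < n₁ := by
    have h1 : -(W * N : ℤ) < W * n₁ := by
      have h2 : ((A + 2) * X : ℤ) ≤ W * N := by exact_mod_cast hNlo
      have h3 : (X : ℤ) < (A + 2) * X := by
        have : (0 : ℤ) < X := by omega
        nlinarith
      linarith
    have h2 : (W : ℤ) * (-N) < W * n₁ := by linarith
    have h3 := lt_of_mul_lt_mul_left h2 (by positivity)
    have h4 : (0 : ℤ) ≤ N := by positivity
    linarith
  have hn2N : n₂ < 2 * N := by
    have h1 : (W : ℤ) * n₂ < W * N := by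
      have h2 : ((A + 2) * X : ℤ) ≤ W * N := by exact_mod_cast hNlo
      have h3 : (X : ℤ) < (A + 2) * X := by
        have : (0 : ℤ) < X := by omega
        nlinarith
      linarith
    have h3 := lt_of_mul_lt_mul_left h1 (by positivity)
    have h4 : (0 : ℤ) ≤ N := by positivity
    linarith
  have hrange : ∀ m : ℤ, n₁ ≤ m → m < n₂ → x ≤ W * m ∧ W * m ≤ y := by
    intro m hm1 hm2
    have hWi : (0 : ℤ) < W := by exact_mod_cast hW0
    constructor
    · nlinarith
    · nlinarith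
  -- the constant terms
  have hb : ∀ i, 4 * (|b i| + W) ≤ 5 * (W : ℤ) * N := by
    intro i
    obtain ⟨h1, h2⟩ := hrange n₁ le_rfl hn12
    obtain ⟨h3, h4⟩ := hpos i _ h1 h2
    have h5 : |a i * (W * n₁)| ≤ A * X := by
      rw [abs_mul]
      have h6 : |(W : ℤ) * n₁| ≤ X := by
        rw [abs_le]
        exact ⟨by linarith, by linarith⟩
      exact mul_le_mul (ha i).2 h6 (abs_nonneg _) (by positivity)
    have h6 : |b i| ≤ (A + 1) * X := by
      have h7 := abs_le.1 h5
      rw [abs_le]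
      constructor
      · nlinarith
      · nlinarith
    have h7 : ((A + 2) * X : ℤ) ≤ W * N := by exact_mod_cast hNlo
    have h8 : (8 * W : ℤ) ≤ X := by exact_mod_cast hXW
    nlinarith
  set H : ℕ := ⌈lam * Real.log N⌉₊ with hH
  -- the hits
  set hitm : Fin T → ℤ → Prop := fun i m => ∃ j < H, ∃ p : ℕ, p.Prime ∧
    (p : ℤ) = a i * (W * m) + b i + (adj W (b i) + W * j : ℕ) with hhit
  have hS : ∀ i, (1 / 4 + c₀) * ((n₂ : ℝ) - n₁) ≤ (((Ico n₁ n₂).filter (hitm i)).card : ℝ) := by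
    intro i
    exact hX (a i) (b i) n₁ n₂ (ha i).1 (ha i).2 (hb i) hn1N hn2N hMN (fun m hm1 hm2 => by
      obtain ⟨h1, h2⟩ := hrange m hm1 hm2
      exact (hpos i _ h1 h2).1)
  -- the distribution
  set ind : ℤ → Finset (Fin T) := fun m => univ.filter (fun i => hitm i m) with hind
  set M : ℝ := (n₂ : ℝ) - n₁ with hM
  have hcardJ : ((Ico n₁ n₂).card : ℝ) = M := by
    rw [Int.card_Ico, hM]
    have : (((n₂ - n₁).toNat : ℤ) : ℝ) = ((n₂ - n₁ : ℤ) : ℝ) := by
      rw [Int.toNat_of_nonneg (by omega)]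
    rw [Int.cast_natCast] at this
    rw [this]
    push_cast
    ring
  set f : Finset (Fin T) → ℝ := fun I => (((Ico n₁ n₂).filter (fun m => ind m = I)).card : ℝ) / M
    with hf
  have hf0 : ∀ I, 0 ≤ f I := fun I => by positivity
  have hf1 : ∑ I, f I = 1 := by
    rw [hf, ← sum_div, ← Nat.cast_sum]
    rw [← card_eq_sum_card_fiberwise (fun m _ => mem_coe.2 (mem_univ (ind m)))]
    rw [hcardJ]
    exact div_self hM0.ne'
  have hfi : ∀ i, 1 / 4 + c₀ ≤ ∑ I with i ∈ I, f I := by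
    intro i
    have h1 : ∑ I with i ∈ I, f I = (((Ico n₁ n₂).filter (hitm i)).card : ℝ) / M := by
      rw [hf, ← sum_div, ← Nat.cast_sum]
      congr 2
      have h2 : ∀ m ∈ (Ico n₁ n₂).filter (hitm i), ind m ∈ univ.filter (fun I => i ∈ I) := by
        intro m hm
        rw [mem_filter] at hm ⊢
        refine ⟨mem_univ _, ?_⟩
        rw [hind]
        simp only [mem_filter, mem_univ, true_and]
        exact hm.2
      rw [card_eq_sum_card_fiberwise (fun m hm => mem_coe.2 (h2 m (mem_coe.1 hm)))]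
      apply sum_congr rfl
      intro I hI
      rw [mem_filter] at hI
      congr 1
      ext m
      rw [mem_filter, mem_filter, mem_filter]
      constructor
      · rintro ⟨h3, h4⟩
        refine ⟨⟨h3, ?_⟩, h4⟩
        rw [← h4, hind] at hI
        simp only [mem_filter, mem_univ, true_and] at hI
        exact hI
      · rintro ⟨⟨h3, _⟩, h4⟩
        exact ⟨h3, h4⟩
    rw [h1, le_div_iff₀ hM0]
    exact hS i
  -- remove the rare sets
  set g : Finset (Fin T) → ℝ := fun I => if δ' ≤ f I then f I else 0 with hg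
  have hg0 : ∀ I, 0 ≤ g I := fun I => by
    rw [hg]; simp only; split_ifs; exacts [hf0 I, le_rfl]
  have hgf : ∀ I, f I - δ' ≤ g I ∧ g I ≤ f I := by
    intro I
    rw [hg]
    simp only
    split_ifs with h1
    · exact ⟨by linarith, le_rfl⟩
    · exact ⟨by push Not at h1; linarith, hf0 I⟩
  have hcardP : ((univ : Finset (Finset (Fin T))).card : ℝ) = 2 ^ T := by
    rw [card_univ, Fintype.card_finset, Fintype.card_fin]
    push_cast
    rfl
  have hδT : (2 : ℝ) ^ T * δ' ≤ c₀ / 2 := by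
    calc (2 : ℝ) ^ T * δ' ≤ 2 ^ T * (c₀ / (2 * 2 ^ T)) := by
          gcongr
          exact min_le_left _ _
      _ = c₀ / 2 := by field_simp
  have hgs : ∑ I, g I ≤ 1 := by
    rw [← hf1]
    exact sum_le_sum fun I _ => (hgf I).2
  have hgi : ∀ i, 1 / 4 + c₀ / 2 ≤ ∑ I with i ∈ I, g I := by
    intro i
    have h1 : ∑ I with i ∈ I, (f I - δ') ≤ ∑ I with i ∈ I, g I :=
      sum_le_sum fun I _ => (hgf I).1
    rw [sum_sub_distrib, sum_const, nsmul_eq_mul] at h1
    have h2 : (((univ : Finset (Finset (Fin T))).filter (fun I => i ∈ I)).card : ℝ) * δ' ≤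
        2 ^ T * δ' := by
      rw [← hcardP]
      gcongr
      exact filter_subset _ _
    have h3 := hfi i
    linarith
  refine ⟨fun I => g I + (if I = ∅ then 1 - ∑ J, g J else 0), ?_, ?_, ?_, ?_⟩
  · intro I
    have := hg0 I
    show 0 ≤ g I + (if I = ∅ then 1 - ∑ J, g J else 0)
    split_ifs
    · linarith
    · linarith
  · rw [sum_add_distrib, Finset.sum_ite_eq']
    simp
  · intro i
    refine (hgi i).trans (sum_le_sum fun I _ => ?_)
    split_ifs
    · linarith
    · linarith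
  · intro I hI
    have hI : 0 < g I + (if I = ∅ then 1 - ∑ J, g J else 0) := hI
    have hlogN : lam * Real.log N + 1 ≤ (2 * lam + 1) * Real.log X := by
      have h1 : (N : ℝ) ≤ (X : ℝ) ^ 2 := by
        have h2 : N ≤ (A + 2) * X + 1 := by
          rw [hN]
          have := Nat.div_le_self ((A + 2) * X) W
          omega
        have h3 : (A + 2) * X + 1 ≤ X ^ 2 := by nlinarith
        exact_mod_cast h2.trans h3
      have h2 : Real.log N ≤ 2 * Real.log X := by
        have h3 : (0 : ℝ) < N := by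
          have : 0 < N := by omega
          exact_mod_cast this
        have h4 := Real.log_le_log h3 h1
        rwa [Real.log_pow, Nat.cast_ofNat] at h4
      have h3 : (lam : ℝ) * Real.log N ≤ lam * (2 * Real.log X) := by gcongr
      linarith
    have hHr : (H : ℝ) ≤ (2 * lam + 1) * Real.log X := by
      have h1 : (H : ℝ) ≤ lam * Real.log N + 1 := by
        apply (Nat.ceil_lt_add_one _).le
        apply mul_nonneg (Nat.cast_nonneg _)
        apply Real.log_natCast_nonneg
      linarith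
    -- the set is frequent
    have hfreq : δ' * M ≤ (((Ico n₁ n₂).filter (fun m => ∀ i ∈ I, hitm i m)).card : ℝ) := by
      by_cases h0 : I = ∅
      · rw [h0]
        have h1 : (Ico n₁ n₂).filter (fun m => ∀ i ∈ (∅ : Finset (Fin T)), hitm i m) = Ico n₁ n₂ := by
          rw [filter_true_of_mem]
          intro m _ i hi
          exact absurd hi (notMem_empty i)
        rw [h1, hcardJ]
        have h2 : δ' ≤ 1 / 2 := min_le_right _ _
        nlinarith
      · rw [if_neg h0, add_zero] at hI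
        have h1 : δ' ≤ f I := by
          by_contra hcon
          rw [hg] at hI
          simp only at hI
          rw [if_neg hcon] at hI
          exact lt_irrefl _ hI
        have h2 : δ' * M ≤ (((Ico n₁ n₂).filter (fun m => ind m = I)).card : ℝ) := by
          rw [hf, le_div_iff₀ hM0] at h1
          exact h1
        refine h2.trans ?_
        rw [Nat.cast_le]
        apply card_le_card
        intro m hm
        rw [mem_filter] at hm ⊢
        refine ⟨hm.1, fun i hi => ?_⟩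
        rw [← hm.2, hind] at hi
        simp only [mem_filter, mem_univ, true_and] at hi
        exact hi
    have h5 : δ' * c / (2 * W) * X ≤ δ' * M := by
      have h6 : c * X / (2 * W) ≤ M := by
        have h7 : c * X / W = c * X / (2 * W) + c * X / (2 * W) := by
          field_simp
          ring
        have h8 : 3 + c' ≤ c * X / (2 * W) := by
          rw [div_le_iff₀ hc] at hXc
          rw [le_div_iff₀ (by positivity)]
          linarith
        linarith
      calc δ' * c / (2 * W) * X = δ' * (c * X / (2 * W)) := by ring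
        _ ≤ δ' * M := by gcongr
    refine h5.trans (hfreq.trans ?_)
    rw [Nat.cast_le]
    apply card_le_card_of_injOn (fun m : ℤ => (W : ℤ) * m)
    · intro m hm
      rw [mem_coe, mem_filter, mem_Ico] at hm
      obtain ⟨⟨hm1, hm2⟩, hm3⟩ := hm
      obtain ⟨h6, h7⟩ := hrange m hm1 hm2
      rw [mem_coe, mem_filter, mem_Icc]
      refine ⟨⟨h6, h7⟩, ?_⟩
      intro i hi
      obtain ⟨j, hj, p, hp, hpe⟩ := hm3 i hi
      refine ⟨adj W (b i) + W * j, ?_, p, hp, hpe⟩
      have h8 := adj_lt W hW0 (b i)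
      have h9 : ((adj W (b i) + W * j : ℕ) : ℝ) ≤ W + W * ((2 * lam + 1) * Real.log X) := by
        push_cast
        have h10 : (adj W (b i) : ℝ) ≤ W := by exact_mod_cast h8.le
        have h11 : (j : ℝ) ≤ (2 * lam + 1) * Real.log X := le_trans (by exact_mod_cast hj.le) hHr
        gcongr
      refine h9.trans ?_
      push_cast
      nlinarith
    · intro m _ m' _ h6
      simp only at h6
      exact mul_left_cancel₀ (by exact_mod_cast hW0.ne') h6

end Q157.LG
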