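import Pool.Agent.Q157.LG.Mom
import Pool.Agent.W398.UNFO

/-! Root counts for two forms with the same slope. -/

set_option autoImplicit false

namespace Q157.LG

open Finset Filter Topology
open Pool.Agent.W25.UN Pool.Agent.W25.UB
open Pool.Agent.W398.UNFO (rho Om_eq)

theorem rho_eq_iff {p : ℕ} [Fact p.Prime] {a w w' : ℤ} (ha : ¬ (p : ℤ) ∣ a) :
    rho p a w = rho p a w' ↔ (p : ℤ) ∣ w - w' := by
  have ha0 : (a : ZMod p) ≠ 0 := fun h => ha ((ZMod.intCast_zmod_eq_zero_iff_dvd a p).1 h)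
  rw [← ZMod.intCast_zmod_eq_zero_iff_dvd]
  unfold rho
  rw [div_left_inj' ha0, neg_inj]
  push_cast
  rw [sub_eq_zero]

theorem om1 (a w : ℤ) (p : ℕ) (hp : p.Prime) (ha : ¬ (p : ℤ) ∣ a) :
    (Om (fun _ : Option (Fin 0) => a) (fun _ => w) p).card = 1 := by
  have : Fact p.Prime := ⟨hp⟩
  rw [Om_eq _ _ p (fun _ => ha)]
  have h1 : (univ : Finset (Option (Fin 0))) = {none} := by decide
  rw [h1, image_singleton, card_singleton]

theorem om2 (a w w' : ℤ) (p : ℕ) (hp : p.Prime) (ha : ¬ (p : ℤ) ∣ a) :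
    (Om (uu a) (ww w w') p).card = if (p : ℤ) ∣ w - w' then 1 else 2 := by
  have : Fact p.Prime := ⟨hp⟩
  rw [Om_eq (uu a) (ww w w') p (fun _ => ha)]
  have h1 : (univ : Finset (Option (Fin 1))) = {none, some 0} := by decide
  rw [h1, image_insert, image_singleton]
  show ({(rho p a w).val, (rho p a w').val} : Finset ℕ).card = _
  split_ifs with h
  · rw [(rho_eq_iff ha).2 h]
    simp
  · rw [card_pair]
    intro h2
    exact h ((rho_eq_iff ha).1 (ZMod.val_injective p h2))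

/-- the local factor of a pair -/
noncomputable def fc (h : ℤ) (p : ℕ) : ℝ := if (p : ℤ) ∣ h then 1 + 1 / ((p : ℝ) - 1) else 1

theorem loc_le (h : ℤ) (p : ℕ) (hp : 2 ≤ p) :
    1 - (((if (p : ℤ) ∣ h then 1 else 2 : ℕ)) : ℝ) / p ≤ (1 - 1 / (p : ℝ)) ^ 2 * fc h p := by
  have hp2 : (2 : ℝ) ≤ p := by exact_mod_cast hp
  have hp0 : (0 : ℝ) < p := by linarith
  have hp1 : (0 : ℝ) < (p : ℝ) - 1 := by linarith
  unfold fc
  split_ifs
  · apply le_of_eq
    field_simp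
    push_cast
    ring
  · rw [mul_one]
    have : (1 - 1 / (p : ℝ)) ^ 2 = 1 - 2 / p + 1 / (p : ℝ) ^ 2 := by ring
    rw [this]
    push_cast
    have h3 : 0 ≤ 1 / (p : ℝ) ^ 2 := by positivity
    linarith

theorem prod_om2_le (a w w' : ℤ) (D D' : ℕ)
    (ha : ∀ p : ℕ, p.Prime → D < p → ¬ (p : ℤ) ∣ a) :
    ∏ p ∈ (Icc (D + 1) D').filter Nat.Prime, (1 - ((Om (uu a) (ww w w') p).card : ℝ) / p) ≤
      (∏ p ∈ (Icc (D + 1) D').filter Nat.Prime, (1 - 1 / (p : ℝ))) ^ 2 *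
        ∏ p ∈ (Icc (D + 1) D').filter Nat.Prime, fc (w - w') p := by
  rw [← Finset.prod_pow, ← Finset.prod_mul_distrib]
  apply Finset.prod_le_prod
  · intro p hp
    rw [mem_filter, mem_Icc] at hp
    rw [om2 a w w' p hp.2 (ha p hp.2 (by omega))]
    have hp2 : (2 : ℝ) ≤ p := by exact_mod_cast hp.2.two_le
    have h1 : (((if (p : ℤ) ∣ w - w' then 1 else 2 : ℕ)) : ℝ) ≤ 2 := by
      split_ifs <;> norm_num
    have h2 : (((if (p : ℤ) ∣ w - w' then 1 else 2 : ℕ)) : ℝ) / p ≤ 1 := by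
      rw [div_le_one (by linarith)]
      linarith
    linarith
  · intro p hp
    rw [mem_filter, mem_Icc] at hp
    rw [om2 a w w' p hp.2 (ha p hp.2 (by omega))]
    exact loc_le _ p hp.2.two_le

theorem prod_om1 (a w : ℤ) (D D' : ℕ)
    (ha : ∀ p : ℕ, p.Prime → D < p → ¬ (p : ℤ) ∣ a) :
    ∏ p ∈ (Icc (D + 1) D').filter Nat.Prime,
      (1 - ((Om (fun _ : Option (Fin 0) => a) (fun _ => w) p).card : ℝ) / p) =
      ∏ p ∈ (Icc (D + 1) D').filter Nat.Prime, (1 - 1 / (p : ℝ)) := by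
  apply Finset.prod_congr rfl
  intro p hp
  rw [mem_filter, mem_Icc] at hp
  rw [om1 a w p hp.2 (ha p hp.2 (by omega))]
  simp

theorem prod_om2_bd (a w w' : ℤ) (D D' : ℕ)
    (ha : ∀ p : ℕ, p.Prime → D < p → ¬ (p : ℤ) ∣ a) :
    0 ≤ ∏ p ∈ (Icc (D + 1) D').filter Nat.Prime, (1 - ((Om (uu a) (ww w w') p).card : ℝ) / p) ∧
    ∏ p ∈ (Icc (D + 1) D').filter Nat.Prime, (1 - ((Om (uu a) (ww w w') p).card : ℝ) / p) ≤ 1 := by
  have key : ∀ p ∈ (Icc (D + 1) D').filter Nat.Prime,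
      0 ≤ 1 - ((Om (uu a) (ww w w') p).card : ℝ) / p ∧
      1 - ((Om (uu a) (ww w w') p).card : ℝ) / p ≤ 1 := by
    intro p hp
    rw [mem_filter, mem_Icc] at hp
    rw [om2 a w w' p hp.2 (ha p hp.2 (by omega))]
    have hp2 : (2 : ℝ) ≤ p := by exact_mod_cast hp.2.two_le
    have h1 : (((if (p : ℤ) ∣ w - w' then 1 else 2 : ℕ)) : ℝ) ≤ 2 := by
      split_ifs <;> norm_num
    have h2 : (((if (p : ℤ) ∣ w - w' then 1 else 2 : ℕ)) : ℝ) / p ≤ 1 := by
      rw [div_le_one (by linarith)]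
      linarith
    have h3 : 0 ≤ (((if (p : ℤ) ∣ w - w' then 1 else 2 : ℕ)) : ℝ) / p := by positivity
    exact ⟨by linarith, by linarith⟩
  exact ⟨prod_nonneg fun p hp => (key p hp).1, prod_le_one (fun p hp => (key p hp).1)
    fun p hp => (key p hp).2⟩

theorem fc_one_le (h : ℤ) (p : ℕ) (hp : 2 ≤ p) : 1 ≤ fc h p := by
  have hp2 : (2 : ℝ) ≤ p := by exact_mod_cast hp
  unfold fc
  split_ifs
  · have : 0 ≤ 1 / ((p : ℝ) - 1) := by
      apply div_nonneg zero_le_one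
      linarith
    linarith
  · exact le_rfl

end Q157.LG
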