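import Pool.Agent.Q157.LG.Data
import Pool.Agent.Q157.LG.Low
import Pool.Agent.Q157.LG.Var0
import Pool.Agent.Q157.LG.Alg

/-! Moments of the majorant of the primes. -/

set_option autoImplicit false

namespace Q157.LG

open Finset Filter Topology
open Pool.Agent.W25.UN Pool.Agent.W25.UB
open Pool.Agent.TH899.UG (R2LAt St_VLNF)
open Pool.Agent.H410R2 (BD)
open Pool.Agent.W23.PL (DW Ev hat P1 xx)
open Pool.Agent.H442R2.KF (Wt)
open Pool.Agent.W565.UB (evlog)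
open Pool.Agent.W89.UBMAS (ds_bd)

/-- the majorant of the indicator of the primes -/
noncomputable def bet (N B D z : ℕ) (ε₁ : ℝ) (b : ℕ → ℝ) (m : ℤ) : ℝ :=
  xx ((Icc (D + 1) (DB (2 * N) B)).filter Nat.Prime) m * xx (P1 (2 * N) B ε₁) m * ds b (z ^ 2) m

/-- the trivial weight -/
noncomputable def dl1 : ℕ → ℝ := fun d => if d = 1 then 1 else 0

theorem xx_cases (P : Finset ℕ) (m : ℤ) : xx P m = 0 ∨ xx P m = 1 := by
  unfold xx
  split_ifs
  · right; rfl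
  · left; rfl

theorem xx_nonneg (P : Finset ℕ) (m : ℤ) : 0 ≤ xx P m := by
  rcases xx_cases P m with h | h <;> rw [h] <;> norm_num

theorem xx_le_one (P : Finset ℕ) (m : ℤ) : xx P m ≤ 1 := by
  rcases xx_cases P m with h | h <;> rw [h] <;> norm_num

theorem xx_eq_one (P : Finset ℕ) (m : ℤ) (h : ∀ p ∈ P, ¬ (p : ℤ) ∣ m) : xx P m = 1 := by
  unfold xx
  rw [if_pos h]

theorem xx_eq_zero (P : Finset ℕ) (m : ℤ) (h : ∃ p ∈ P, (p : ℤ) ∣ m) : xx P m = 0 := by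
  unfold xx
  rw [if_neg]
  intro h2
  obtain ⟨p, hp, hd⟩ := h
  exact h2 p hp hd

theorem of_xx_one (P : Finset ℕ) (m : ℤ) (h : xx P m = 1) : ∀ p ∈ P, ¬ (p : ℤ) ∣ m := by
  intro p hp hd
  rw [xx_eq_zero P m ⟨p, hp, hd⟩] at h
  norm_num at h

theorem of_xx_zero (P : Finset ℕ) (m : ℤ) (h : xx P m = 0) : ∃ p ∈ P, (p : ℤ) ∣ m := by
  by_contra hcon
  push Not at hcon
  rw [xx_eq_one P m hcon] at h
  norm_num at h

theorem sum_dl1 (Z : ℕ) (hZ : 1 ≤ Z) (f : ℕ → ℝ) : ∑ d ∈ Icc 1 Z, dl1 d * f d = f 1 := by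
  unfold dl1
  rw [Finset.sum_eq_single 1]
  · simp
  · intro d _ hd
    rw [if_neg hd, zero_mul]
  · intro h
    exact absurd (mem_Icc.2 ⟨le_rfl, hZ⟩) h

theorem Ev_dl1 (Z : ℕ) (hZ : 1 ≤ Z) (m : ℤ) : Ev dl1 Z m = 1 := by
  unfold Ev
  rw [sum_dl1 Z hZ (fun e => if (e : ℤ) ∣ m then 1 else 0)]
  simp

theorem ds_dl1 (Z : ℕ) (hZ : 1 ≤ Z) (m : ℤ) : ds dl1 Z m = 1 := by
  unfold ds
  rw [sum_dl1 Z hZ (fun e => if (e : ℤ) ∣ m then 1 else 0)]
  simp

theorem hat_dl1 (Z : ℕ) (hZ : 1 ≤ Z) : hat dl1 Z = 1 := by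
  unfold hat
  have h := sum_dl1 Z hZ (fun e => 1 / (e : ℝ))
  simp only [mul_one_div] at h
  rw [h]
  simp

theorem hatb_dl1 (Z : ℕ) (hZ : 1 ≤ Z) : ∑ d ∈ Icc 1 Z, dl1 d / (d : ℝ) = 1 := hat_dl1 Z hZ

theorem DW_dl1 (P : Finset ℕ) (D : ℕ) (hD : 1 ≤ D) (U : ℝ) (hU : 1 ≤ U) : DW P D U dl1 := by
  refine ⟨fun e => ?_, fun e he => ?_⟩
  · unfold dl1
    split_ifs
    · rw [abs_one]; exact hU
    · rw [abs_zero]; linarith
  · unfold dl1 at he
    have h1 : e = 1 := by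
      by_contra h
      exact he (if_neg h)
    subst h1
    exact ⟨squarefree_one, hD, fun p hp hd => absurd (Nat.dvd_one.1 hd) hp.one_lt.ne'⟩

theorem RCM_dl1 (y : ℝ) (Z : ℕ) (hZ : 1 ≤ Z) (M : ℝ) (hM : 1 ≤ M) : RCM ∅ y Z M dl1 := by
  refine ⟨fun e => ?_, fun e he => ?_⟩
  · unfold dl1
    split_ifs
    · rw [abs_one]; exact hM
    · rw [abs_zero]; linarith
  · unfold dl1 at he
    have h1 : e = 1 := by
      by_contra h
      exact he (if_neg h)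
    subst h1
    exact ⟨le_rfl, hZ, fun p hp hd => absurd (Nat.dvd_one.1 hd) hp.one_lt.ne'⟩


theorem bet_nonneg (N B D z : ℕ) (ε₁ : ℝ) (b : ℕ → ℝ) (hb : ∀ m : ℤ, 0 ≤ ds b (z ^ 2) m) (m : ℤ) :
    0 ≤ bet N B D z ε₁ b m :=
  mul_nonneg (mul_nonneg (xx_nonneg _ _) (xx_nonneg _ _)) (hb m)

theorem bet_le_ds (N B D z : ℕ) (ε₁ : ℝ) (b : ℕ → ℝ) (hb : ∀ m : ℤ, 0 ≤ ds b (z ^ 2) m) (m : ℤ) :
    bet N B D z ε₁ b m ≤ ds b (z ^ 2) m := by
  unfold bet
  have h1 : xx ((Icc (D + 1) (DB (2 * N) B)).filter Nat.Prime) m * xx (P1 (2 * N) B ε₁) m ≤ 1 :=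
    mul_le_one₀ (xx_le_one _ _) (xx_nonneg _ _) (xx_le_one _ _)
  exact mul_le_of_le_one_left (hb m) h1

theorem sumW (hEXM : St_EXM) (hGAU : St_GAU) : ∃ X₀ : ℕ, ∀ X : ℕ, X₀ ≤ X →
    Summable (fun n : ℤ => Wt X n) ∧ |∑' n : ℤ, Wt X n - X| ≤ 1 / (X : ℝ) ^ 4 := by
  obtain ⟨X₀, hX₀⟩ := hGAU (1 / 2) (by norm_num)
  refine ⟨max X₀ 1, fun X hX => ?_⟩
  have hX1 : (1 : ℝ) ≤ X := by exact_mod_cast (le_max_right _ _).trans hX
  have hone := hEXM.2.2.2.1 (fun _ => True) 1 0 le_rfl odd_one squarefree_one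
    (fun _ _ _ => trivial)
  have h1 : ((1 : ℕ) : ℝ) ≤ (X : ℝ) ^ (1 - 1 / 2 : ℝ) := by
    rw [Nat.cast_one]
    exact Real.one_le_rpow hX1 (by norm_num)
  have hsW := hX₀ X ((le_max_left _ _).trans hX) _ _ _ _ _ hone h1
  simpa using hsW

theorem beta (hEXM : St_EXM) (hGAU : St_GAU) (hFT3 : St_FT3) (hBPS : St_BPS) (hBPSL : St_BPSL)
    (hFLC : St_FLC2) (hSEL : St_SEL) (hVG : St_VG) (hSUM : St_SUM) (hRCB : St_RCBG)
    (hVLN : St_VLNF) (ε₀ η : ℝ) (he0 : 0 < ε₀) (he0' : ε₀ ≤ 1 / 100) (hη : 0 < η)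
    (hη' : η ≤ 1 / 100) (hR2 : R2LAt ε₀ η) (s : ℝ) (hs : 0 < s) (hs1 : s ≤ 1) :
    ∃ C1 : ℝ, 1 ≤ C1 ∧ ∀ D U : ℕ, 4 ≤ D → 1 ≤ U → ∀ᶠ N : ℕ in atTop,
      ∃ (β : ℤ → ℝ) (κ Y : ℝ) (P : Finset ℕ),
      (∀ m, 0 ≤ β m ∧ β m ≤ Y) ∧ (∀ p : ℕ, p.Prime → 2 * N < p ^ 2 → β p = 1) ∧
      (∀ p ∈ P, p.Prime ∧ D < p) ∧ 1 / (Real.log N) ^ 5 ≤ κ ∧
      κ * (BD D * Real.log N) * ((1 / 4 + ε₀ / 8) * (1 - s)) ≤ 1 ∧
      ∀ a w : ℤ, a ≠ 0 → |a| ≤ U → (∀ p : ℕ, p.Prime → D < p → ¬ (p : ℤ) ∣ a) →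
        4 * |(w : ℝ)| ≤ 3 * |(a : ℝ)| * ((2 * N : ℕ) : ℝ) →
        ((2 * N : ℕ) : ℝ) * κ * (1 - s) ≤ ∑' n : ℤ, Wt (2 * N) n * β (a * n + w) ∧
        ∑' n : ℤ, Wt (2 * N) n * β (a * n + w) ^ 2 ≤ C1 * (((4 * N : ℕ) : ℝ) * κ * (1 + s)) ∧
        ∀ w' : ℤ, w ≠ w' → 4 * |(w' : ℝ)| ≤ 3 * |(a : ℝ)| * ((2 * N : ℕ) : ℝ) →
          |((a * (w - w') : ℤ) : ℝ)| ≤ (Real.log N) ^ 2 →
          ∑' n : ℤ, Wt (2 * N) n * (β (a * n + w) * β (a * n + w')) ≤
            ((2 * N : ℕ) : ℝ) * κ ^ 2 * ((1 + s) * ∏ p ∈ P, fc (w - w') p + s) := by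
  -- constants
  set η₀ : ℝ := min (ε₀ / 160) (η / 16) with hη0d
  have hη0 : 0 < η₀ := lt_min (by positivity) (by positivity)
  have h16 : 16 * η₀ ≤ ε₀ / 10 := by
    have := min_le_left (ε₀ / 160) (η / 16)
    linarith
  have h16' : 16 * η₀ ≤ η := by
    have := min_le_right (ε₀ / 160) (η / 16)
    linarith
  obtain ⟨εs, hεs, hD⟩ := dta hFLC hSEL hVG hSUM hRCB hVLN ε₀ η₀ he0 he0' hη0
  obtain ⟨E, hM⟩ := mom hEXM hGAU hFT3 ε₀ η he0 he0' hη hη' hR2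
  set ε₁ : ℝ := min εs (s / 8) with hε1
  have h1 : 0 < ε₁ := lt_min hεs (by positivity)
  have h1s : ε₁ ≤ s / 8 := min_le_right _ _
  have h11 : ε₁ ≤ 1 := by linarith
  have h13 : ε₁ ^ 3 ≤ s / 8 := by
    have h3 : ε₁ ^ 3 ≤ ε₁ := by
      have h4 : ε₁ ^ 2 ≤ 1 := pow_le_one₀ h1.le h11
      calc ε₁ ^ 3 = ε₁ * ε₁ ^ 2 := by ring
        _ ≤ ε₁ * 1 := by gcongr
        _ = ε₁ := mul_one _
    linarith
  obtain ⟨C1, hC1, hD⟩ := hD ε₁ h1 (min_le_left _ _)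
  refine ⟨C1, hC1, ?_⟩
  intro D U hD4 hU
  set B : ℕ := max 6 (E + 12) with hB
  have hB6 : 6 ≤ B := le_max_left _ _
  have hBE : E + 12 ≤ B := le_max_right _ _
  have hM1 : (1 : ℝ) ≤ 3 ^ ⌈2 / ε₁⌉₊ := one_le_pow₀ (by norm_num)
  have eD := hD (s / 4) B U (by positivity) (by linarith) hB6 hU
  have eM := hM ε₁ η₀ (3 ^ ⌈2 / ε₁⌉₊) 12 B U h1 h11 hη0 h16 h16' hM1 hBE hU
  obtain ⟨N1, hBP1⟩ := hBPS 0 (B + 1) 4 η₀ hη0
  obtain ⟨N2, hBP2⟩ := hBPS 1 (B + 1) 4 η₀ hη0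
  obtain ⟨N3, hBPL⟩ := hBPSL 0 (B + 1) 4 η₀ hη0
  have eV := hVLN 0 B D ε₁ 1 (by omega) (by omega) h1 h11 (by norm_num)
  obtain ⟨X₀, hX₀⟩ := sumW hEXM hGAU
  filter_upwards [eD, eM, eV, eventually_ge_atTop N1, eventually_ge_atTop N2,
    eventually_ge_atTop N3, eventually_ge_atTop X₀, eventually_ge_atTop 64, evlog 4,
    evlog (16 / s), evlog ((2 : ℝ) ^ B), evlog U] with N hDt hMo hV hN1 hN2 hN3 hNX hN64 hl4 hls
      hlB hlU
  obtain ⟨D₁, z, th, dl, b, hd⟩ := hDt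
  have hV := hV (fun i => i.elim0) (fun i => i.elim0) 0 (fun i => i.elim0) (fun i => i.elim0)
  obtain ⟨hVa, hVb, hVc, hVd, hVe, hVf, -, -⟩ := hV
  have hN1r : (64 : ℝ) ≤ N := by exact_mod_cast hN64
  have hN0 : (0 : ℝ) < N := by linarith only [hN1r]
  have hc2 : ((2 * N : ℕ) : ℝ) = 2 * (N : ℝ) := by push_cast; ring
  have h2N : (1 : ℝ) < ((2 * N : ℕ) : ℝ) := by rw [hc2]; linarith only [hN1r]
  have h2N0 : (0 : ℝ) < ((2 * N : ℕ) : ℝ) := by linarith only [h2N]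
  have hl0 : 0 < Real.log N := by linarith only [hl4]
  have hll : Real.log N ≤ Real.log ((2 * N : ℕ) : ℝ) :=
    Real.log_le_log hN0 (by rw [hc2]; linarith only [hN1r])
  have hll2 : Real.log ((2 * N : ℕ) : ℝ) ≤ 2 * Real.log N := by
    rw [hc2, Real.log_mul (by norm_num) hN0.ne']
    have h3 := Real.log_two_lt_d9
    linarith only [h3, hl4]
  set L : ℝ := Real.log N with hL
  have hDBle : (DB (2 * N) B : ℝ) ≤ L ^ (B + 1) := by
    refine hVc.trans ?_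
    calc (Real.log ((2 * N : ℕ) : ℝ)) ^ B ≤ (2 * L) ^ B :=
          pow_le_pow_left₀ (hl0.le.trans hll) hll2 B
      _ = 2 ^ B * L ^ B := by rw [mul_pow]
      _ ≤ L * L ^ B := by gcongr
      _ = _ := by ring
  -- the product over the primes of the presieve
  set V : ℝ := ∏ p ∈ (Icc (D + 1) (DB (2 * N) B)).filter Nat.Prime, (1 - 1 / (p : ℝ)) with hVdef
  set V0 : ℝ := Pool.Agent.W23.PL.VV (P1 (2 * N) B ε₁) with hV0def
  set G : ℝ := GG (Pq N z ε₁) z with hGdef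
  have hVeq : Pool.Agent.W25.UN.VV (fun i : Fin 0 => i.elim0) (fun i : Fin 0 => i.elim0) 0 D
      (DB (2 * N) B) = V := by
    rw [hVdef]
    unfold Pool.Agent.W25.UN.VV
    refine Finset.prod_congr rfl fun p hp => ?_
    obtain ⟨hpp, hDp, -⟩ := Pool.Agent.W25.UN.QQ_prime hp
    have hu : ¬ (p : ℤ) ∣ 1 := by
      intro hj
      have h4 : p ∣ 1 := by exact_mod_cast hj
      exact hpp.one_lt.ne' (Nat.dvd_one.1 h4)
    have e1 : uB (fun i : Fin 0 => i.elim0) = fun _ : Option (Fin 0) => (1 : ℤ) := by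
      funext j
      rcases j with _ | i
      · rfl
      · exact i.elim0
    have e2 : wB (fun i : Fin 0 => i.elim0) 0 = fun _ : Option (Fin 0) => (0 : ℤ) := by
      funext j
      rcases j with _ | i
      · rfl
      · exact i.elim0
    rw [e1, e2, om1 1 0 p hpp hu]
    simp
  rw [hVeq] at hVd hVe
  have hVL : 1 / L ≤ V := hVd
  have hBas : Bas L V V0 G s := by
    refine ⟨?_, hl4, hs, hs1, hVL, hd.Va, hd.G1, hd.G2⟩
    nlinarith
  have hW0 : ∀ (X : ℕ) (n : ℤ), 0 ≤ Wt X n := fun X n => (Real.exp_pos _).le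
  have hbe0 := bet_nonneg N B D z ε₁ b hd.bn
  have hbeY : ∀ m : ℤ, bet N B D z ε₁ b m ≤ ∑ d ∈ Icc 1 (z ^ 2), |b d| := fun m =>
    (bet_le_ds N B D z ε₁ b hd.bn m).trans ((le_abs_self _).trans (ds_bd b (z ^ 2) m))
  set Y : ℝ := ∑ d ∈ Icc 1 (z ^ 2), |b d| with hYdef
  have hY0 : 0 ≤ Y := Finset.sum_nonneg fun _ _ => abs_nonneg _
  have hz2 : 1 ≤ z ^ 2 := Nat.one_le_pow _ _ hd.z1
  have hth1 : |hat th D₁ - V0| ≤ s / 8 * V0 := by
    refine hd.hth.trans ?_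
    have := hBas.V0_pos
    gcongr
  have hdl1 : |hat dl D₁| ≤ s / 8 * V0 := by
    refine hd.hdl.trans ?_
    have := hBas.V0_pos
    gcongr
  have hDWd : DW (P1 (2 * N) B ε₁) D₁ (Real.log (2 * N : ℕ)) dl1 :=
    DW_dl1 _ _ hd.D1 _ (by linarith)
  have hRCd : RCM ∅ (((2 * N : ℕ) : ℝ) ^ ε₁) (z ^ 2) (3 ^ ⌈2 / ε₁⌉₊) dl1 :=
    RCM_dl1 _ _ hz2 _ hM1
  have hEvth : ∀ m : ℤ, 0 ≤ Ev th D₁ m := fun m => (xx_nonneg _ m).trans (hd.fl m).1
  have hEvdl : ∀ m : ℤ, 0 ≤ Ev dl D₁ m := fun m => by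
    have := (hd.fl m).1
    have h3 := (hd.fl m).2
    linarith
  have hlog2 : (Real.log N) ^ 2 ≤ (DB (2 * N) B : ℝ) := by
    have h3 : (Real.log N) ^ 6 ≤ (Real.log ((2 * N : ℕ) : ℝ)) ^ B := by
      calc (Real.log N) ^ 6 ≤ (Real.log N) ^ B := pow_le_pow_right₀ (by linarith) hB6
        _ ≤ _ := pow_le_pow_left₀ hl0.le hll B
    have h5 : (Real.log N) ^ 2 + 1 ≤ (Real.log N) ^ 6 := by
      have h6 : (16 : ℝ) ≤ (Real.log N) ^ 2 := by nlinarith only [hl4]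
      have h7 : (Real.log N) ^ 6 = ((Real.log N) ^ 2) ^ 3 := by ring
      rw [h7]
      set q := (Real.log N) ^ 2 with hq
      have h8 : 16 * q ≤ q ^ 3 := by
        have h9 : 16 ≤ q ^ 2 := by nlinarith only [h6]
        have h10 : q ^ 3 = q ^ 2 * q := by ring
        rw [h10]
        have h11 : 0 ≤ q := by linarith only [h6]
        gcongr
      linarith only [h8, h6]
    linarith only [h3, h5, hVb]
  refine ⟨bet N B D z ε₁ b, V * (V0 / G), Y, (Icc (D + 1) (DB (2 * N) B)).filter Nat.Prime,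
    fun m => ⟨hbe0 m, hbeY m⟩, ?_, ?_, hBas.b3, ?_, ?_⟩
  · -- primes
    intro p hp hp2
    have hpz : z < p := by
      by_contra hcon
      push Not at hcon
      have h3 : p ^ 2 ≤ z ^ 2 := Nat.pow_le_pow_left hcon 2
      have := hd.z5
      omega
    have hpr : ((2 * N : ℕ) : ℝ) ^ ε₁ < (p : ℝ) := by
      have h3 : ((2 * N : ℕ) : ℝ) < (p : ℝ) ^ 2 := by exact_mod_cast hp2
      have h4 : ((2 * N : ℕ) : ℝ) ^ ε₁ ≤ ((2 * N : ℕ) : ℝ) ^ (1 / 2 : ℝ) :=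
        Real.rpow_le_rpow_of_exponent_le h2N.le hd.e12
      have h5 : ((2 * N : ℕ) : ℝ) ^ (1 / 2 : ℝ) < ((p : ℝ) ^ 2) ^ (1 / 2 : ℝ) :=
        Real.rpow_lt_rpow h2N0.le h3 (by norm_num)
      have h6 : ((p : ℝ) ^ 2) ^ (1 / 2 : ℝ) = p := by
        rw [← Real.rpow_natCast, ← Real.rpow_mul (Nat.cast_nonneg p)]
        norm_num
      linarith
    have hDBp : DB (2 * N) B < p := by
      obtain ⟨q, hq⟩ := hd.ne
      have h3 := hd.gd q hq
      have h4 : (DB (2 * N) B : ℝ) < q := by exact_mod_cast h3.2.1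
      have h5 : (DB (2 * N) B : ℝ) < p := by linarith [h3.2.2]
      exact_mod_cast h5
    have key : ∀ q : ℕ, q.Prime → ((q : ℤ) ∣ ((p : ℕ) : ℤ)) → q = p := by
      intro q hq hqp
      have : q ∣ p := by exact_mod_cast hqp
      exact (Nat.prime_dvd_prime_iff_eq hq hp).1 this
    unfold bet
    rw [xx_eq_one, xx_eq_one, hd.bo, one_mul, one_mul]
    · intro q hq hqp
      have h3 := (Pq_mem N z ε₁ q).1 hq
      have := key q h3.1 hqp
      omega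
    · intro q hq hqp
      have h3 := hd.gd q hq
      have h4 := key q h3.1 hqp
      rw [h4] at h3
      linarith [h3.2.2]
    · intro q hq hqp
      rw [mem_filter, mem_Icc] at hq
      have h4 := key q hq.2 hqp
      omega
  · intro p hp
    rw [mem_filter, mem_Icc] at hp
    exact ⟨hp.2, by omega⟩
  · -- the density
    have hBD : V * BD D = BD (DB (2 * N) B) := by
      rw [hVdef]
      unfold BD
      rw [mul_comm, ← Finset.prod_union]
      · apply Finset.prod_congr _ fun _ _ => rfl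
        ext p
        simp only [mem_union, mem_filter, mem_Icc]
        constructor
        · rintro (⟨⟨h3, h4⟩, h5⟩ | ⟨⟨h3, h4⟩, h5⟩)
          · exact ⟨⟨h3, h4.trans hVa⟩, h5⟩
          · exact ⟨⟨by omega, h4⟩, h5⟩
        · rintro ⟨⟨h3, h4⟩, h5⟩
          by_cases h6 : p ≤ D
          · exact Or.inl ⟨⟨h3, h6⟩, h5⟩
          · exact Or.inr ⟨⟨by omega, h4⟩, h5⟩
      · rw [Finset.disjoint_left]
        intro p hp hp'
        rw [mem_filter, mem_Icc] at hp hp'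
        omega
    have h3 := hd.vg
    have h4 : V * (V0 / G) * (BD D * L) * ((1 / 4 + ε₀ / 8) * (1 - s)) =
        V0 / G * (BD (DB (2 * N) B) * L) * ((1 / 4 + ε₀ / 8) * (1 - s)) := by
      rw [← hBD]; ring
    rw [h4]
    refine le_trans ?_ h3
    have hV0p := hBas.V0_pos
    have hG0 : 0 < G := by have := hd.G1; linarith
    have hBp : 0 < BD (DB (2 * N) B) := Pool.Agent.W25.UN.BD_pos _
    have h5 : (1 / 4 + ε₀ / 8) * (1 - s) ≤ (1 / 4 + ε₀ / 8) * (1 - s / 4) := by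
      apply mul_le_mul_of_nonneg_left _ (by linarith)
      linarith
    exact mul_le_mul_of_nonneg_left h5 (by positivity)
  · -- the moments
    intro a w ha haU hap hw
    have ha1 : (1 : ℝ) ≤ |(a : ℝ)| := by
      rw [← Int.cast_abs]
      exact_mod_cast Int.one_le_abs ha
    have haUr : |(a : ℝ)| ≤ U := by
      rw [← Int.cast_abs]
      exact_mod_cast haU
    -- an auxiliary constant term
    obtain ⟨v, hv1, hv2, hv3⟩ : ∃ v : ℤ, w ≠ v ∧ 4 * |(v : ℝ)| ≤ 3 * |(a : ℝ)| * ((2 * N : ℕ) : ℝ) ∧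
        |a * (w - v)| ≤ (DB (2 * N) B : ℤ) := by
      have hUDB : (|a| : ℤ) ≤ (DB (2 * N) B : ℤ) := by
        have h3 : (U : ℝ) ≤ (DB (2 * N) B : ℝ) := by
          refine le_trans ?_ hlog2
          have h4 : (1 : ℝ) ≤ Real.log N := by linarith
          nlinarith
        have h4 : (U : ℤ) ≤ (DB (2 * N) B : ℤ) := by exact_mod_cast h3
        exact haU.trans h4
      have h4N : 4 * (1 : ℝ) ≤ 3 * |(a : ℝ)| * ((2 * N : ℕ) : ℝ) := by
        rw [hc2]; nlinarith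
      rcases le_or_gt w 0 with h0 | h0
      · refine ⟨w + 1, by omega, ?_, ?_⟩
        · rcases eq_or_lt_of_le h0 with h00 | h00
          · rw [h00]
            simpa using h4N
          · refine le_trans ?_ hw
            have h5 : |w + 1| ≤ |w| := by
              rw [abs_of_nonpos h0, abs_of_nonpos (by omega)]
              omega
            have h6 : |((w + 1 : ℤ) : ℝ)| ≤ |(w : ℝ)| := by
              rw [← Int.cast_abs, ← Int.cast_abs]
              exact_mod_cast h5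
            linarith
        · have : a * (w - (w + 1)) = -a := by ring
          rw [this, abs_neg]
          exact hUDB
      · refine ⟨w - 1, by omega, ?_, ?_⟩
        · refine le_trans ?_ hw
          have h5 : |w - 1| ≤ |w| := by
            rw [abs_of_pos h0, abs_of_nonneg (by omega)]
            omega
          have h6 : |((w - 1 : ℤ) : ℝ)| ≤ |(w : ℝ)| := by
            rw [← Int.cast_abs, ← Int.cast_abs]
            exact_mod_cast h5
          linarith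
        · have : a * (w - (w - 1)) = a := by ring
          rw [this]
          exact hUDB
    -- the presieves of one form
    obtain ⟨TU, tU, hExU, hTU0, hTU1, htU⟩ := hBP1 N hN1 (fun _ => a) (fun _ => w) D
      (DB (2 * N) B) (by omega) hVa hDBle (fun p hp hDp j => hap p hp hDp)
    obtain ⟨TL, tL, hExL, hTL1, hTL0, htL⟩ := hBPL N hN3 (fun _ => a) (fun _ => w) D
      (DB (2 * N) B) (by omega) hVa hDBle (fun p hp hDp j => hap p hp hDp)
    rw [prod_om1 a w D _ hap] at htU htL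
    have hExU' := hEXM.2.2.1 _ (fun p => p ≤ DB (2 * N) B) _ _ _ _ _ _ hExU
      (fun p h => h.2) le_rfl le_rfl
    have hExL' := hEXM.2.2.1 _ (fun p => p ≤ DB (2 * N) B) _ _ _ _ _ _ hExL
      (fun p h => h.2) le_rfl le_rfl
    have hi4 : 1 / L ^ 4 ≤ 1 := by
      rw [div_le_one (by positivity)]
      exact one_le_pow₀ (by linarith)
    have ht2 : ∀ t : ℝ, |t - V| ≤ 1 / L ^ 4 → |t| ≤ 2 := by
      intro t ht
      have h3 := abs_le.1 (ht.trans hi4)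
      have h4 := hBas.V_pos
      rw [abs_le]
      constructor
      · linarith [h3.1]
      · linarith [h3.2]
    have hz2N : ((z ^ 2 : ℕ) : ℝ) ≤ ((4 * N : ℕ) : ℝ) ^ (1 / 2 + ε₀ / 4) := by
      refine hd.z2.trans (Real.rpow_le_rpow h2N0.le ?_ (by linarith))
      push_cast
      linarith
    have hbs : ∑ d ∈ Icc 1 (z ^ 2), b d / (d : ℝ) = 1 / G := hd.bs
    have hdb := hatb_dl1 (z ^ 2) hz2
    have hhd := hat_dl1 D₁ hd.D1
    -- summability
    obtain ⟨hsW2, -⟩ := hX₀ (2 * N) (by omega)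
    obtain ⟨hsW4, -⟩ := hX₀ (4 * N) (by omega)
    have hsb : ∀ (X : ℕ), Summable (fun n : ℤ => Wt X n) → ∀ (f : ℤ → ℝ) (Y' : ℝ),
        (∀ n, 0 ≤ f n ∧ f n ≤ Y') → Summable (fun n : ℤ => Wt X n * f n) := by
      intro X hs f Y' hf
      refine Summable.of_nonneg_of_le (fun n => mul_nonneg (hW0 X n) (hf n).1)
        (fun n => mul_le_mul_of_nonneg_left (hf n).2 (hW0 X n)) (hs.mul_right Y')
    -- one form from above at scale 4N
    have hup4 : ∑' n : ℤ, Wt (4 * N) n * bet N B D z ε₁ b (a * n + w) ≤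
        ((4 * N : ℕ) : ℝ) * (V * (V0 / G)) * (1 + s) := by
      obtain ⟨hsm, hmm⟩ := hMo a w v ha haU hw hv2 hv1 hv3 D₁ _ TU tU hd.D1e hd.gd hExU'
        (ht2 tU htU) (4 * N) (z ^ 2) th dl1 b dl1 (Or.inr rfl) hz2N hd.dth hDWd hd.bM hRCd
      rw [hhd, hbs, hdb] at hmm
      have h3 := alg2 (X := ((4 * N : ℕ) : ℝ)) hBas (Nat.cast_nonneg _) htU hth1
      have h4 := (abs_le.1 hmm).2
      have h5 : ∑' n : ℤ, Wt (4 * N) n * bet N B D z ε₁ b (a * n + w) ≤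
          ∑' n : ℤ, Wt (4 * N) n * Mf a w v D₁ (z ^ 2) TU th dl1 b dl1 n := by
        refine (hsb _ hsW4 _ Y fun n => ⟨hbe0 _, hbeY _⟩).tsum_le_tsum (fun n => ?_) hsm
        apply mul_le_mul_of_nonneg_left _ (hW0 _ _)
        unfold Mf bet
        rw [Ev_dl1 D₁ hd.D1, ds_dl1 _ hz2]
        refine up1 (xx_cases _ _) (hTU0 n) (fun hx => hTU1 n ?_) (xx_nonneg _ _) (hd.fl _).1
          (hd.bn _)
        intro p hp h6 h7 _
        exact of_xx_one _ _ hx p (mem_filter.2 ⟨mem_Icc.2 ⟨by omega, h7⟩, hp⟩)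
      linarith
    refine ⟨?_, ?_, ?_⟩
    · -- first moment from below
      obtain ⟨hsmL, hmmL⟩ := hMo a w v ha haU hw hv2 hv1 hv3 D₁ _ TL tL hd.D1e hd.gd hExL'
        (ht2 tL htL) (2 * N) (z ^ 2) th dl1 b dl1 (Or.inl rfl) hd.z2 hd.dth hDWd hd.bM hRCd
      obtain ⟨hsmU, hmmU⟩ := hMo a w v ha haU hw hv2 hv1 hv3 D₁ _ TU tU hd.D1e hd.gd hExU'
        (ht2 tU htU) (2 * N) (z ^ 2) dl dl1 b dl1 (Or.inl rfl) hd.z2 hd.ddl hDWd hd.bM hRCd
      rw [hhd, hbs, hdb] at hmmL hmmU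
      have h3 := alg1 (X := ((2 * N : ℕ) : ℝ)) hBas (Nat.cast_nonneg _) htL htU hth1 hdl1
      have h4 := (abs_le.1 hmmL).1
      have h5 := (abs_le.1 hmmU).2
      have h6 : ∑' n : ℤ, (Wt (2 * N) n * Mf a w v D₁ (z ^ 2) TL th dl1 b dl1 n -
          Wt (2 * N) n * Mf a w v D₁ (z ^ 2) TU dl dl1 b dl1 n) ≤
          ∑' n : ℤ, Wt (2 * N) n * bet N B D z ε₁ b (a * n + w) := by
        refine (hsmL.sub hsmU).tsum_le_tsum (fun n => ?_)
          (hsb _ hsW2 _ Y fun n => ⟨hbe0 _, hbeY _⟩)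
        rw [← mul_sub]
        apply mul_le_mul_of_nonneg_left _ (hW0 _ _)
        unfold Mf bet
        rw [Ev_dl1 D₁ hd.D1, ds_dl1 _ hz2]
        refine lo1 (xx_cases _ _) (hTL1 n) (fun hx => hTL0 n ?_) (hTU0 n)
          (fun hx => hTU1 n ?_) (xx_nonneg _ _) (hd.fl _).1 (hd.fl _).2 (hd.bn _)
        · obtain ⟨p, hp, hpd⟩ := of_xx_zero _ _ hx
          rw [mem_filter, mem_Icc] at hp
          exact ⟨p, hp.2, by omega, hp.1.2, none, hpd⟩
        · intro p hp h6 h7 _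
          exact of_xx_one _ _ hx p (mem_filter.2 ⟨mem_Icc.2 ⟨by omega, h7⟩, hp⟩)
      rw [hsmL.tsum_sub hsmU] at h6
      linarith
    · -- the diagonal
      have h3 : ∑' n : ℤ, Wt (2 * N) n * bet N B D z ε₁ b (a * n + w) ^ 2 ≤
          ∑' n : ℤ, C1 * (Wt (4 * N) n * bet N B D z ε₁ b (a * n + w)) := by
        refine (hsb _ hsW2 _ (Y ^ 2) fun n => ⟨sq_nonneg _,
          pow_le_pow_left₀ (hbe0 _) (hbeY _) 2⟩).tsum_le_tsum (fun n => ?_)
          ((hsb _ hsW4 _ Y fun n => ⟨hbe0 _, hbeY _⟩).mul_left C1)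
        by_cases h0 : a * n + w = 0
        · have h4 : bet N B D z ε₁ b (a * n + w) = 0 := by
            rw [h0]
            unfold bet
            obtain ⟨q, hq⟩ := hd.ne
            rw [xx_eq_zero (P1 (2 * N) B ε₁) 0 ⟨q, hq, dvd_zero _⟩]
            ring
          rw [h4]
          simp
        · have h4 := hd.rcb a w n haU (by nlinarith) h0
          have h5 := bet_le_ds N B D z ε₁ b hd.bn (a * n + w)
          calc Wt (2 * N) n * bet N B D z ε₁ b (a * n + w) ^ 2 =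
              (Wt (2 * N) n * bet N B D z ε₁ b (a * n + w)) * bet N B D z ε₁ b (a * n + w) := by ring
            _ ≤ (C1 * Wt (4 * N) n) * bet N B D z ε₁ b (a * n + w) := by
                apply mul_le_mul_of_nonneg_right _ (hbe0 _)
                exact (mul_le_mul_of_nonneg_left h5 (hW0 _ _)).trans h4
            _ = _ := by ring
      rw [tsum_mul_left] at h3
      refine h3.trans (mul_le_mul_of_nonneg_left hup4 (by linarith))
    · -- pairs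
      intro w' hww' hw' hdet
      obtain ⟨T2, t2, hEx2, hT20, hT21, ht2'⟩ := hBP2 N hN2 (uu a) (ww w w') D
        (DB (2 * N) B) (by omega) hVa hDBle (fun p hp hDp j => hap p hp hDp)
      have hEx2' := hEXM.2.2.1 _ (fun p => p ≤ DB (2 * N) B) _ _ _ _ _ _ hEx2
        (fun p h => h.2) le_rfl le_rfl
      obtain ⟨hQ0, hQ1⟩ := prod_om2_bd a w w' D (DB (2 * N) B) hap
      have htt : |t2| ≤ 2 := by
        have h3 := abs_le.1 (ht2'.trans hi4)
        rw [abs_le]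
        constructor
        · linarith [h3.1]
        · linarith [h3.2]
      have hdet' : |a * (w - w')| ≤ (DB (2 * N) B : ℤ) := by
        have h3 := hdet.trans hlog2
        rw [← Int.cast_abs] at h3
        exact_mod_cast h3
      obtain ⟨hsm, hmm⟩ := hMo a w w' ha haU hw hw' hww' hdet' D₁ _ T2 t2 hd.D1e hd.gd hEx2'
        htt (2 * N) (z ^ 2) th th b b (Or.inl rfl) hd.z2 hd.dth hd.dth hd.bM hd.bM
      rw [hbs] at hmm
      have h3 := alg3 (X := ((2 * N : ℕ) : ℝ)) hBas (Nat.cast_nonneg _)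
        (F := ∏ p ∈ (Icc (D + 1) (DB (2 * N) B)).filter Nat.Prime, fc (w - w') p)
        (prod_nonneg fun p hp => zero_le_one.trans (fc_one_le _ _ (mem_filter.1 hp).2.two_le))
        ht2' (prod_om2_le a w w' D (DB (2 * N) B) hap) hth1
      have h4 := (abs_le.1 hmm).2
      have h5 : ∑' n : ℤ, Wt (2 * N) n * (bet N B D z ε₁ b (a * n + w) *
          bet N B D z ε₁ b (a * n + w')) ≤
          ∑' n : ℤ, Wt (2 * N) n * Mf a w w' D₁ (z ^ 2) T2 th th b b n := by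
        refine (hsb _ hsW2 _ (Y * Y) fun n => ⟨mul_nonneg (hbe0 _) (hbe0 _),
          mul_le_mul (hbeY _) (hbeY _) (hbe0 _) hY0⟩).tsum_le_tsum (fun n => ?_) hsm
        apply mul_le_mul_of_nonneg_left _ (hW0 _ _)
        unfold Mf bet
        refine up2 (xx_cases _ _) (xx_cases _ _) (hT20 n) (fun hx hx' => hT21 n ?_)
          (xx_nonneg _ _) (hd.fl _).1 (xx_nonneg _ _) (hd.fl _).1 (hd.bn _) (hd.bn _)
        intro p hp h6 h7 j
        rcases j with _ | j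
        · exact of_xx_one _ _ hx p (mem_filter.2 ⟨mem_Icc.2 ⟨by omega, h7⟩, hp⟩)
        · exact of_xx_one _ _ hx' p (mem_filter.2 ⟨mem_Icc.2 ⟨by omega, h7⟩, hp⟩)
      linarith

end Q157.LG
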