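import Pool.Agent.Q157.LG.Sing
import Pool.Agent.Erdos456.Mertens

/-! The fourth moment of `m / φ(m)` in windows of length at least `log X`. -/

set_option autoImplicit false

namespace Q157.LG

open Finset Filter

theorem card_mult (u ℓ e : ℕ) (he : 1 ≤ e) :
    (((Ico u (u + ℓ)).filter (fun m => e ∣ m)).card : ℝ) ≤ (ℓ : ℝ) / e + 1 := by
  have h1 : ((Ico u (u + ℓ)).filter (fun m => e ∣ m)).card ≤ (range (ℓ / e + 1)).card := by
    apply card_le_card_of_injOn (fun m => (m - u) / e)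
    · intro m hm
      rw [mem_coe, mem_filter, mem_Ico] at hm
      rw [mem_coe, mem_range, Nat.lt_succ_iff]
      apply Nat.div_le_div_right
      omega
    · intro m hm m' hm' h
      rw [mem_coe, mem_filter, mem_Ico] at hm hm'
      simp only at h
      have h2 := Nat.div_add_mod (m - u) e
      have h3 := Nat.div_add_mod (m' - u) e
      rw [h] at h2
      have h4 := Nat.mod_lt (m - u) he
      have h5 := Nat.mod_lt (m' - u) he
      obtain ⟨k, hk⟩ := hm.2
      obtain ⟨k', hk'⟩ := hm'.2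
      have h6 : (e : ℤ) ∣ (m : ℤ) - m' := by
        rw [hk, hk']
        push_cast
        exact ⟨(k : ℤ) - k', by ring⟩
      have h7 : |(m : ℤ) - m'| < e := by
        rw [abs_lt]
        constructor <;> omega
      have h8 := Int.eq_zero_of_abs_lt_dvd h6 h7
      omega
  rw [card_range] at h1
  have h2 : ((ℓ / e : ℕ) : ℝ) ≤ (ℓ : ℝ) / e := Nat.cast_div_le
  calc (((Ico u (u + ℓ)).filter (fun m => e ∣ m)).card : ℝ) ≤ ((ℓ / e + 1 : ℕ) : ℝ) := by
        exact_mod_cast h1
    _ ≤ _ := by push_cast; linarith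

/-- the local factor -/
noncomputable def f4 (p : ℕ) : ℝ := ((1 - (p : ℝ)⁻¹)⁻¹) ^ 4 - 1

theorem f4_bd (p : ℕ) (hp : 2 ≤ p) : 0 ≤ f4 p ∧ f4 p ≤ 30 / p := by
  have hp2 : (2 : ℝ) ≤ p := by exact_mod_cast hp
  have hp0 : (0 : ℝ) < p := by linarith
  set x : ℝ := 1 / ((p : ℝ) - 1) with hx
  have hx0 : 0 < x := by rw [hx]; apply one_div_pos.2; linarith
  have hx1 : x ≤ 1 := by
    rw [hx, div_le_one (by linarith)]
    linarith
  have h1 : (1 - (p : ℝ)⁻¹)⁻¹ = 1 + x := by
    rw [hx]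
    have h2 : (p : ℝ) - 1 ≠ 0 := by
      intro h; linarith
    field_simp
    ring
  unfold f4
  rw [h1]
  constructor
  · nlinarith [pow_pos hx0 2, pow_pos hx0 3, pow_pos hx0 4]
  · have h2 : (1 + x) ^ 4 - 1 ≤ 15 * x := by
      have e : (1 + x) ^ 4 - 1 = 4 * x + 6 * x ^ 2 + 4 * x ^ 3 + x ^ 4 := by ring
      rw [e]
      have h3 : x ^ 2 ≤ x := by nlinarith
      have h4 : x ^ 3 ≤ x := by
        calc x ^ 3 = x * x ^ 2 := by ring
          _ ≤ x * 1 := by gcongr; nlinarith
          _ = x := mul_one x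
      have h5 : x ^ 4 ≤ x := by
        calc x ^ 4 = x * x ^ 3 := by ring
          _ ≤ x * 1 := by gcongr; nlinarith
          _ = x := mul_one x
      linarith
    refine h2.trans ?_
    rw [hx, mul_one_div, div_le_div_iff₀ (by linarith) hp0]
    linarith

theorem ratio_eq (m : ℕ) (hm : 1 ≤ m) :
    (m : ℝ) / (Nat.totient m : ℝ) = ∏ p ∈ m.primeFactors, (1 - (p : ℝ)⁻¹)⁻¹ := by
  have h := Nat.totient_eq_mul_prod_factors m
  have h2 : ((m.totient : ℚ) : ℝ) = ((m * ∏ p ∈ m.primeFactors, (1 - (p : ℚ)⁻¹) : ℚ) : ℝ) := by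
    exact_mod_cast congrArg (fun q : ℚ => (q : ℝ)) h
  push_cast at h2
  have hm0 : (m : ℝ) ≠ 0 := by
    have : m ≠ 0 := by omega
    exact_mod_cast this
  rw [h2, prod_inv_distrib, div_eq_mul_inv, mul_inv]
  rw [← mul_assoc, mul_inv_cancel₀ hm0, one_mul]

theorem ratio4 (m z : ℕ) (hm : 1 ≤ m) (hz : 1 ≤ z) (hmz : m ≤ 2 ^ (3 * z)) :
    ((m : ℝ) / (Nat.totient m : ℝ)) ^ 4 ≤ Real.exp 12 *
      ∏ p ∈ (Icc 1 z).filter Nat.Prime, (if (p : ℤ) ∣ (m : ℤ) then 1 + f4 p else 1) := by
  classical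
  have hz0 : (0 : ℝ) < z := by exact_mod_cast hz
  rw [ratio_eq m hm, ← prod_pow]
  have h1 : ∏ p ∈ m.primeFactors, ((1 - (p : ℝ)⁻¹)⁻¹) ^ 4 =
      (∏ p ∈ m.primeFactors.filter (fun p => p ≤ z), (1 + f4 p)) *
      ∏ p ∈ m.primeFactors.filter (fun p => ¬ p ≤ z), (1 + f4 p) := by
    rw [prod_filter_mul_prod_filter_not]
    apply prod_congr rfl
    intro p _
    unfold f4
    ring
  rw [h1, mul_comm]
  have hpos : ∀ p ∈ (Icc 1 z).filter Nat.Prime, (0 : ℝ) ≤ (if (p : ℤ) ∣ (m : ℤ) then 1 + f4 p else 1) := by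
    intro p hp
    have := (f4_bd p (mem_filter.1 hp).2.two_le).1
    split_ifs <;> linarith
  gcongr
  · exact prod_nonneg fun p hp => by
      have := (f4_bd p (Nat.prime_of_mem_primeFactors (mem_filter.1 hp).1).two_le).1
      linarith
  · -- the large primes
    have hcard : (m.primeFactors.filter (fun p => ¬ p ≤ z)).card ≤ 3 * z := by
      have h2 : 2 ^ (m.primeFactors.filter (fun p => ¬ p ≤ z)).card ≤ m := by
        calc 2 ^ (m.primeFactors.filter (fun p => ¬ p ≤ z)).card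
            ≤ 2 ^ m.primeFactors.card := Nat.pow_le_pow_right (by norm_num) (card_filter_le _ _)
          _ ≤ ∏ p ∈ m.primeFactors, p := by
              rw [← prod_const]
              apply prod_le_prod'
              intro p hp
              exact (Nat.prime_of_mem_primeFactors hp).two_le
          _ ≤ m := Nat.le_of_dvd (by omega) (Nat.prod_primeFactors_dvd m)
      exact (Nat.pow_le_pow_iff_right (by norm_num)).1 (h2.trans hmz)
    have h3 : ∀ p ∈ m.primeFactors.filter (fun p => ¬ p ≤ z), 1 + f4 p ≤ Real.exp (4 / z) := by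
      intro p hp
      rw [mem_filter] at hp
      have hpz : (z : ℝ) + 1 ≤ p := by
        have : z + 1 ≤ p := by omega
        exact_mod_cast this
      have h4 : (1 - (p : ℝ)⁻¹)⁻¹ ≤ 1 + 1 / z := by
        have h5 : (p : ℝ)⁻¹ ≤ ((z : ℝ) + 1)⁻¹ := inv_anti₀ (by positivity) hpz
        have h6 : (1 - ((z : ℝ) + 1)⁻¹)⁻¹ = 1 + 1 / z := by
          have h7 : (1 : ℝ) - ((z : ℝ) + 1)⁻¹ = z / (z + 1) := by
            field_simp
            ring
          rw [h7, inv_div]
          field_simp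
        rw [← h6]
        apply inv_anti₀
        · rw [sub_pos]
          apply inv_lt_one_of_one_lt₀
          linarith
        · linarith
      have h5 : 1 + 1 / (z : ℝ) ≤ Real.exp (1 / z) := by
        have := Real.add_one_le_exp (1 / (z : ℝ))
        linarith
      have h6 : (0 : ℝ) ≤ (1 - (p : ℝ)⁻¹)⁻¹ := by
        apply inv_nonneg.2
        rw [sub_nonneg]
        apply inv_le_one_of_one_le₀
        linarith
      unfold f4
      calc 1 + (((1 - (p : ℝ)⁻¹)⁻¹) ^ 4 - 1) = ((1 - (p : ℝ)⁻¹)⁻¹) ^ 4 := by ring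
        _ ≤ (Real.exp (1 / z)) ^ 4 := by
            gcongr
            exact h4.trans h5
        _ = Real.exp (4 / z) := by
            rw [← Real.exp_nat_mul]
            congr 1
            push_cast
            ring
    calc ∏ p ∈ m.primeFactors.filter (fun p => ¬ p ≤ z), (1 + f4 p)
        ≤ ∏ _p ∈ m.primeFactors.filter (fun p => ¬ p ≤ z), Real.exp (4 / z) := by
          apply Finset.prod_le_prod
          · intro p hp
            have := (f4_bd p (Nat.prime_of_mem_primeFactors (mem_filter.1 hp).1).two_le).1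
            linarith
          · exact h3
      _ = Real.exp (4 / z) ^ (m.primeFactors.filter (fun p => ¬ p ≤ z)).card := by rw [prod_const]
      _ ≤ Real.exp (4 / z) ^ (3 * z) := by
          apply pow_le_pow_right₀ _ hcard
          apply Real.one_le_exp
          positivity
      _ = Real.exp 12 := by
          rw [← Real.exp_nat_mul]
          congr 1
          push_cast
          field_simp
          norm_num
  · -- the small primes
    rw [← prod_filter_mul_prod_filter_not ((Icc 1 z).filter Nat.Prime) (fun p : ℕ => (p : ℤ) ∣ (m : ℤ))]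
    have h2 : ∏ p ∈ ((Icc 1 z).filter Nat.Prime).filter (fun p : ℕ => ¬ (p : ℤ) ∣ (m : ℤ)),
        (if (p : ℤ) ∣ (m : ℤ) then 1 + f4 p else 1) = 1 := by
      apply prod_eq_one
      intro p hp
      rw [if_neg (mem_filter.1 hp).2]
    rw [h2, mul_one]
    apply le_of_eq
    apply prod_congr
    · ext p
      simp only [mem_filter, mem_Icc, Nat.mem_primeFactors, Int.natCast_dvd_natCast]
      constructor
      · rintro ⟨⟨h3, h4, h5⟩, h6⟩
        exact ⟨⟨⟨h3.one_lt.le, h6⟩, h3⟩, h4⟩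
      · rintro ⟨⟨⟨h3, h4⟩, h5⟩, h6⟩
        exact ⟨⟨h5, h6, by omega⟩, h4⟩
    · intro p hp
      rw [if_pos (mem_filter.1 hp).2]

theorem win_prod (u ℓ z : ℕ) :
    ∑ m ∈ Ico u (u + ℓ), ∏ p ∈ (Icc 1 z).filter Nat.Prime,
      (if (p : ℤ) ∣ (m : ℤ) then 1 + f4 p else 1) ≤
    ℓ * ∏ p ∈ (Icc 1 z).filter Nat.Prime, (1 + f4 p / p) +
      ∏ p ∈ (Icc 1 z).filter Nat.Prime, (1 + f4 p) := by
  classical
  have hP : ∀ p ∈ (Icc 1 z).filter Nat.Prime, p.Prime := fun p hp => (mem_filter.1 hp).2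
  simp_rw [prod_expand _ hP f4]
  rw [sum_comm, Finset.prod_one_add, Finset.prod_one_add, mul_sum, ← sum_add_distrib]
  apply sum_le_sum
  intro T hT
  have hT' : ∀ p ∈ T, p.Prime := fun p hp => hP p (mem_powerset.1 hT hp)
  have h1 : ∑ m ∈ Ico u (u + ℓ), (if ((∏ p ∈ T, p : ℕ) : ℤ) ∣ (m : ℤ) then ∏ p ∈ T, f4 p else 0) =
      (((Ico u (u + ℓ)).filter (fun m => (∏ p ∈ T, p) ∣ m)).card : ℝ) * ∏ p ∈ T, f4 p := by
    rw [← sum_filter, sum_const, nsmul_eq_mul]
    congr 2
    apply congrArg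
    apply filter_congr
    intro m _
    rw [Int.natCast_dvd_natCast]
  rw [h1]
  have he : 1 ≤ ∏ p ∈ T, p := Nat.one_le_iff_ne_zero.2 (prod_ne_zero_iff.2 fun p hp => (hT' p hp).ne_zero)
  have h2 := card_mult u ℓ (∏ p ∈ T, p) he
  have h3 : 0 ≤ ∏ p ∈ T, f4 p := prod_nonneg fun p hp => (f4_bd p (hT' p hp).two_le).1
  calc (((Ico u (u + ℓ)).filter (fun m => (∏ p ∈ T, p) ∣ m)).card : ℝ) * ∏ p ∈ T, f4 p
      ≤ ((ℓ : ℝ) / ((∏ p ∈ T, p : ℕ) : ℝ) + 1) * ∏ p ∈ T, f4 p := by gcongr
    _ = ℓ * ∏ p ∈ T, (f4 p / p) + ∏ p ∈ T, f4 p := by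
        rw [prod_div_distrib]
        push_cast
        ring

theorem win4 : ∃ K : ℝ, 0 < K ∧ ∀ᶠ X : ℕ in atTop, ∀ (u ℓ : ℕ), 1 ≤ u → Real.log X ≤ ℓ →
    u + ℓ ≤ X ^ 2 → ∑ m ∈ Ico u (u + ℓ), ((m : ℝ) / (Nat.totient m : ℝ)) ^ 4 ≤ K * ℓ := by
  obtain ⟨C, hC⟩ := Pool.Agent.Erdos456.Mert.mertens_inv
  refine ⟨Real.exp 12 * (Real.exp 60 + 1), by positivity, ?_⟩
  -- growth
  have hgrow : ∀ᶠ z : ℕ in atTop, Real.exp (30 * C) * (Real.log z) ^ 30 ≤ (z : ℝ) / 2 := by
    have h1 : Tendsto (fun x : ℝ => (Real.log x) ^ 30 / x) atTop (nhds 0) := by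
      have := isLittleO_log_rpow_atTop (r := 1 / 30) (by norm_num)
      have h2 := Real.isLittleO_pow_log_id_atTop (n := 30)
      simpa using h2.tendsto_div_nhds_zero
    have h2 : ∀ᶠ x : ℝ in atTop, (Real.log x) ^ 30 / x < 1 / (2 * Real.exp (30 * C)) :=
      h1.eventually (gt_mem_nhds (by positivity))
    have h3 := tendsto_natCast_atTop_atTop.eventually h2
    filter_upwards [h3, eventually_gt_atTop 0] with z hz hz0
    have hz0' : (0 : ℝ) < z := by exact_mod_cast hz0
    rw [div_lt_iff₀ hz0'] at hz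
    have hE : 0 < Real.exp (30 * C) := Real.exp_pos _
    calc Real.exp (30 * C) * (Real.log z) ^ 30 ≤ Real.exp (30 * C) *
          (1 / (2 * Real.exp (30 * C)) * z) := by gcongr
      _ = z / 2 := by field_simp
  have hz : Tendsto (fun X : ℕ => ⌈Real.log X⌉₊) atTop atTop :=
    tendsto_nat_ceil_atTop.comp (Real.tendsto_log_atTop.comp tendsto_natCast_atTop_atTop)
  filter_upwards [hz.eventually hgrow, hz.eventually (eventually_ge_atTop 3),
    eventually_ge_atTop 3] with X h1 h2 hX3 u ℓ hu hℓ huX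
  set z := ⌈Real.log X⌉₊ with hzdef
  have hX0 : (0 : ℝ) < X := by
    have : 0 < X := by omega
    exact_mod_cast this
  have hzlog : Real.log X ≤ z := Nat.le_ceil _
  have hzℓ : z ≤ ℓ := Nat.ceil_le.2 hℓ
  have hX2 : X ^ 2 ≤ 2 ^ (3 * z) := by
    have h3 : ((X ^ 2 : ℕ) : ℝ) ≤ ((2 ^ (3 * z) : ℕ) : ℝ) := by
      push_cast
      rw [← Real.log_le_log_iff (by positivity) (by positivity), Real.log_pow, Real.log_pow]
      have h4 := Real.log_two_gt_d9
      push_cast
      have h5 : (0 : ℝ) ≤ z := Nat.cast_nonneg z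
      nlinarith
    exact_mod_cast h3
  have h3 : ∀ m ∈ Ico u (u + ℓ), ((m : ℝ) / (Nat.totient m : ℝ)) ^ 4 ≤ Real.exp 12 *
      ∏ p ∈ (Icc 1 z).filter Nat.Prime, (if (p : ℤ) ∣ (m : ℤ) then 1 + f4 p else 1) := by
    intro m hm
    rw [mem_Ico] at hm
    exact ratio4 m z (by omega) (by omega) ((by omega : m ≤ X ^ 2).trans hX2)
  refine (sum_le_sum h3).trans ?_
  rw [← mul_sum, mul_assoc]
  gcongr
  refine (win_prod u ℓ z).trans ?_
  have h4 : ∏ p ∈ (Icc 1 z).filter Nat.Prime, (1 + f4 p / p) ≤ Real.exp 60 := by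
    calc ∏ p ∈ (Icc 1 z).filter Nat.Prime, (1 + f4 p / p)
        ≤ ∏ p ∈ (Icc 1 z).filter Nat.Prime, Real.exp (30 * (1 / (p : ℝ) ^ 2)) := by
          apply Finset.prod_le_prod
          · intro p hp
            have h5 := f4_bd p (mem_filter.1 hp).2.two_le
            have : 0 ≤ f4 p / p := div_nonneg h5.1 (Nat.cast_nonneg p)
            linarith
          · intro p hp
            have h5 := f4_bd p (mem_filter.1 hp).2.two_le
            have hp0 : (0 : ℝ) < p := by exact_mod_cast (mem_filter.1 hp).2.pos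
            have h6 : f4 p / p ≤ 30 * (1 / (p : ℝ) ^ 2) := by
              calc f4 p / p ≤ (30 / p) / p := by gcongr; exact h5.2
                _ = _ := by field_simp
            have h7 := Real.add_one_le_exp (30 * (1 / (p : ℝ) ^ 2))
            linarith
      _ = Real.exp (30 * ∑ p ∈ (Icc 1 z).filter Nat.Prime, 1 / (p : ℝ) ^ 2) := by
          rw [← Real.exp_sum, mul_sum]
      _ ≤ Real.exp 60 := by
          rw [Real.exp_le_exp]
          have h5 : ∑ p ∈ (Icc 1 z).filter Nat.Prime, 1 / (p : ℝ) ^ 2 ≤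
              ∑ p ∈ Icc 1 z, 1 / (p : ℝ) ^ 2 :=
            sum_le_sum_of_subset_of_nonneg (filter_subset _ _) fun _ _ _ => by positivity
          have h6 : ∀ y : ℕ, 1 ≤ y → ∑ p ∈ Icc 1 y, (1 : ℝ) / (p : ℝ) ^ 2 ≤ 2 - 1 / (y : ℝ) := by
            intro y hy
            induction y, hy using Nat.le_induction with
            | base => norm_num [Finset.Icc_self]
            | succ n hn ih =>
              rw [sum_Icc_succ_top (by omega)]
              have hn0 : (0 : ℝ) < n := by exact_mod_cast hn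
              have h7 : 1 / ((n + 1 : ℕ) : ℝ) ^ 2 ≤ 1 / n - 1 / ((n + 1 : ℕ) : ℝ) := by
                push_cast
                rw [div_sub_div _ _ (by positivity) (by positivity), div_le_div_iff₀ (by positivity) (by positivity)]
                nlinarith
              linarith
          have h7 := h6 z (by omega)
          have h8 : (0 : ℝ) ≤ 1 / (z : ℝ) := by positivity
          linarith
  have h5 : ∏ p ∈ (Icc 1 z).filter Nat.Prime, (1 + f4 p) ≤ z := by
    calc ∏ p ∈ (Icc 1 z).filter Nat.Prime, (1 + f4 p)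
        ≤ ∏ p ∈ (Icc 1 z).filter Nat.Prime, Real.exp (30 * (1 / (p : ℝ))) := by
          apply Finset.prod_le_prod
          · intro p hp
            have h5 := f4_bd p (mem_filter.1 hp).2.two_le
            linarith [h5.1]
          · intro p hp
            have h5 := f4_bd p (mem_filter.1 hp).2.two_le
            have h7 := Real.add_one_le_exp (30 * (1 / (p : ℝ)))
            have h8 : 30 / (p : ℝ) = 30 * (1 / p) := by ring
            linarith [h5.2]
      _ = Real.exp (30 * ∑ p ∈ (Icc 1 z).filter Nat.Prime, 1 / (p : ℝ)) := by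
          rw [← Real.exp_sum, mul_sum]
      _ ≤ Real.exp (30 * (Real.log (Real.log z) + C)) := by
          rw [Real.exp_le_exp]
          have h6 := (abs_le.1 (hC z h2)).2
          linarith
      _ = Real.exp (30 * C) * (Real.log z) ^ 30 := by
          have hlz : 0 < Real.log z := Real.log_pos (by exact_mod_cast (by omega : 1 < z))
          rw [mul_add, Real.exp_add, mul_comm (Real.exp _) (Real.exp _)]
          congr 1
          rw [show (30 : ℝ) = ((30 : ℕ) : ℝ) by norm_num, Real.exp_nat_mul, Real.exp_log hlz]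
      _ ≤ (z : ℝ) / 2 := h1
      _ ≤ z := by
          have : (0 : ℝ) ≤ z := Nat.cast_nonneg z
          linarith
  have h6 : (z : ℝ) ≤ ℓ := by exact_mod_cast hzℓ
  have h7 : (0 : ℝ) ≤ ℓ := Nat.cast_nonneg ℓ
  nlinarith

end Q157.LG
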